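import Pool.Agent.LibHP4.Defs

set_option autoImplicit false

namespace Pool.Agent.LibHP

/-- The ten exponents of degree three. -/
noncomputable def G10a_exp (i : Fin 10) : Fin 3 →₀ ℕ :=
  Finsupp.equivFunOnFinite.symm
    ((![![3, 0, 0], ![2, 1, 0], ![2, 0, 1], ![1, 2, 0], ![1, 1, 1], ![1, 0, 2], ![0, 3, 0],
      ![0, 2, 1], ![0, 1, 2], ![0, 0, 3]] : Fin 10 → Fin 3 → ℕ) i)

theorem G10a_apply (i : Fin 10) (j : Fin 3) : G10a_exp i j =
    (![![3, 0, 0], ![2, 1, 0], ![2, 0, 1], ![1, 2, 0], ![1, 1, 1], ![1, 0, 2], ![0, 3, 0],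
      ![0, 2, 1], ![0, 1, 2], ![0, 0, 3]] : Fin 10 → Fin 3 → ℕ) i j := rfl

theorem G10a_inj : Function.Injective G10a_exp := by
  intro i j h
  have h2 := Finsupp.equivFunOnFinite.symm.injective h
  clear h
  revert h2
  revert i j
  decide

theorem G10a_ext (s : Fin 3 →₀ ℕ) (i : Fin 10) (h0 : G10a_exp i 0 = s 0) (h1 : G10a_exp i 1 = s 1)
    (h2 : G10a_exp i 2 = s 2) : ∃ i, G10a_exp i = s := by
  refine ⟨i, ?_⟩
  ext j
  fin_cases j
  · exact h0
  · exact h1
  · exact h2

theorem G10a_exists (s : Fin 3 →₀ ℕ) (hs : s 0 + s 1 + s 2 = 3) : ∃ i, G10a_exp i = s := by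
  have h0 : s 0 ≤ 3 := by omega
  have h1 : s 1 ≤ 3 := by omega
  rcases Nat.lt_or_ge (s 0) 1 with a | a
  · have a0 : s 0 = 0 := by omega
    rcases Nat.lt_or_ge (s 1) 1 with b | b
    · exact G10a_ext s 9 a0.symm (by rw [show s 1 = 0 by omega]; rfl)
        (by rw [show s 2 = 3 by omega]; rfl)
    · rcases Nat.lt_or_ge (s 1) 2 with b | b
      · exact G10a_ext s 8 a0.symm (by rw [show s 1 = 1 by omega]; rfl)
          (by rw [show s 2 = 2 by omega]; rfl)
      · rcases Nat.lt_or_ge (s 1) 3 with b | b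
        · exact G10a_ext s 7 a0.symm (by rw [show s 1 = 2 by omega]; rfl)
            (by rw [show s 2 = 1 by omega]; rfl)
        · exact G10a_ext s 6 a0.symm (by rw [show s 1 = 3 by omega]; rfl)
            (by rw [show s 2 = 0 by omega]; rfl)
  · rcases Nat.lt_or_ge (s 0) 2 with a' | a'
    · have a0 : s 0 = 1 := by omega
      rcases Nat.lt_or_ge (s 1) 1 with b | b
      · exact G10a_ext s 5 a0.symm (by rw [show s 1 = 0 by omega]; rfl)
          (by rw [show s 2 = 2 by omega]; rfl)
      · rcases Nat.lt_or_ge (s 1) 2 with b | b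
        · exact G10a_ext s 4 a0.symm (by rw [show s 1 = 1 by omega]; rfl)
            (by rw [show s 2 = 1 by omega]; rfl)
        · exact G10a_ext s 3 a0.symm (by rw [show s 1 = 2 by omega]; rfl)
            (by rw [show s 2 = 0 by omega]; rfl)
    · rcases Nat.lt_or_ge (s 0) 3 with a' | a'
      · have a0 : s 0 = 2 := by omega
        rcases Nat.lt_or_ge (s 1) 1 with b | b
        · exact G10a_ext s 2 a0.symm (by rw [show s 1 = 0 by omega]; rfl)
            (by rw [show s 2 = 1 by omega]; rfl)
        · exact G10a_ext s 1 a0.symm (by rw [show s 1 = 1 by omega]; rfl)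
            (by rw [show s 2 = 0 by omega]; rfl)
      · exact G10a_ext s 0 (by rw [show s 0 = 3 by omega]; rfl) (by rw [show s 1 = 0 by omega]; rfl)
          (by rw [show s 2 = 0 by omega]; rfl)

theorem G10a_sum (B : Type) [Field B] (P : MvPolynomial (Fin 3) B) (hP : P.IsHomogeneous 3) :
    P = ∑ i, MvPolynomial.monomial (G10a_exp i) (P.coeff (G10a_exp i)) := by
  classical
  ext s
  rw [MvPolynomial.coeff_sum]
  simp only [MvPolynomial.coeff_monomial]
  by_cases hs : ∃ i, G10a_exp i = s
  · obtain ⟨i, rfl⟩ := hs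
    rw [Finset.sum_eq_single i]
    · rw [if_pos rfl]
    · intro j _ hj
      rw [if_neg (fun h => hj (G10a_inj h))]
    · intro h
      exact absurd (Finset.mem_univ _) h
  · rw [Finset.sum_eq_zero]
    · by_contra hne
      apply hs
      apply G10a_exists
      have := hP hne
      rw [Finsupp.weight_apply, Finsupp.sum_fintype _ _ (by simp), Fin.sum_univ_three] at this
      simpa using this
    · intro i _
      rw [if_neg (fun h => hs ⟨i, h⟩)]

/-- The coefficients of a ternary cubic form. -/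
theorem exists_cubic_coeff (B : Type) [Field B] (P : MvPolynomial (Fin 3) B)
    (hP : P.IsHomogeneous 3) : ∃ c : Fin 10 → B,
      (∀ (A : Type) [Field A] [Algebra B A] (x y : A),
        MvPolynomial.aeval ![1, x, y] P = cuF (fun i => algebraMap B A (c i)) x y) ∧
      ∀ (A : Type) [Field A] [Algebra B A] (e : Fin 3 → A) (i : Fin 3),
        MvPolynomial.aeval e (MvPolynomial.pderiv i P) = cuG (fun i => algebraMap B A (c i)) e i := by
  refine ⟨fun i => P.coeff (G10a_exp i), ?_, ?_⟩
  · intro A _ _ x y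
    conv_lhs => rw [G10a_sum B P hP]
    rw [map_sum]
    simp only [MvPolynomial.aeval_monomial, Fin.sum_univ_succ, Fin.sum_univ_zero]
    simp only [Finsupp.prod_fintype _ _ (fun i => pow_zero _), Fin.prod_univ_three, G10a_apply]
    simp [cuF]
    ring
  · intro A _ _ e i
    have h2 : algebraMap B A 2 = 2 := map_ofNat _ 2
    have h3 : algebraMap B A 3 = 3 := map_ofNat _ 3
    conv_lhs => rw [G10a_sum B P hP]
    rw [map_sum, map_sum]
    simp only [MvPolynomial.pderiv_monomial, MvPolynomial.aeval_monomial, Fin.sum_univ_succ,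
      Fin.sum_univ_zero]
    simp only [Finsupp.prod_fintype _ _ (fun i => pow_zero _), Fin.prod_univ_three,
      Finsupp.tsub_apply, G10a_apply]
    fin_cases i
    · simp [cuG, Finsupp.single_apply, h2, h3]
      ring
    · simp [cuG, Finsupp.single_apply, h2, h3]
      ring
    · simp [cuG, Finsupp.single_apply, h2, h3]
      ring

end Pool.Agent.LibHP
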