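import Pool.Agent.LibHP2.G3

set_option autoImplicit false

namespace Pool.Agent.LibHP

/-- The partial derivatives with respect to independent elements extend to every larger field. -/
theorem exists_derivation_indep (k Λ : Type) [Field k] [CharZero k] [Field Λ] [Algebra k Λ]
    (σ : Type) (c : σ → Λ) (hc : AlgebraicIndependent k c) (w : σ) :
    ∃ D : Derivation ℤ Λ Λ, (∀ a : k, D (algebraMap k Λ a) = 0) ∧ D (c w) = 1 ∧
      ∀ w', w' ≠ w → D (c w') = 0 := by
  have h1 : Transcendental (IntermediateField.adjoin k (c '' {w}ᶜ)) (c w) :=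
    IntermediateField.transcendental_adjoin_iff.mpr (hc.transcendental_adjoin (by simp))
  have : CharZero (IntermediateField.adjoin k (c '' {w}ᶜ)) :=
    charZero_of_injective_algebraMap
      (algebraMap k (IntermediateField.adjoin k (c '' {w}ᶜ))).injective
  obtain ⟨D, hD0, hD1⟩ := G3_derivation_of_transcendental
    (IntermediateField.adjoin k (c '' {w}ᶜ)) Λ (c w) h1
  refine ⟨D, fun a => ?_, hD1, fun w' hw' => ?_⟩
  · exact hD0 (algebraMap k (IntermediateField.adjoin k (c '' {w}ᶜ)) a)
  · exact hD0 ⟨c w', IntermediateField.subset_adjoin k _ ⟨w', hw', rfl⟩⟩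

/-- The chain rule. -/
theorem derivation_aeval (k Λ τ : Type) [Field k] [Field Λ] [Algebra k Λ] [Fintype τ]
    (D : Derivation ℤ Λ Λ) (hD : ∀ a : k, D (algebraMap k Λ a) = 0) (P : τ → Λ)
    (F : MvPolynomial τ k) :
    D (MvPolynomial.aeval P F) =
      ∑ v, MvPolynomial.aeval P (MvPolynomial.pderiv v F) * D (P v) := by
  classical
  induction F using MvPolynomial.induction_on with
  | C a => simp [hD]
  | add p q hp hq =>
    simp only [map_add, hp, hq, add_mul, Finset.sum_add_distrib]
  | mul_X p w hp =>
    simp only [map_mul, MvPolynomial.aeval_X, Derivation.leibniz, smul_eq_mul, map_add, hp,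
      add_mul, Finset.sum_add_distrib]
    congr 1
    · rw [Finset.sum_eq_single w]
      · simp
      · intro u _ hu
        rw [MvPolynomial.pderiv_X_of_ne hu.symm]
        simp
      · simp
    · rw [Finset.mul_sum]
      apply Finset.sum_congr rfl
      intro u _
      ring

end Pool.Agent.LibHP
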