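import Pool.Agent.LibHP5.G9
import Pool.Agent.LibHP5.G10a
import Pool.Agent.LibHP5.S3
import Pool.Agent.LibHP2.G8a
import Pool.Agent.LibHP2.G8c

set_option autoImplicit false

namespace Pool.Agent.LibHP

theorem G10_comp (k B A : Type) [Field k] [Field B] [Field A] [Algebra k B] [Algebra B A]
    [Algebra k A] [IsScalarTower k B A] (n : ℕ) (yc : Fin (n + 1) → B) (e : Fin (2 + 1) → A)
    (F : MvPolynomial (Fin (2 + 1) ⊕ Fin (n + 1)) k) :
    MvPolynomial.aeval e (MvPolynomial.aeval (Sum.elim MvPolynomial.X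
      (fun j => MvPolynomial.C (yc j)) :
        Fin (2 + 1) ⊕ Fin (n + 1) → MvPolynomial (Fin (2 + 1)) B) F) =
      MvPolynomial.aeval (Sum.elim e (fun j => algebraMap B A (yc j))) F := by
  induction F using MvPolynomial.induction_on with
  | C a =>
    rw [MvPolynomial.aeval_C, MvPolynomial.aeval_C,
      IsScalarTower.algebraMap_apply k B (MvPolynomial (Fin (2 + 1)) B),
      MvPolynomial.algebraMap_eq, MvPolynomial.aeval_C, ← IsScalarTower.algebraMap_apply]
  | add p q hp hq => rw [map_add, map_add, map_add, hp, hq]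
  | mul_X p v hp =>
    rw [map_mul, map_mul, map_mul, hp]
    congr 1
    rcases v with v | v
    · simp
    · simp

theorem G10_pderiv (k B : Type) [Field k] [Field B] [Algebra k B] (n : ℕ) (yc : Fin (n + 1) → B)
    (F : MvPolynomial (Fin (2 + 1) ⊕ Fin (n + 1)) k) (i : Fin (2 + 1)) :
    MvPolynomial.pderiv i (MvPolynomial.aeval (Sum.elim MvPolynomial.X
      (fun j => MvPolynomial.C (yc j)) :
        Fin (2 + 1) ⊕ Fin (n + 1) → MvPolynomial (Fin (2 + 1)) B) F) =
      MvPolynomial.aeval (Sum.elim MvPolynomial.X (fun j => MvPolynomial.C (yc j)) :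
        Fin (2 + 1) ⊕ Fin (n + 1) → MvPolynomial (Fin (2 + 1)) B)
          (MvPolynomial.pderiv (Sum.inl i) F) := by
  have hmap : ∀ G : MvPolynomial (Fin (2 + 1) ⊕ Fin (n + 1)) k,
      MvPolynomial.aeval (Sum.elim MvPolynomial.X (fun j => MvPolynomial.C (yc j)) :
        Fin (2 + 1) ⊕ Fin (n + 1) → MvPolynomial (Fin (2 + 1)) B) G =
      MvPolynomial.aeval (Sum.elim MvPolynomial.X (fun j => MvPolynomial.C (yc j)) :
        Fin (2 + 1) ⊕ Fin (n + 1) → MvPolynomial (Fin (2 + 1)) B)
          (MvPolynomial.map (algebraMap k B) G) := by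
    intro G
    rw [MvPolynomial.aeval_map_algebraMap]
  rw [hmap F, hmap, G8c_chain, Fintype.sum_sum_type]
  have h1 : ∀ j : Fin (n + 1), MvPolynomial.pderiv i
      ((Sum.elim MvPolynomial.X (fun j => MvPolynomial.C (yc j)) :
        Fin (2 + 1) ⊕ Fin (n + 1) → MvPolynomial (Fin (2 + 1)) B) (Sum.inr j)) = 0 := by
    intro j
    rw [Sum.elim_inr, MvPolynomial.pderiv_C]
  rw [Finset.sum_eq_single i, Finset.sum_eq_zero, add_zero, Sum.elim_inl,
    MvPolynomial.pderiv_X_self, mul_one, MvPolynomial.pderiv_map]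
  · intro j _
    rw [h1, mul_zero]
  · intro j _ hj
    rw [Sum.elim_inl, MvPolynomial.pderiv_X_of_ne hj, mul_zero]
  · intro h
    exact absurd (Finset.mem_univ _) h

theorem G10_hom (k B : Type) [Field k] [Field B] [Algebra k B] (n d e : ℕ)
    (yc : Fin (n + 1) → B) (F : MvPolynomial (Fin (2 + 1) ⊕ Fin (n + 1)) k)
    (hF : IsBihom d e F) :
    (MvPolynomial.aeval (Sum.elim MvPolynomial.X (fun j => MvPolynomial.C (yc j)) :
        Fin (2 + 1) ⊕ Fin (n + 1) → MvPolynomial (Fin (2 + 1)) B) F).IsHomogeneous d := by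
  rw [MvPolynomial.aeval_def, MvPolynomial.eval₂_eq']
  refine MvPolynomial.IsHomogeneous.sum _ _ _ fun s hs => ?_
  rw [Fintype.prod_sum_type]
  have h1 : (∏ i : Fin (2 + 1), (Sum.elim MvPolynomial.X (fun j => MvPolynomial.C (yc j)) :
        Fin (2 + 1) ⊕ Fin (n + 1) → MvPolynomial (Fin (2 + 1)) B) (Sum.inl i) ^
          s (Sum.inl i)).IsHomogeneous (∑ i, 1 * s (Sum.inl i)) := by
    refine MvPolynomial.IsHomogeneous.prod _ _ _ fun i _ => ?_
    exact (MvPolynomial.isHomogeneous_X B i).pow _
  have h2 : (∏ j : Fin (n + 1), (Sum.elim MvPolynomial.X (fun j => MvPolynomial.C (yc j)) :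
        Fin (2 + 1) ⊕ Fin (n + 1) → MvPolynomial (Fin (2 + 1)) B) (Sum.inr j) ^
          s (Sum.inr j)).IsHomogeneous 0 := by
    have : ∀ j : Fin (n + 1), (Sum.elim MvPolynomial.X (fun j => MvPolynomial.C (yc j)) :
        Fin (2 + 1) ⊕ Fin (n + 1) → MvPolynomial (Fin (2 + 1)) B) (Sum.inr j) ^
          s (Sum.inr j) = MvPolynomial.C (yc j ^ s (Sum.inr j)) := by
      intro j
      rw [Sum.elim_inr, map_pow]
    rw [Finset.prod_congr rfl (fun j _ => this j), ← map_prod]
    exact MvPolynomial.isHomogeneous_C _ _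
  have h3 : (algebraMap k (MvPolynomial (Fin (2 + 1)) B)
      (MvPolynomial.coeff s F)).IsHomogeneous 0 := by
    rw [IsScalarTower.algebraMap_apply k B (MvPolynomial (Fin (2 + 1)) B),
      MvPolynomial.algebraMap_eq]
    exact MvPolynomial.isHomogeneous_C _ _
  have h4 := h3.mul (h1.mul h2)
  have h5 : 0 + (∑ i, 1 * s (Sum.inl i) + 0) = d := by
    simp only [one_mul, zero_add, add_zero]
    exact (hF s hs).1
  rw [h5] at h4
  exact h4

theorem G10_cons (k K : Type) [Field k] [Field K] [Algebra k K] (m n : ℕ) (x : Fin m → K)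
    (y : Fin n → K) (F : MvPolynomial (Fin (m + 1) ⊕ Fin (n + 1)) k) :
    MvPolynomial.aeval (Sum.elim (Fin.cons 1 x : Fin (m + 1) → K)
      (Fin.cons 1 y : Fin (n + 1) → K)) F =
      MvPolynomial.aeval (Sum.elim x y) (dehom F) := by
  rw [dehom, ← AlgHom.comp_apply, MvPolynomial.comp_aeval]
  congr 2
  ext v
  rcases v with v | v
  · refine Fin.cases ?_ (fun i => ?_) v
    · simp
    · simp
  · refine Fin.cases ?_ (fun i => ?_) v
    · simp
    · simp

theorem G10_smooth (k Λ : Type) [Field k] [CharZero k] [Field Λ] [Algebra k Λ] (n : ℕ)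
    (F : MvPolynomial (Fin (2 + 1) ⊕ Fin (n + 1)) k) (hF : IsBihom 3 2 F) (hsm : IsSmoothForm F)
    (e : Fin (2 + 1) → Λ) (he : e ≠ 0) (y' : Fin n → Λ) (hind : AlgebraicIndependent k y')
    (hinl : ∀ i, MvPolynomial.aeval (Sum.elim e (Fin.cons 1 y' : Fin (n + 1) → Λ))
      (MvPolynomial.pderiv (Sum.inl i) F) = 0) : False := by
  set b : Fin (n + 1) → Λ := Fin.cons 1 y' with hb
  have hb0 : b 0 = 1 := by simp [hb]
  have hbs : ∀ j : Fin n, b j.succ = y' j := by
    intro j
    simp [hb]
  have hw := (G8a_isBihom_iff F).1 hF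
  have hE : MvPolynomial.aeval (Sum.elim e b) F = 0 := by
    have h := hw.1.sum_weight_X_mul_pderiv
    rw [Fintype.sum_sum_type] at h
    have h' := congrArg (MvPolynomial.aeval (Sum.elim e b)) h
    simp only [G8a_wx, Sum.elim_inl, Sum.elim_inr, one_smul, zero_smul, Finset.sum_const_zero,
      add_zero, map_sum, map_mul, MvPolynomial.aeval_X, hinl, mul_zero, map_nsmul] at h'
    rw [nsmul_eq_mul] at h'
    have h3 : ((3 : ℕ) : Λ) ≠ 0 := by
      have : CharZero Λ := charZero_of_injective_algebraMap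
        (FaithfulSMul.algebraMap_injective k Λ)
      exact Nat.cast_ne_zero.2 (by norm_num)
    exact (mul_eq_zero.1 h'.symm).resolve_left h3
  have hsucc : ∀ j : Fin n, MvPolynomial.aeval (Sum.elim e b)
      (MvPolynomial.pderiv (Sum.inr j.succ) F) = 0 := by
    intro j
    obtain ⟨D, hD0, hD1, hD2⟩ := exists_derivation_indep k Λ (Fin n) _ hind j
    have h1 := derivation_aeval k Λ _ D hD0 (Sum.elim e b) F
    rw [hE, map_zero, Fintype.sum_sum_type, Finset.sum_eq_zero (fun i _ => by
      rw [hinl i, zero_mul]), zero_add, Fin.sum_univ_succ, Sum.elim_inr, hb0,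
      Derivation.map_one_eq_zero, mul_zero, zero_add, Finset.sum_eq_single j] at h1
    · rw [Sum.elim_inr, hbs, hD1, mul_one] at h1
      exact h1.symm
    · intro i _ hi
      rw [Sum.elim_inr, hbs, hD2 i hi, mul_zero]
    · intro h
      exact absurd (Finset.mem_univ _) h
  have hzero : MvPolynomial.aeval (Sum.elim e b)
      (MvPolynomial.pderiv (Sum.inr (0 : Fin (n + 1))) F) = 0 := by
    have h := congrArg (MvPolynomial.aeval (Sum.elim e b)) (G8a_euler F hw.2)
    rw [map_sum, map_nsmul, hE, smul_zero, Fin.sum_univ_succ] at h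
    simp only [map_mul, MvPolynomial.aeval_X, Sum.elim_inr, hb0, one_mul, hsucc, mul_zero,
      Finset.sum_const_zero, add_zero] at h
    exact h
  refine not_isSmoothForm_of_hasSing k Λ 2 n F ⟨e, b, he, ?_, ?_, ?_⟩ hsm
  · intro h
    have := congrFun h 0
    rw [hb0] at this
    exact one_ne_zero this
  · rw [MvPolynomial.eval_map]
    exact hE
  · intro v
    rw [MvPolynomial.pderiv_map, MvPolynomial.eval_map]
    rcases v with v | v
    · exact hinl v
    · revert v
      refine Fin.cases ?_ (fun j => ?_)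
      · exact hzero
      · exact hsucc j

/-- The generic fibre over `P^n` of a smooth hypersurface of bidegree `(3, 2)` is a smooth plane
cubic. -/
theorem exists_pcurve (k : Type) [Field k] [CharZero k] (n : ℕ)
    (hn : 2 ≤ n) (F : MvPolynomial (Fin (2 + 1) ⊕ Fin (n + 1)) k)
    (hF : IsBihom 3 2 F) (hsm : IsSmoothForm F) (K : Type) [Field K] [Algebra k K]
    (x : Fin 2 → K) (y : Fin n → K) (hxy : IsGenericPt F x y) :
    ∃ c : Fin 10 → IntermediateField.adjoin k (Set.range y),
      PCurve (IntermediateField.adjoin k (Set.range y)) K c (x 0) (x 1) := by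
  have hy := algebraicIndependent_y_gen k 2 n 3 (by norm_num) (by omega) (by norm_num) F hF hsm K
    x y hxy
  have htr := transcendental_x_gen k n 3 (by omega) (by norm_num) F hF hsm K x y hxy
  set B := IntermediateField.adjoin k (Set.range y) with hB
  have hmem : ∀ j, y j ∈ B := fun j => IntermediateField.subset_adjoin k _ ⟨j, rfl⟩
  set y' : Fin n → B := fun j => ⟨y j, hmem j⟩ with hy'
  have hy'K : ∀ j, algebraMap B K (y' j) = y j := fun j => rfl
  set yc : Fin (n + 1) → B := Fin.cons 1 y' with hyc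
  set P : MvPolynomial (Fin 3) B := MvPolynomial.aeval (Sum.elim MvPolynomial.X
      (fun j => MvPolynomial.C (yc j)) :
        Fin (2 + 1) ⊕ Fin (n + 1) → MvPolynomial (Fin (2 + 1)) B) F with hP
  obtain ⟨c, hc1, hc2⟩ := exists_cubic_coeff B P (G10_hom k B n 3 2 yc F hF)
  refine ⟨c, ⟨⟨htr, ?_, ?_⟩, ?_⟩⟩
  · -- the equation
    rw [← hc1 K (x 0) (x 1)]
    have h1 := G10_comp k B K n yc ![1, x 0, x 1] F
    have h2 : (Sum.elim ![1, x 0, x 1] (fun j => algebraMap B K (yc j)) :
        Fin (2 + 1) ⊕ Fin (n + 1) → K) =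
        Sum.elim (Fin.cons 1 x : Fin (2 + 1) → K) (Fin.cons 1 y : Fin (n + 1) → K) := by
      ext v
      rcases v with v | v
      · fin_cases v
        · rfl
        · rfl
        · rfl
      · refine Fin.cases ?_ (fun j => ?_) v
        · simp [hyc]
        · simp only [Sum.elim_inr, hyc, Fin.cons_succ]
          exact hy'K j
    rw [h2, G10_cons, (hxy.1 (dehom F)).2 dvd_rfl] at h1
    exact h1
  · -- smoothness
    intro e he
    by_contra hcon
    push Not at hcon
    have hind : AlgebraicIndependent k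
        (fun j => algebraMap B (AlgebraicClosure B) (y' j)) := by
      have h1 : AlgebraicIndependent k y' :=
        (AlgHom.algebraicIndependent_iff (x := y') B.val B.val.toRingHom.injective).1 hy
      exact (AlgHom.algebraicIndependent_iff (IsScalarTower.toAlgHom k B (AlgebraicClosure B))
        (IsScalarTower.toAlgHom k B (AlgebraicClosure B)).toRingHom.injective).2 h1
    have hb : (fun j => algebraMap B (AlgebraicClosure B) (yc j)) =
        (Fin.cons 1 (fun j => algebraMap B (AlgebraicClosure B) (y' j)) :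
          Fin (n + 1) → AlgebraicClosure B) := by
      ext j
      refine Fin.cases ?_ (fun j => ?_) j
      · simp [hyc]
      · simp [hyc]
    refine G10_smooth k (AlgebraicClosure B) n F hF hsm e he _ hind fun i => ?_
    have h1 := hc2 (AlgebraicClosure B) e i
    rw [hcon i, hP, G10_pderiv, G10_comp, hb] at h1
    exact h1
  · -- generation
    rw [eq_top_iff]
    intro z _
    obtain ⟨G, H, hH, hz⟩ := hxy.2 z
    have hmemG : ∀ G : MvPolynomial (Fin 2 ⊕ Fin n) k, MvPolynomial.aeval (Sum.elim x y) G ∈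
        IntermediateField.adjoin B {x 0, x 1} := by
      intro G
      induction G using MvPolynomial.induction_on with
      | C a =>
        rw [MvPolynomial.aeval_C, IsScalarTower.algebraMap_apply k B K]
        exact (IntermediateField.adjoin B {x 0, x 1}).algebraMap_mem _
      | add p q hp hq => rw [map_add]; exact add_mem hp hq
      | mul_X p v hp =>
        rw [map_mul, MvPolynomial.aeval_X]
        refine mul_mem hp ?_
        rcases v with v | v
        · refine IntermediateField.subset_adjoin B _ ?_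
          fin_cases v
          · exact Or.inl rfl
          · exact Or.inr rfl
        · rw [Sum.elim_inr, ← hy'K v]
          exact (IntermediateField.adjoin B {x 0, x 1}).algebraMap_mem _
    have h1 : z = MvPolynomial.aeval (Sum.elim x y) G / MvPolynomial.aeval (Sum.elim x y) H := by
      rw [eq_div_iff hH]
      exact hz
    rw [h1]
    exact div_mem (hmemG G) (hmemG H)

end Pool.Agent.LibHP
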