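import Pool.Agent.LibHP2.G8a

set_option autoImplicit false

namespace Pool.Agent.LibHP

theorem rename_gramH_gen {k : Type} [Field k] {m n D : ℕ}
    (F : MvPolynomial (Fin (m + 1) ⊕ Fin (n + 1)) k) (hF : IsBihom D 2 F) (i j : Fin (n + 1)) :
    MvPolynomial.rename Sum.inl (gramH F i j) =
      MvPolynomial.pderiv (Sum.inr i) (MvPolynomial.pderiv (Sum.inr j) F) := by
  have hb : IsBihom D 2 F := hF
  rw [G8a_isBihom_iff] at hb
  refine G8a_rename_aeval _ ?_
  exact (hb.2.pderiv (i := Sum.inr j) (n' := 1) (by simp [G8a_wy])).pderiv (by simp [G8a_wy])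

theorem two_mul_eq_gram_gen {k : Type} [Field k] [CharZero k] {m n D : ℕ}
    (F : MvPolynomial (Fin (m + 1) ⊕ Fin (n + 1)) k) (hF : IsBihom D 2 F) :
    2 * F = ∑ i, ∑ j, MvPolynomial.rename Sum.inl (gramH F i j) *
      (MvPolynomial.X (Sum.inr i) * MvPolynomial.X (Sum.inr j)) := by
  have hb : IsBihom D 2 F := hF
  rw [G8a_isBihom_iff] at hb
  have h1 := G8a_euler F hb.2
  have h2 : ∀ j : Fin (n + 1),
      ∑ i, MvPolynomial.X (Sum.inr i) * MvPolynomial.pderiv (Sum.inr i)
        (MvPolynomial.pderiv (Sum.inr j) F) = MvPolynomial.pderiv (Sum.inr j) F := by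
    intro j
    have := G8a_euler (e := 1) (MvPolynomial.pderiv (Sum.inr j) F)
      (hb.2.pderiv (i := Sum.inr j) (n' := 1) (by simp [G8a_wy]))
    simpa using this
  have h3 : 2 * F = 2 • F := by simp
  rw [h3, ← h1, Finset.sum_comm]
  refine Finset.sum_congr rfl fun j _ => ?_
  rw [← h2 j, Finset.mul_sum]
  refine Finset.sum_congr rfl fun i _ => ?_
  rw [rename_gramH_gen F hF]
  ring

theorem gramH_isHomogeneous_gen {k : Type} [Field k] {m n D : ℕ}
    (F : MvPolynomial (Fin (m + 1) ⊕ Fin (n + 1)) k) (hF : IsBihom D 2 F) (i j : Fin (n + 1)) :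
    (gramH F i j).IsHomogeneous D := by
  have hb : IsBihom D 2 F := hF
  rw [G8a_isBihom_iff] at hb
  rw [← MvPolynomial.IsHomogeneous.rename_isHomogeneous_iff
    (Sum.inl_injective (α := Fin (m + 1)) (β := Fin (n + 1))), rename_gramH_gen F hF]
  have hx := (hb.1.pderiv (i := Sum.inr j) (n' := D) (by simp [G8a_wx])).pderiv
    (i := Sum.inr i) (n' := D) (by simp [G8a_wx])
  have hy := (hb.2.pderiv (i := Sum.inr j) (n' := 1) (by simp [G8a_wy])).pderiv
    (i := Sum.inr i) (n' := 0) (by simp [G8a_wy])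
  intro s hs
  have h1 := hx hs
  have h2 := hy hs
  rw [G8a_weight_wx] at h1
  rw [G8a_weight_wy] at h2
  rw [Finsupp.weight_apply, Finsupp.sum_fintype _ _ (by intro i; simp), Fintype.sum_sum_type]
  simp [h1, h2]

end Pool.Agent.LibHP
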