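import Pool.Agent.LibHP2.G8b
import Pool.Agent.LibHP5.G1

set_option autoImplicit false

namespace Pool.Agent.LibHP

/-- Values of the partly dehomogenised form in a commutative algebra. -/
theorem G4_two_mul {k : Type} [Field k] [CharZero k] {m n D : ℕ}
    (F : MvPolynomial (Fin (m + 1) ⊕ Fin (n + 1)) k) (hF : IsBihom D 2 F)
    {S : Type} [CommRing S] [Algebra k S] (a : Fin m → S) (b : Fin (n + 1) → S) :
    2 * MvPolynomial.aeval (Sum.elim (Fin.cons 1 a : Fin (m + 1) → S) b) F =
      ∑ i, ∑ j, MvPolynomial.aeval a (gramY F i j) * (b i * b j) := by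
  have h := congrArg (MvPolynomial.aeval (Sum.elim (Fin.cons 1 a : Fin (m + 1) → S) b))
    (two_mul_eq_gram_gen F hF)
  rw [map_mul, map_ofNat] at h
  rw [h, map_sum]
  refine Finset.sum_congr rfl fun i _ => ?_
  rw [map_sum]
  refine Finset.sum_congr rfl fun j _ => ?_
  rw [map_mul, map_mul, MvPolynomial.aeval_X, MvPolynomial.aeval_X, MvPolynomial.aeval_rename,
    Sum.elim_inr, Sum.elim_inr]
  congr 1
  rw [gramY, ← AlgHom.comp_apply, MvPolynomial.comp_aeval]
  have he : (fun i => (MvPolynomial.aeval a)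
      ((Fin.cons 1 fun i => MvPolynomial.X i : Fin (m + 1) → MvPolynomial (Fin m) k) i)) =
      (Fin.cons 1 a : Fin (m + 1) → S) := by
    funext i
    refine Fin.cases ?_ (fun i => ?_) i
    · simp
    · simp
  rw [he]
  rfl

/-- The form vanishes at all infinitesimal deformations of the singular point with `x_0 = 1`. -/
theorem G4_vanish {k : Type} [Field k] [CharZero k] {m n D : ℕ}
    (F : MvPolynomial (Fin (m + 1) ⊕ Fin (n + 1)) k) (hF : IsBihom D 2 F)
    (π β : MvPolynomial (Fin m) k) (lam : Fin (n + 1) → MvPolynomial (Fin m) k)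
    (g : Fin (n + 1) → Fin (n + 1) → MvPolynomial (Fin m) k)
    (hid : ∀ j l, β * gramY F j l = lam j * lam l + π * g j l)
    {Λ : Type} [Field Λ] [CharZero Λ] [Algebra k Λ] (a : Fin m → Λ) (b : Fin (n + 1) → Λ)
    (hπ : MvPolynomial.aeval a π = 0) (hβ : MvPolynomial.aeval a β ≠ 0)
    (hl : ∑ j, MvPolynomial.aeval a (lam j) * b j = 0)
    (hg : ∑ j, ∑ l, MvPolynomial.aeval a (g j l) * (b j * b l) = 0)
    (a' : Fin m → DualNumber Λ) (b' : Fin (n + 1) → DualNumber Λ)
    (ha' : ∀ i, (a' i).fst = a i) (hb' : ∀ i, (b' i).fst = b i) :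
    MvPolynomial.aeval (Sum.elim (Fin.cons 1 a' : Fin (m + 1) → DualNumber Λ) b') F = 0 := by
  apply G8b_cancel (MvPolynomial.aeval a' β * 2)
  · rw [TrivSqZeroExt.fst_mul, G8b_fst a a' ha']
    refine mul_ne_zero hβ ?_
    have : (2 : DualNumber Λ).fst = (2 : Λ) := rfl
    rw [this]
    exact two_ne_zero
  · rw [mul_assoc, G4_two_mul F hF, Finset.mul_sum]
    have h1 : ∀ i, MvPolynomial.aeval a' β *
        ∑ j, MvPolynomial.aeval a' (gramY F i j) * (b' i * b' j) =
        ∑ j, ((MvPolynomial.aeval a' (lam i) * b' i) * (MvPolynomial.aeval a' (lam j) * b' j) +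
          MvPolynomial.aeval a' π * (MvPolynomial.aeval a' (g i j) * (b' i * b' j))) := by
      intro i
      rw [Finset.mul_sum]
      refine Finset.sum_congr rfl fun j _ => ?_
      have h2 := congrArg (MvPolynomial.aeval a') (hid i j)
      rw [map_mul, map_add, map_mul, map_mul] at h2
      rw [← mul_assoc, h2]
      ring
    rw [Finset.sum_congr rfl fun i _ => h1 i]
    have h3 : ∑ i, ∑ j, ((MvPolynomial.aeval a' (lam i) * b' i) *
          (MvPolynomial.aeval a' (lam j) * b' j) +
          MvPolynomial.aeval a' π * (MvPolynomial.aeval a' (g i j) * (b' i * b' j))) =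
        (∑ i, MvPolynomial.aeval a' (lam i) * b' i) * (∑ i, MvPolynomial.aeval a' (lam i) * b' i) +
        MvPolynomial.aeval a' π * ∑ i, ∑ j, MvPolynomial.aeval a' (g i j) * (b' i * b' j) := by
      rw [Finset.sum_mul_sum, Finset.mul_sum, ← Finset.sum_add_distrib]
      refine Finset.sum_congr rfl fun i _ => ?_
      rw [Finset.mul_sum, ← Finset.sum_add_distrib]
    rw [h3]
    have h4 : (∑ i, MvPolynomial.aeval a' (lam i) * b' i).fst = 0 := by
      rw [← hl, TrivSqZeroExt.fst_sum]
      refine Finset.sum_congr rfl fun i _ => ?_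
      rw [TrivSqZeroExt.fst_mul, G8b_fst a a' ha', hb']
    have h5 : (∑ i, ∑ j, MvPolynomial.aeval a' (g i j) * (b' i * b' j)).fst = 0 := by
      rw [← hg, TrivSqZeroExt.fst_sum]
      refine Finset.sum_congr rfl fun i _ => ?_
      rw [TrivSqZeroExt.fst_sum]
      refine Finset.sum_congr rfl fun j _ => ?_
      rw [TrivSqZeroExt.fst_mul, TrivSqZeroExt.fst_mul, G8b_fst a a' ha', hb', hb']
    rw [G8b_mul_eq_zero _ _ h4 h4, G8b_mul_eq_zero _ _ (by rw [G8b_fst a a' ha', hπ]) h5,
      add_zero]

/-- The main step. -/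
theorem G4_core (k : Type) [Field k] [CharZero k] (m n D : ℕ) (hn : 2 ≤ n)
    (F : MvPolynomial (Fin (m + 1) ⊕ Fin (n + 1)) k) (hF : IsBihom D 2 F)
    (π : MvPolynomial (Fin m) k) (hπ : Irreducible π) (β : MvPolynomial (Fin m) k)
    (hβ : ¬ π ∣ β) (lam : Fin (n + 1) → MvPolynomial (Fin m) k)
    (g : Fin (n + 1) → Fin (n + 1) → MvPolynomial (Fin m) k)
    (hid : ∀ j l, β * gramY F j l = lam j * lam l + π * g j l) :
    ¬ IsSmoothForm F := by
  classical
  have : CharZero (AlgebraicClosure k) := charZero_of_injective_algebraMap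
    (FaithfulSMul.algebraMap_injective k (AlgebraicClosure k))
  -- the point `a`
  have hprime : (Ideal.span {π}).IsPrime := by
    rw [Ideal.span_singleton_prime hπ.ne_zero]
    exact hπ.prime
  obtain ⟨a, haπ, haβ⟩ : ∃ a : Fin m → AlgebraicClosure k,
      MvPolynomial.aeval a π = 0 ∧ MvPolynomial.aeval a β ≠ 0 := by
    by_contra hno
    push Not at hno
    apply hβ
    rw [← Ideal.mem_span_singleton,
      ← MvPolynomial.IsPrime.vanishingIdeal_zeroLocus (K := AlgebraicClosure k)
        (Ideal.span {π})]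
    intro x hx
    exact hno x (hx π (Ideal.mem_span_singleton_self π))
  -- the point `b`
  obtain ⟨b, hb0, hbl, hbg⟩ := G8b_exists (AlgebraicClosure k) n hn
    (fun j => MvPolynomial.aeval a (lam j)) (fun j l => MvPolynomial.aeval a (g j l))
  have hvan := G4_vanish F hF π β lam g hid a b haπ haβ hbl hbg
  set c : Fin (m + 1) ⊕ Fin (n + 1) → AlgebraicClosure k :=
    Sum.elim (Fin.cons 1 a : Fin (m + 1) → AlgebraicClosure k) b with hc
  -- the form vanishes
  have hF0 : MvPolynomial.aeval c F = 0 := by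
    have h := hvan (fun i => TrivSqZeroExt.inl (a i)) (fun i => TrivSqZeroExt.inl (b i))
      (fun i => rfl) (fun i => rfl)
    have h' := G8b_fst c (Sum.elim (Fin.cons 1 (fun i => TrivSqZeroExt.inl (a i)) :
      Fin (m + 1) → DualNumber (AlgebraicClosure k)) (fun i => TrivSqZeroExt.inl (b i)))
      (by
        rintro (s | s)
        · refine Fin.cases ?_ (fun i => ?_) s <;> simp [hc]
        · simp [hc]) F
    rw [← h', h, TrivSqZeroExt.fst_zero]
  have hd1 : ∀ i : Fin m, MvPolynomial.aeval c (MvPolynomial.pderiv (Sum.inl i.succ) F) = 0 := by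
    intro i
    have h := hvan (fun t => TrivSqZeroExt.inl (a t) + if t = i then DualNumber.eps else 0)
      (fun t => TrivSqZeroExt.inl (b t))
      (fun t => by by_cases ht : t = i <;> simp [ht]) (fun t => rfl)
    rw [← G8b_snd c (Sum.inl i.succ) _ _ _ F, h, TrivSqZeroExt.snd_zero]
    · rintro (s | s)
      · refine Fin.cases ?_ (fun t => ?_) s
        · simp [hc]
        · by_cases ht : t = i <;> simp [hc, ht]
      · simp [hc]
    · rintro (s | s)
      · refine Fin.cases ?_ (fun t => ?_) s
        · simp [(Fin.succ_ne_zero i).symm]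
        · by_cases ht : t = i <;> simp [ht]
      · simp
  have hd2 : ∀ i : Fin (n + 1), MvPolynomial.aeval c (MvPolynomial.pderiv (Sum.inr i) F) = 0 := by
    intro i
    have h := hvan (fun t => TrivSqZeroExt.inl (a t))
      (fun t => TrivSqZeroExt.inl (b t) + if t = i then DualNumber.eps else 0)
      (fun t => rfl) (fun t => by by_cases ht : t = i <;> simp [ht])
    rw [← G8b_snd c (Sum.inr i) _ _ _ F, h, TrivSqZeroExt.snd_zero]
    · rintro (s | s)
      · refine Fin.cases ?_ (fun t => ?_) s <;> simp [hc]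
      · by_cases ht : s = i <;> simp [hc, ht]
    · rintro (s | s)
      · refine Fin.cases ?_ (fun t => ?_) s
        · simp
        · simp
      · by_cases ht : s = i <;> simp [ht]
  have hd0 : MvPolynomial.aeval c (MvPolynomial.pderiv (Sum.inl 0) F) = 0 := by
    have hw : F.IsWeightedHomogeneous
        (Sum.elim (fun _ => 1) (fun _ => 0) : Fin (m + 1) ⊕ Fin (n + 1) → ℕ) D := by
      intro d hd
      have h := (hF d (MvPolynomial.mem_support_iff.2 hd)).1
      rw [← h, Finsupp.weight_apply, Finsupp.sum_fintype _ _ (by simp), Fintype.sum_sum_type]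
      simp
    have he := congrArg (MvPolynomial.aeval c) hw.sum_weight_X_mul_pderiv
    rw [map_sum, map_nsmul, hF0, smul_zero, Fintype.sum_sum_type, Fin.sum_univ_succ] at he
    simp only [Sum.elim_inl, Sum.elim_inr, one_smul, zero_smul, map_mul, MvPolynomial.aeval_X,
      map_zero, Finset.sum_const_zero, add_zero, hd1, mul_zero] at he
    simpa [hc] using he
  intro hs
  obtain ⟨v, hv⟩ := hs (Fin.cons 1 a) b (fun h => one_ne_zero (congrFun h 0)) hb0 hF0
  apply hv
  rcases v with v | v
  · exact Fin.cases hd0 hd1 v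
  · exact hd2 v

/-- If the quadratic form in `y` has rank at most one along a divisor of the `x` space then `F` is
not smooth. -/
theorem not_smooth_of_minors_gen (k : Type) [Field k] [CharZero k] (m n D : ℕ) (hn : 2 ≤ n)
    (F : MvPolynomial (Fin (m + 1) ⊕ Fin (n + 1)) k) (hF : IsBihom D 2 F)
    (π : MvPolynomial (Fin m) k) (hπ : Irreducible π)
    (hmin : ∀ i j i' j', π ∣ gramY F i j * gramY F i' j' - gramY F i j' * gramY F i' j) :
    ¬ IsSmoothForm F := by
  have hsymm : ∀ i j, gramY F i j = gramY F j i := fun i j => by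
    rw [gramY, gramY, gramH_symm]
  by_cases hcase : ∃ i, ¬ π ∣ gramY F i i
  · obtain ⟨i, hi⟩ := hcase
    choose g hg using fun j l => hmin i i j l
    refine G4_core k m n D hn F hF π hπ (gramY F i i) hi (fun j => gramY F i j) g ?_
    intro j l
    rw [← hg, hsymm j i]
    ring
  · push Not at hcase
    have hall : ∀ i j, π ∣ gramY F i j := by
      intro i j
      have h1 := hmin i i j j
      have h2 : π ∣ gramY F i j * gramY F i j := by
        have h3 : gramY F i j * gramY F i j = gramY F i i * gramY F j j -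
            (gramY F i i * gramY F j j - gramY F i j * gramY F j i) := by
          rw [hsymm j i]; ring
        rw [h3]
        exact dvd_sub ((hcase i).mul_right _) h1
      exact (hπ.prime.dvd_or_dvd h2).elim id id
    choose g hg using hall
    refine G4_core k m n D hn F hF π hπ 1 (fun hd => hπ.prime.not_isUnit (isUnit_of_dvd_one hd))
      (fun _ => 0) g ?_
    intro j l
    rw [← hg]
    ring

end Pool.Agent.LibHP
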