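import Pool.Agent.LibHP2.G6b

set_option autoImplicit false

namespace Pool.Agent.LibHP

open MvPolynomial

theorem G3_lin_gen {Λ : Type} [Field Λ] {m n e : ℕ}
    {P : MvPolynomial (Fin (m + 1) ⊕ Fin (n + 1)) Λ} (hP : IsBihom e 1 P)
    (a : Fin (m + 1) → Λ) (b₁ b₂ : Fin (n + 1) → Λ) (s t : Λ) :
    eval (Sum.elim a (fun i => s * b₁ i + t * b₂ i)) P =
      s * eval (Sum.elim a b₁) P + t * eval (Sum.elim a b₂) P := by
  rw [eval_eq', eval_eq', eval_eq', Finset.mul_sum, Finset.mul_sum, ← Finset.sum_add_distrib]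
  apply Finset.sum_congr rfl
  intro u hu
  obtain ⟨-, h1⟩ := hP u hu
  have hex : ∃ i₀ : Fin (n + 1), u (Sum.inr i₀) ≠ 0 := by
    by_contra hcon
    push Not at hcon
    rw [Finset.sum_eq_zero (fun i _ => hcon i)] at h1
    omega
  obtain ⟨i₀, hi₀⟩ := hex
  have hsplit := Finset.add_sum_erase Finset.univ (fun i : Fin (n + 1) => u (Sum.inr i))
    (Finset.mem_univ i₀)
  have h10 : u (Sum.inr i₀) = 1 := by omega
  have hrest : ∑ i ∈ Finset.univ.erase i₀, u (Sum.inr i) = 0 := by omega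
  rw [Finset.sum_eq_zero_iff] at hrest
  have hprod : ∀ v : Fin (n + 1) → Λ, ∏ i, v i ^ u (Sum.inr i) = v i₀ := by
    intro v
    rw [← Finset.mul_prod_erase Finset.univ (fun i => v i ^ u (Sum.inr i)) (Finset.mem_univ i₀)]
    simp only [h10, pow_one]
    rw [Finset.prod_eq_one, mul_one]
    intro i hi
    rw [hrest i hi, pow_zero]
  simp only [Fintype.prod_sum_type, Sum.elim_inl, Sum.elim_inr, hprod]
  ring

/-- The case of bidegrees `(d1,0)`, `(0,1)`, `(D-d1,2)`, `(D,1)`. -/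
theorem G3_case1_gen {Λ : Type} [Field Λ] [IsAlgClosed Λ] {m n D d1 : ℕ} (hm : 2 ≤ m) (hn : 2 ≤ n)
    (hD : 1 ≤ D) (h11 : 1 ≤ d1)
    {w1 w2 P Q : MvPolynomial (Fin (m + 1) ⊕ Fin (n + 1)) Λ}
    (hw1 : IsBihom d1 0 w1) (hw2 : IsBihom 0 1 w2) (hP : IsBihom (D - d1) 2 P)
    (hQ : IsBihom D 1 Q) :
    ∃ (a : Fin (m + 1) → Λ) (b : Fin (n + 1) → Λ), a ≠ 0 ∧ b ≠ 0 ∧
      eval (Sum.elim a b) w1 = 0 ∧ eval (Sum.elim a b) w2 = 0 ∧
      eval (Sum.elim a b) P = 0 ∧ eval (Sum.elim a b) Q = 0 := by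
  classical
  obtain ⟨b₁, hb₁, hwb₁, -⟩ := G6b_yzero hn le_rfl le_rfl hw2 hw2 (0 : Fin (m + 1) → Λ)
  have hi₀ : ∃ i₀, b₁ i₀ ≠ 0 := by
    by_contra hcon
    push Not at hcon
    exact hb₁ (funext hcon)
  obtain ⟨i₀, hi₀⟩ := hi₀
  have hXi : IsBihom 0 1 (X (Sum.inr i₀) : MvPolynomial (Fin (m + 1) ⊕ Fin (n + 1)) Λ) := by
    intro s hs
    rw [mem_support_iff, coeff_X] at hs
    have hs' : Finsupp.single (Sum.inr i₀) 1 = s := by
      by_contra hcon
      rw [if_neg hcon] at hs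
      exact hs rfl
    subst hs'
    constructor
    · apply Finset.sum_eq_zero
      intro j _
      simp
    · rw [Finset.sum_eq_single i₀] <;> simp [Finsupp.single_apply]
      intro b hb hb2
      exact hb hb2.symm
  obtain ⟨b₂, hb₂, hwb₂, hXb₂⟩ := G6b_yzero hn le_rfl le_rfl hw2 hXi (0 : Fin (m + 1) → Λ)
  simp only [eval_X, Sum.elim_inr] at hXb₂
  -- independence
  have hind : ∀ s t : Λ, (s, t) ≠ (0, 0) → (fun i => s * b₁ i + t * b₂ i) ≠ 0 := by
    intro s t hst h0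
    have h1 := congrFun h0 i₀
    simp only [hXb₂, mul_zero, add_zero, Pi.zero_apply] at h1
    have hs : s = 0 := by
      rcases mul_eq_zero.mp h1 with h | h
      · exact h
      · exact absurd h hi₀
    have ht : t = 0 := by
      by_contra ht
      apply hb₂
      funext i
      have h2 := congrFun h0 i
      simp only [hs, zero_mul, zero_add, Pi.zero_apply] at h2
      rcases mul_eq_zero.mp h2 with h | h
      · exact absurd h ht
      · exact h
    exact hst (by rw [hs, ht])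
  have hw2lin : ∀ (s t : Λ) (a : Fin (m + 1) → Λ),
      eval (Sum.elim a (fun i => s * b₁ i + t * b₂ i)) w2 = 0 := by
    intro s t a
    rw [G3_lin_gen hw2, G6b_indep_left hw2 a 0 b₁, G6b_indep_left hw2 a 0 b₂, hwb₁, hwb₂]
    ring
  have hX : ∀ i : Fin (m + 1), (X i : MvPolynomial (Fin (m + 1)) Λ).IsHomogeneous 1 :=
    fun i => isHomogeneous_X _ _
  -- the two forms
  set q0 : MvPolynomial (Fin (m + 1)) Λ := aeval (Sum.elim X (fun i => C (b₁ i))) Q with hq0
  set q1 : MvPolynomial (Fin (m + 1)) Λ := aeval (Sum.elim X (fun i => C (b₂ i))) Q with hq1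
  have hq0h : q0.IsHomogeneous D := by
    have := G6b_subst_hom hQ (X : Fin (m + 1) → MvPolynomial (Fin (m + 1)) Λ) (fun i => C (b₁ i))
      hX (fun i => isHomogeneous_C _ _)
    rw [mul_zero, add_zero, mul_one] at this
    exact this
  have hq1h : q1.IsHomogeneous D := by
    have := G6b_subst_hom hQ (X : Fin (m + 1) → MvPolynomial (Fin (m + 1)) Λ) (fun i => C (b₂ i))
      hX (fun i => isHomogeneous_C _ _)
    rw [mul_zero, add_zero, mul_one] at this
    exact this
  have hq0e : ∀ a, eval a q0 = eval (Sum.elim a b₁) Q := by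
    intro a
    rw [hq0, G6b_eval_subst]
    simp
  have hq1e : ∀ a, eval a q1 = eval (Sum.elim a b₂) Q := by
    intro a
    rw [hq1, G6b_eval_subst]
    simp
  set B : Fin (n + 1) → MvPolynomial (Fin (m + 1)) Λ := fun i => -q1 * C (b₁ i) + q0 * C (b₂ i)
    with hB
  have hBh : ∀ i, (B i).IsHomogeneous D := by
    intro i
    rw [hB]
    apply IsHomogeneous.add
    · have := hq1h.neg.mul (isHomogeneous_C (Fin (m + 1)) (b₁ i))
      simpa using this
    · have := hq0h.mul (isHomogeneous_C (Fin (m + 1)) (b₂ i))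
      simpa using this
  have hRh := G6b_subst_hom hP X B hX hBh
  have hWh := G6b_subst_hom hw1 X (fun _ => (0 : MvPolynomial (Fin (m + 1)) Λ)) hX
    (fun i => isHomogeneous_zero _ _ 0)
  obtain ⟨a, ha, hz⟩ := G6b_common_zero Λ m
    {aeval (Sum.elim X B) P, aeval (Sum.elim X (fun _ => 0)) w1}
    (Finset.card_le_two.trans hm) (by
      intro f hf
      simp only [Finset.mem_insert, Finset.mem_singleton] at hf
      rcases hf with rfl | rfl
      · exact ⟨_, by omega, hRh⟩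
      · exact ⟨_, by omega, hWh⟩)
  have hz1 := hz _ (Finset.mem_insert_self _ _)
  have hz2 := hz (aeval (Sum.elim X (fun _ => 0)) w1) (by simp)
  rw [G6b_eval_subst] at hz1 hz2
  simp only [eval_X, map_zero] at hz1 hz2
  have hw1a : ∀ b, eval (Sum.elim a b) w1 = 0 := by
    intro b
    rw [G6b_indep_right hw1 a b (fun _ => 0)]
    exact hz2
  by_cases hdeg : (-(eval a q1), eval a q0) = ((0 : Λ), (0 : Λ))
  · -- `Q` vanishes on the pencil
    simp only [Prod.mk.injEq, neg_eq_zero] at hdeg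
    obtain ⟨st, hst, hzq⟩ := G6b_common_zero Λ 1
      {aeval (Sum.elim (fun j => C (a j)) (fun i => X 0 * C (b₁ i) + X 1 * C (b₂ i))) P}
      (by simp) (by
        intro f hf
        simp only [Finset.mem_singleton] at hf
        subst hf
        refine ⟨(D - d1) * 0 + 2 * 1, by norm_num, G6b_subst_hom hP _ _
          (fun j => isHomogeneous_C _ _) ?_⟩
        intro i
        apply IsHomogeneous.add
        · have := (isHomogeneous_X Λ (0 : Fin 2)).mul (isHomogeneous_C (Fin 2) (b₁ i))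
          simpa using this
        · have := (isHomogeneous_X Λ (1 : Fin 2)).mul (isHomogeneous_C (Fin 2) (b₂ i))
          simpa using this)
    have hq := hzq _ (Finset.mem_singleton_self _)
    rw [G6b_eval_subst] at hq
    simp only [map_add, map_mul, eval_X, eval_C] at hq
    refine ⟨a, fun i => st 0 * b₁ i + st 1 * b₂ i, ha, hind _ _ ?_, hw1a _, hw2lin _ _ _, hq, ?_⟩
    · intro h
      simp only [Prod.mk.injEq] at h
      apply hst
      funext i
      fin_cases i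
      · exact h.1
      · exact h.2
    · rw [G3_lin_gen hQ, ← hq0e, ← hq1e, hdeg.1, hdeg.2]
      ring
  · refine ⟨a, fun i => -(eval a q1) * b₁ i + (eval a q0) * b₂ i, ha, hind _ _ hdeg,
      hw1a _, hw2lin _ _ _, ?_, ?_⟩
    · simp only [hB, map_add, map_mul, map_neg, eval_C] at hz1
      exact hz1
    · rw [G3_lin_gen hQ, ← hq0e, ← hq1e]
      ring

/-- General version of `exists_sing_of_decomp`. -/
theorem exists_sing_of_decomp_gen (Λ : Type) [Field Λ] [CharZero Λ] [IsAlgClosed Λ] (m n D : ℕ)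
    (hm : 2 ≤ m) (hn : 2 ≤ n) (hD : 1 ≤ D) (d1 d2 : ℕ) (h11 : 1 ≤ d1) (h12 : d1 ≤ D)
    (h21 : 1 ≤ d2) (h22 : d2 ≤ 2) (F w1 w2 P Q : MvPolynomial (Fin (m + 1) ⊕ Fin (n + 1)) Λ)
    (hw1 : IsBihom d1 0 w1) (hw2 : IsBihom 0 d2 w2) (hP : IsBihom (D - d1) 2 P)
    (hQ : IsBihom D (2 - d2) Q) (hF : F = w1 * P + w2 * Q) : HasSing F := by
  have key : ∃ (a : Fin (m + 1) → Λ) (b : Fin (n + 1) → Λ), a ≠ 0 ∧ b ≠ 0 ∧
      eval (Sum.elim a b) w1 = 0 ∧ eval (Sum.elim a b) w2 = 0 ∧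
      eval (Sum.elim a b) P = 0 ∧ eval (Sum.elim a b) Q = 0 := by
    by_cases hd2 : d2 = 2
    · subst hd2
      obtain ⟨a, ha, ha1, ha2⟩ := G6b_xzero hm h11 hD hw1 hQ
        (0 : Fin (n + 1) → Λ)
      obtain ⟨b, hb, hb1, hb2⟩ := G6b_yzero hn (by norm_num) (by norm_num) hw2 hP a
      refine ⟨a, b, ha, hb, ?_, hb1, hb2, ?_⟩
      · rw [G6b_indep_right hw1 a b 0, ha1]
      · rw [G6b_indep_right hQ a b 0, ha2]
    · have hd2' : d2 = 1 := by omega
      subst hd2'
      exact G3_case1_gen hm hn hD h11 hw1 hw2 hP hQ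
  obtain ⟨a, b, ha, hb, e1, e2, e3, e4⟩ := key
  refine ⟨a, b, ha, hb, ?_, ?_⟩
  · rw [hF, map_add, map_mul, map_mul, e1, e2]
    ring
  · intro v
    rw [hF, map_add, Derivation.leibniz, Derivation.leibniz]
    simp only [smul_eq_mul, map_add, map_mul, e1, e2, e3, e4]
    ring

end Pool.Agent.LibHP
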