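import Pool.Agent.LibHP2.G10a
import Pool.Agent.LibHP5.G2
import Pool.Agent.LibHP5.G3

set_option autoImplicit false

namespace Pool.Agent.LibHP

theorem G6gen_spec {k κ : Type} [Field k] [CharZero k] [Field κ] [Algebra k κ] {m n D : ℕ}
    (F : MvPolynomial (Fin (m + 1) ⊕ Fin (n + 1)) k) (hF : IsBihom D 2 F) (ξ : Fin m → κ) :
    2 * specX ξ (dehom F) = quadEq (fun i j : Fin (n + 1) =>
      MvPolynomial.aeval (Fin.cons 1 ξ : Fin (m + 1) → κ) (gramH F i j)) := by
  have h := congrArg (fun G => specX ξ (dehom G)) (two_mul_eq_gram_gen F hF)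
  simp only [dehom, map_mul, map_sum, map_ofNat, MvPolynomial.aeval_rename, MvPolynomial.aeval_X,
    Sum.elim_inr, Sum.elim_comp_inl] at h
  rw [dehom, h, quadEq]
  refine Finset.sum_congr rfl fun i _ => Finset.sum_congr rfl fun j _ => ?_
  rw [g10a_specX_inl, g10a_specX_inr, g10a_specX_inr]

/-- General version of `no_bivertical`. -/
theorem no_bivertical_gen (k : Type) [Field k] [CharZero k] (m n D : ℕ) (hm : 2 ≤ m) (hn : 2 ≤ n)
    (hD : 1 ≤ D) (F : MvPolynomial (Fin (m + 1) ⊕ Fin (n + 1)) k) (hF : IsBihom D 2 F)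
    (hsm : IsSmoothForm F) (π : MvPolynomial (Fin m) k) (hπ : Irreducible π)
    (κ : Type) [Field κ] [Algebra k κ] (ξ : Fin m → κ)
    (hξ : ∀ p : MvPolynomial (Fin m) k, MvPolynomial.aeval ξ p = 0 ↔ π ∣ p)
    (hξgen : ∀ a : κ, ∃ p q : MvPolynomial (Fin m) k, MvPolynomial.aeval ξ q ≠ 0 ∧
      a * MvPolynomial.aeval ξ q = MvPolynomial.aeval ξ p)
    (h : MvPolynomial (Fin n) κ) (hirr : Irreducible h) (h0 : specX ξ (dehom F) ≠ 0)
    (h1 : h ∣ specX ξ (dehom F)) (ω : MvPolynomial (Fin n) k) (hω : ω ≠ 0)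
    (h2 : h ∣ MvPolynomial.map (algebraMap k κ) ω) : False := by
  classical
  haveI : CharZero κ := charZero_of_injective_algebraMap (algebraMap k κ).injective
  have hspec := G6gen_spec F hF ξ
  set ξ' : Fin (m + 1) → κ := Fin.cons 1 ξ with hξ'
  set B : Matrix (Fin (n + 1)) (Fin (n + 1)) κ :=
    fun i j : Fin (n + 1) => MvPolynomial.aeval ξ' (gramH F i j) with hBdef
  have hBs : B.IsSymm := by
    apply Matrix.IsSymm.ext
    intro i j
    rw [hBdef]
    simp only
    rw [gramH_symm F j i]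
  have hB0 : quadEq B ≠ 0 := by
    rw [← hspec]
    exact mul_ne_zero two_ne_zero h0
  have hhB : h ∣ quadEq B := by
    rw [← hspec]
    exact h1.mul_left 2
  have hcases := matrix_of_common_factor k κ n B hBs hB0 h hirr hhB ω hω h2
  -- independence
  obtain ⟨j, hj⟩ := g10a_exists_var π hπ
  have htb := isTranscendenceBasis_of_generic k κ π ξ hξ
    (fun a => by
      obtain ⟨p, q, hq, ha⟩ := hξgen a
      exact ⟨p, q, hq, ha⟩) j hj
  have hind : AlgebraicIndependent (algebraicClosure k κ) (fun i : {i : Fin m // i ≠ j} => ξ i) :=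
    htb.1.extendScalars (algebraicClosure k κ)
  have hpred : ∀ i : {i : Fin (m + 1) // i ≠ 0 ∧ i ≠ j.succ}, i.1.pred i.2.1 ≠ j := by
    intro i hi
    exact i.2.2 ((Fin.succ_pred i.1 i.2.1).symm.trans (congrArg Fin.succ hi))
  have hind' : AlgebraicIndependent (algebraicClosure k κ)
      (fun i : {i : Fin (m + 1) // i ≠ 0 ∧ i ≠ j.succ} => ξ' i) := by
    have h3 := hind.comp (fun i : {i : Fin (m + 1) // i ≠ 0 ∧ i ≠ j.succ} =>
      (⟨i.1.pred i.2.1, hpred i⟩ : {i : Fin m // i ≠ j})) (by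
        intro a b hab
        have h4 : a.1.pred a.2.1 = b.1.pred b.2.1 := congrArg Subtype.val hab
        exact Subtype.ext (Fin.pred_inj.mp h4))
    convert h3 using 1
    funext i
    simp only [Function.comp]
    rw [hξ']
    conv_lhs => rw [← Fin.succ_pred i.1 i.2.1]
    rw [Fin.cons_succ]
  obtain ⟨d, w, hd, hw0, hw, hdvd⟩ := exists_homog_gen (algebraicClosure k κ) κ m ξ'
    (by rw [hξ', Fin.cons_zero]) j.succ (Fin.succ_ne_zero j) hind'
  obtain ⟨d1, d2, w1, w2, P, Q, h11, h12, h21, h22, hw1, hw2, hP, hQ, hdec⟩ :=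
    exists_decomp_gen k (algebraicClosure k κ) κ m n D hD F hF ξ' d hd w hw0 hw
      (fun ψ hψ hψ0 => hdvd D ψ hψ hψ0) B
      (fun i j => by
        rw [MvPolynomial.aeval_map_algebraMap]) hcases
  -- pass to the algebraic closure
  have hsing := exists_sing_of_decomp_gen (AlgebraicClosure (algebraicClosure k κ)) m n D hm hn hD d1 d2 h11 h12
    h21 h22 (MvPolynomial.map (algebraMap (algebraicClosure k κ) (AlgebraicClosure (algebraicClosure k κ)))
      (MvPolynomial.map (algebraMap k (algebraicClosure k κ)) F))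
    _ _ _ _
    (g10a_isBihom_map (algebraMap (algebraicClosure k κ) (AlgebraicClosure (algebraicClosure k κ))) hw1)
    (g10a_isBihom_map (algebraMap (algebraicClosure k κ) (AlgebraicClosure (algebraicClosure k κ))) hw2)
    (g10a_isBihom_map (algebraMap (algebraicClosure k κ) (AlgebraicClosure (algebraicClosure k κ))) hP)
    (g10a_isBihom_map (algebraMap (algebraicClosure k κ) (AlgebraicClosure (algebraicClosure k κ))) hQ)
    (by rw [hdec, map_add, map_mul, map_mul])
  refine not_isSmoothForm_of_hasSing k (AlgebraicClosure (algebraicClosure k κ)) m n F ?_ hsm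
  rw [MvPolynomial.map_map, ← IsScalarTower.algebraMap_eq] at hsing
  exact hsing

end Pool.Agent.LibHP
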