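import Pool.Agent.LibHP2.G10b
import Pool.Agent.LibHP5.G4
import Pool.Agent.LibHP5.G6

set_option autoImplicit false

namespace Pool.Agent.LibHP

/-- The fibre of the form over `ξ` is the quadric with matrix `gramY F` at `ξ`. -/
theorem G7gen_quadEq {k κ : Type} [Field k] [CharZero k] [Field κ] [Algebra k κ] {m n D : ℕ}
    (F : MvPolynomial (Fin (m + 1) ⊕ Fin (n + 1)) k) (hF : IsBihom D 2 F) (ξ : Fin m → κ) :
    quadEq (fun i j => MvPolynomial.aeval ξ (gramY F i j)) = 2 * specX ξ (dehom F) := by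
  have h2 : (2 : MvPolynomial (Fin n) κ) * specX ξ (dehom F) = specX ξ (dehom (2 * F)) := by
    simp only [dehom, map_mul, map_ofNat]
  rw [h2, two_mul_eq_gram_gen F hF]
  simp only [dehom, map_sum, map_mul, quadEq, MvPolynomial.aeval_X, Sum.elim_inr]
  refine Finset.sum_congr rfl (fun i _ => Finset.sum_congr rfl (fun j _ => ?_))
  congr 1
  · -- the coefficient
    rw [MvPolynomial.aeval_rename]
    have e1 : ((Sum.elim
      (Fin.cons 1 fun i => MvPolynomial.X (Sum.inl i) :
        Fin (m + 1) → MvPolynomial (Fin m ⊕ Fin n) k)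
      (Fin.cons 1 fun j => MvPolynomial.X (Sum.inr j) :
        Fin (n + 1) → MvPolynomial (Fin m ⊕ Fin n) k)) ∘ Sum.inl) =
      (Fin.cons 1 fun i => MvPolynomial.X (Sum.inl i) :
        Fin (m + 1) → MvPolynomial (Fin m ⊕ Fin n) k) := by
      funext i
      rfl
    rw [e1, gramY]
    have e2 : MvPolynomial.aeval ξ (MvPolynomial.aeval
        (Fin.cons 1 fun i => MvPolynomial.X i : Fin (m + 1) → MvPolynomial (Fin m) k)
        (gramH F i j)) = MvPolynomial.aeval (Fin.cons 1 ξ : Fin (m + 1) → κ) (gramH F i j) := by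
      rw [← AlgHom.comp_apply]
      congr 1
      apply MvPolynomial.algHom_ext
      intro a
      refine Fin.cases ?_ (fun a => ?_) a
      · simp
      · simp
    rw [e2]
    have e3 : (MvPolynomial.C (MvPolynomial.aeval (Fin.cons 1 ξ : Fin (m + 1) → κ) (gramH F i j)) :
        MvPolynomial (Fin n) κ) =
        ((Algebra.ofId κ (MvPolynomial (Fin n) κ)).restrictScalars k).comp
          (MvPolynomial.aeval (Fin.cons 1 ξ : Fin (m + 1) → κ)) (gramH F i j) := rfl
    rw [e3, ← AlgHom.comp_apply]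
    congr 1
    apply MvPolynomial.algHom_ext
    intro a
    refine Fin.cases ?_ (fun a => ?_) a
    · simp
    · simp only [AlgHom.comp_apply, MvPolynomial.aeval_X, Fin.cons_succ, specX, Sum.elim_inl]
      rfl
  · congr 1
    · refine Fin.cases ?_ (fun a => ?_) i
      · simp
      · simp [specX]
    · refine Fin.cases ?_ (fun a => ?_) j
      · simp
      · simp [specX]

/-- General version of `exists_good_valuation`. -/
theorem exists_good_valuation_gen (k : Type) [Field k] [CharZero k] (m n D : ℕ) (hm : 2 ≤ m)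
    (hn : 2 ≤ n) (hD : 1 ≤ D)
    (F : MvPolynomial (Fin (m + 1) ⊕ Fin (n + 1)) k) (hF : IsBihom D 2 F)
    (hsm : IsSmoothForm F) (K : Type) [Field K] [Algebra k K] (x : Fin m → K) (y : Fin n → K)
    (hxy : IsGenericPt F x y) (π : MvPolynomial (Fin m) k) (hπ : Irreducible π) :
    ∃ O : ValuationSubring K, IsUnif O (MvPolynomial.aeval x π) ∧
      (∀ p : MvPolynomial (Fin m) k, MvPolynomial.aeval x p ∈ O) ∧
      (∀ p : MvPolynomial (Fin m) k, O.valuation (MvPolynomial.aeval x p) < 1 ↔ π ∣ p) ∧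
      (∀ ω : MvPolynomial (Fin n) k, ω ≠ 0 → O.valuation (MvPolynomial.aeval y ω) = 1) := by
  classical
  have hprime : (Ideal.span {π} : Ideal (MvPolynomial (Fin m) k)).IsPrime := by
    rw [Ideal.span_singleton_prime hπ.ne_zero]
    exact hπ.prime
  let R := MvPolynomial (Fin m) k ⧸ (Ideal.span {π} : Ideal (MvPolynomial (Fin m) k))
  have : IsDomain R := Ideal.Quotient.isDomain _
  let κ := FractionRing R
  let ξ : Fin m → κ := fun i => algebraMap R κ (Ideal.Quotient.mk _ (MvPolynomial.X i))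
  have : CharZero κ := charZero_of_injective_algebraMap (algebraMap k κ).injective
  have hξe : ∀ p : MvPolynomial (Fin m) k, MvPolynomial.aeval ξ p =
      algebraMap R κ (Ideal.Quotient.mk _ p) := by
    intro p
    have : MvPolynomial.aeval ξ = (IsScalarTower.toAlgHom k R κ).comp
        (Ideal.Quotient.mkₐ k (Ideal.span {π} : Ideal (MvPolynomial (Fin m) k))) := by
      apply MvPolynomial.algHom_ext
      intro i
      rw [MvPolynomial.aeval_X]
      rfl
    rw [this]
    rfl
  have hξ : ∀ p : MvPolynomial (Fin m) k, MvPolynomial.aeval ξ p = 0 ↔ π ∣ p := by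
    intro p
    rw [hξe, map_eq_zero_iff _ (IsFractionRing.injective R κ), Ideal.Quotient.eq_zero_iff_mem,
      Ideal.mem_span_singleton]
  have hξgen : ∀ a : κ, ∃ p q : MvPolynomial (Fin m) k, MvPolynomial.aeval ξ q ≠ 0 ∧
      a * MvPolynomial.aeval ξ q = MvPolynomial.aeval ξ p := by
    intro a
    obtain ⟨p, q, hq, h⟩ := IsFractionRing.div_surjective (A := R) a
    obtain ⟨p', rfl⟩ := Ideal.Quotient.mk_surjective p
    obtain ⟨q', rfl⟩ := Ideal.Quotient.mk_surjective q
    have hq0 : algebraMap R κ (Ideal.Quotient.mk _ q') ≠ 0 := by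
      rw [Ne, map_eq_zero_iff _ (IsFractionRing.injective R κ)]
      exact nonZeroDivisors.ne_zero hq
    refine ⟨p', q', ?_, ?_⟩
    · rw [hξe]
      exact hq0
    · rw [hξe, hξe, ← h, div_mul_cancel₀ _ hq0]
  let B : Matrix (Fin (n + 1)) (Fin (n + 1)) κ := fun i j => MvPolynomial.aeval ξ (gramY F i j)
  have hBs : B.IsSymm := by
    apply Matrix.IsSymm.ext
    intro i j
    simp only [B, gramY]
    rw [gramH_symm F i j]
  have hBmin : ∃ i j i' j', B i j * B i' j' - B i j' * B i' j ≠ 0 := by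
    by_contra hcon
    push Not at hcon
    refine not_smooth_of_minors_gen k m n D hn F hF π hπ (fun i j i' j' => ?_) hsm
    rw [← hξ, map_sub, map_mul, map_mul]
    exact hcon i j i' j'
  have hBq : quadEq B = 2 * specX ξ (dehom F) := G7gen_quadEq F hF ξ
  have h2u : IsUnit (2 : MvPolynomial (Fin n) κ) := by
    have : (2 : MvPolynomial (Fin n) κ) = MvPolynomial.C 2 :=
      (map_ofNat (MvPolynomial.C : κ →+* MvPolynomial (Fin n) κ) 2).symm
    rw [this]
    exact (IsUnit.mk0 (2 : κ) two_ne_zero).map MvPolynomial.C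
  obtain ⟨h, hirr, hd1, hd2⟩ := exists_simple_factor κ n B hBs hBmin
  rw [hBq] at hd1 hd2
  have h1 : h ∣ specX ξ (dehom F) := (h2u.dvd_mul_left).1 hd1
  have h2 : ¬ h ^ 2 ∣ specX ξ (dehom F) := fun hd => hd2 ((h2u.dvd_mul_left).2 hd)
  have h0 : specX ξ (dehom F) ≠ (0 : MvPolynomial (Fin n) κ) := by
    intro h0
    rw [h0] at h2
    exact h2 (dvd_zero _)
  obtain ⟨O, hO1, hO2, hO3⟩ := exists_valuation k m n K (Sum.elim x y) (dehom F) hxy.1 hxy.2 π hπ κ
    ξ hξ hξgen h hirr h1 h2
  have hinl : ∀ p : MvPolynomial (Fin m) k, MvPolynomial.aeval x p =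
      MvPolynomial.aeval (Sum.elim x y) (MvPolynomial.rename Sum.inl p) := by
    intro p
    rw [MvPolynomial.aeval_rename]
    rfl
  have hinr : ∀ p : MvPolynomial (Fin n) k, MvPolynomial.aeval y p =
      MvPolynomial.aeval (Sum.elim x y) (MvPolynomial.rename Sum.inr p) := by
    intro p
    rw [MvPolynomial.aeval_rename]
    rfl
  refine ⟨O, hO1, ?_, ?_, ?_⟩
  · intro p
    rw [hinl]
    exact hO2 _
  · intro p
    rw [hinl, hO3, G10b_specX_inl, ← hξ]
    constructor
    · intro hd
      by_contra hne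
      exact hirr.not_isUnit (isUnit_of_dvd_unit hd ((IsUnit.mk0 _ hne).map MvPolynomial.C))
    · intro h0
      rw [h0, map_zero]
      exact dvd_zero _
  · intro ω hω
    have hle : O.valuation (MvPolynomial.aeval y ω) ≤ 1 := by
      rw [hinr]
      exact (O.valuation_le_one_iff _).2 (hO2 _)
    have hnlt : ¬ O.valuation (MvPolynomial.aeval y ω) < 1 := by
      rw [hinr, hO3, G10b_specX_inr]
      intro hd
      exact no_bivertical_gen k m n D hm hn hD F hF hsm π hπ κ ξ hξ hξgen h hirr h0 h1 ω hω hd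
    exact le_antisymm hle (not_lt.1 hnlt)

end Pool.Agent.LibHP
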