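import Pool.Agent.LibHP2.G11
import Pool.Agent.LibHP5.G5

set_option autoImplicit false

namespace Pool.Agent.LibHP

theorem G8gen_spec_dehom {k A : Type} [Field k] [CharZero k] [CommRing A] [Algebra k A] {m n D : ℕ}
    (F : MvPolynomial (Fin (m + 1) ⊕ Fin (n + 1)) k) (hF : IsBihom D 2 F) (ξ : Fin m → A) :
    2 * G11_spec (n := n) ξ (dehom F) =
      ∑ i, ∑ j, MvPolynomial.C (MvPolynomial.aeval ξ (gramY F i j)) *
        ((Fin.cons 1 fun i => MvPolynomial.X i : Fin (n + 1) → MvPolynomial (Fin n) A) i *
          (Fin.cons 1 fun i => MvPolynomial.X i : Fin (n + 1) → MvPolynomial (Fin n) A) j) := by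
  -- the substitution `x = (1, ξ)`, `y = (1, y)` directly
  let Φ : MvPolynomial (Fin (m + 1) ⊕ Fin (n + 1)) k →ₐ[k] MvPolynomial (Fin n) A :=
    MvPolynomial.aeval (Sum.elim
      (Fin.cons 1 fun i => MvPolynomial.C (ξ i) : Fin (m + 1) → MvPolynomial (Fin n) A)
      (Fin.cons 1 fun j => MvPolynomial.X j : Fin (n + 1) → MvPolynomial (Fin n) A))
  have h1 : G11_spec (n := n) ξ (dehom F) = Φ F := by
    have : (G11_spec (n := n) ξ).comp (MvPolynomial.aeval (Sum.elim
        (Fin.cons 1 fun i => MvPolynomial.X (Sum.inl i) :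
          Fin (m + 1) → MvPolynomial (Fin m ⊕ Fin n) k)
        (Fin.cons 1 fun j => MvPolynomial.X (Sum.inr j) :
          Fin (n + 1) → MvPolynomial (Fin m ⊕ Fin n) k))) = Φ := by
      apply MvPolynomial.algHom_ext
      rintro (i | j)
      · refine Fin.cases ?_ (fun i => ?_) i
        · simp [Φ, G11_spec]
        · simp [Φ, G11_spec]
      · refine Fin.cases ?_ (fun j => ?_) j
        · simp [Φ, G11_spec]
        · simp [Φ, G11_spec]
    rw [← this]
    rfl
  have h2 : ∀ g : MvPolynomial (Fin (m + 1)) k,
      Φ (MvPolynomial.rename Sum.inl g) = MvPolynomial.C (MvPolynomial.aeval ξ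
        (MvPolynomial.aeval (Fin.cons 1 fun i => MvPolynomial.X i :
          Fin (m + 1) → MvPolynomial (Fin m) k) g)) := by
    intro g
    have : (Φ.comp (MvPolynomial.rename Sum.inl)) =
        ((Algebra.ofId A (MvPolynomial (Fin n) A)).restrictScalars k).comp
          ((MvPolynomial.aeval ξ).comp (MvPolynomial.aeval (Fin.cons 1 fun i => MvPolynomial.X i :
          Fin (m + 1) → MvPolynomial (Fin m) k))) := by
      apply MvPolynomial.algHom_ext
      intro i
      refine Fin.cases ?_ (fun i => ?_) i
      · simp [Φ]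
      · simp [Φ, Algebra.ofId_apply, MvPolynomial.algebraMap_eq]
    exact DFunLike.congr_fun this g
  rw [h1, show (2 : MvPolynomial (Fin n) A) * Φ F = Φ (2 * F) by rw [map_mul, map_ofNat],
    two_mul_eq_gram_gen F hF, map_sum]
  refine Finset.sum_congr rfl fun i _ => ?_
  rw [map_sum]
  refine Finset.sum_congr rfl fun j _ => ?_
  rw [map_mul, h2, map_mul]
  simp [Φ, gramY]

/-- General version of `algebraicIndependent_of_isGenericPt`. -/
theorem algebraicIndependent_of_isGenericPt_gen (k : Type) [Field k] [CharZero k] (m n D : ℕ)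
    (hn : 1 ≤ n) (hD : 1 ≤ D) (F : MvPolynomial (Fin (m + 1) ⊕ Fin (n + 1)) k)
    (hF : IsBihom D 2 F) (hsm : IsSmoothForm F) (K : Type) [Field K] [Algebra k K]
    (x : Fin m → K) (y : Fin n → K) (hxy : IsGenericPt F x y) : AlgebraicIndependent k x := by
  classical
  have hchar : CharZero (MvPolynomial (Fin m) k) :=
    charZero_of_injective_algebraMap (R := k) (MvPolynomial.C_injective (Fin m) k)
  have key : ∀ p : MvPolynomial (Fin m) k, MvPolynomial.aeval x p = 0 → p = 0 := by
    intro p hp
    by_contra hp0
    have h1 : MvPolynomial.aeval (Sum.elim x y) (MvPolynomial.rename Sum.inl p) = 0 := by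
      rw [MvPolynomial.aeval_rename]
      simpa using hp
    obtain ⟨Q, hQ⟩ := (hxy.1 _).1 h1
    let ψ := G11_spec (k := k) (A := MvPolynomial (Fin m) k) (m := m) (n := n) MvPolynomial.X
    have h2 : ψ (MvPolynomial.rename Sum.inl p) = MvPolynomial.C p := by
      have : ψ.comp (MvPolynomial.rename Sum.inl) =
          (Algebra.ofId (MvPolynomial (Fin m) k)
            (MvPolynomial (Fin n) (MvPolynomial (Fin m) k))).restrictScalars k := by
        apply MvPolynomial.algHom_ext
        intro i
        simp [ψ, G11_spec, Algebra.ofId_apply, MvPolynomial.algebraMap_eq]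
      exact DFunLike.congr_fun this p
    have h3 : MvPolynomial.C p = ψ (dehom F) * ψ Q := by
      rw [← h2, hQ, map_mul]
    have hCp : (MvPolynomial.C p : MvPolynomial (Fin n) (MvPolynomial (Fin m) k)) ≠ 0 := by
      rwa [Ne, MvPolynomial.C_eq_zero]
    have hne1 : ψ (dehom F) ≠ 0 := fun h0 => hCp (by rw [h3, h0, zero_mul])
    have hne2 : ψ Q ≠ 0 := fun h0 => hCp (by rw [h3, h0, mul_zero])
    have hdeg := congrArg MvPolynomial.totalDegree h3
    rw [MvPolynomial.totalDegree_mul_of_isDomain hne1 hne2, MvPolynomial.totalDegree_C] at hdeg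
    have hd0 : (ψ (dehom F)).totalDegree = 0 := by omega
    obtain ⟨f, hf⟩ : ∃ f, ψ (dehom F) = MvPolynomial.C f :=
      ⟨_, MvPolynomial.totalDegree_eq_zero_iff_eq_C.1 hd0⟩
    apply gramY_det_ne_zero_gen k m n D hD F hF hsm
    apply G11_det hn (gramY F) (fun i j => by rw [gramY, gramY, gramH_symm]) (2 * f)
    intro v
    have h4 := G8gen_spec_dehom (A := MvPolynomial (Fin m) k) F hF MvPolynomial.X
    change 2 * ψ (dehom F) = _ at h4
    rw [hf] at h4
    have h5 := congrArg (MvPolynomial.eval v) h4
    simp only [map_mul, MvPolynomial.eval_C, map_ofNat, map_sum, MvPolynomial.aeval_X_left,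
      AlgHom.id_apply] at h5
    rw [h5]
    refine Finset.sum_congr rfl fun i _ => Finset.sum_congr rfl fun j _ => ?_
    have h6 : ∀ i : Fin (n + 1), MvPolynomial.eval v
        ((Fin.cons 1 fun i => MvPolynomial.X i :
          Fin (n + 1) → MvPolynomial (Fin n) (MvPolynomial (Fin m) k)) i) =
        (Fin.cons 1 v : Fin (n + 1) → MvPolynomial (Fin m) k) i := by
      intro i
      refine Fin.cases ?_ (fun i => ?_) i
      · simp
      · simp
    rw [h6, h6]
  rw [AlgebraicIndependent, injective_iff_map_eq_zero]
  exact key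

/-- General version of `exists_quad_structure`. -/
theorem exists_quad_structure_gen (k : Type) [Field k] [CharZero k] (m n D : ℕ) (hn : 1 ≤ n)
    (hD : 1 ≤ D) (F : MvPolynomial (Fin (m + 1) ⊕ Fin (n + 1)) k) (hF : IsBihom D 2 F)
    (hsm : IsSmoothForm F) (K : Type) [Field K] [Algebra k K] (x : Fin m → K) (y : Fin n → K)
    (hxy : IsGenericPt F x y) :
    ∃ B : Matrix (Fin (n + 1)) (Fin (n + 1)) (IntermediateField.adjoin k (Set.range x)),
      B.IsSymm ∧ B.det ≠ 0 ∧ IsGenericQuad B y := by
  classical
  have hind := algebraicIndependent_of_isGenericPt_gen k m n D hn hD F hF hsm K x y hxy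
  let x' : Fin m → IntermediateField.adjoin k (Set.range x) := fun i =>
    ⟨x i, IntermediateField.subset_adjoin k _ ⟨i, rfl⟩⟩
  have hx' : ∀ p : MvPolynomial (Fin m) k,
      ((MvPolynomial.aeval x' p : IntermediateField.adjoin k (Set.range x)) : K) =
        MvPolynomial.aeval x p := by
    intro p
    have : (IntermediateField.val (IntermediateField.adjoin k (Set.range x))).comp
        (MvPolynomial.aeval x') = MvPolynomial.aeval x := by
      apply MvPolynomial.algHom_ext
      intro i
      simp [x']
    exact DFunLike.congr_fun this p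
  have hinj : Function.Injective (MvPolynomial.aeval (R := k) x') := by
    intro p q hpq
    apply hind
    rw [← hx', ← hx', hpq]
  let ι : MvPolynomial (Fin m) k →+* IntermediateField.adjoin k (Set.range x) :=
    (MvPolynomial.aeval (R := k) x').toRingHom
  have hCZ : CharZero (IntermediateField.adjoin k (Set.range x)) :=
    charZero_of_injective_algebraMap (R := k) (algebraMap k _).injective
  let Φ := G11_spec (k := k) (m := m) (n := n) x'
  have hΦ : ∀ G : MvPolynomial (Fin m ⊕ Fin n) k,
      MvPolynomial.aeval y (Φ G) = MvPolynomial.aeval (Sum.elim x y) G := by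
    intro G
    have : ((MvPolynomial.aeval (R := IntermediateField.adjoin k (Set.range x)) y).restrictScalars
        k).comp Φ = MvPolynomial.aeval (Sum.elim x y) := by
      apply MvPolynomial.algHom_ext
      rintro (i | j)
      · simp [Φ, G11_spec, x']
      · simp [Φ, G11_spec]
    exact DFunLike.congr_fun this G
  refine ⟨(gramY F).map ι, ?_, ?_, ?_, ?_⟩
  · ext i j
    simp only [Matrix.transpose_apply, Matrix.map_apply]
    rw [gramY, gramY, gramH_symm]
  · have : ((gramY F).map ι).det = ι (gramY F).det := by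
      rw [RingHom.map_det]; rfl
    rw [this]
    intro h0
    apply gramY_det_ne_zero_gen k m n D hD F hF hsm
    apply hinj
    rw [map_zero]
    exact h0
  · have hq : quadEq ((gramY F).map ι) = 2 * Φ (dehom F) := by
      rw [G8gen_spec_dehom F hF x', quadEq]
      rfl
    have h2u : IsUnit (2 : MvPolynomial (Fin n) (IntermediateField.adjoin k (Set.range x))) := by
      have : (2 : MvPolynomial (Fin n) (IntermediateField.adjoin k (Set.range x))) =
          MvPolynomial.C 2 := by rw [map_ofNat]
      rw [this]
      exact (IsUnit.mk0 (2 : IntermediateField.adjoin k (Set.range x)) (by norm_num)).map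
        MvPolynomial.C
    intro G
    rw [hq, h2u.mul_left_dvd]
    constructor
    · intro hG
      -- clear denominators
      have hden : ∀ G : MvPolynomial (Fin n) (IntermediateField.adjoin k (Set.range x)),
          ∃ (d : IntermediateField.adjoin k (Set.range x)) (G' : MvPolynomial (Fin m ⊕ Fin n) k),
            d ≠ 0 ∧ (∃ d' : MvPolynomial (Fin m) k, MvPolynomial.aeval x' d' = d) ∧
            Φ G' = MvPolynomial.C d * G := by
        intro G
        have hΦl : ∀ p : MvPolynomial (Fin m) k, Φ (MvPolynomial.rename Sum.inl p) =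
            MvPolynomial.C (MvPolynomial.aeval x' p) := by
          intro p
          have : Φ.comp (MvPolynomial.rename Sum.inl) =
              ((Algebra.ofId (IntermediateField.adjoin k (Set.range x))
                (MvPolynomial (Fin n) (IntermediateField.adjoin k (Set.range x)))).restrictScalars
                k).comp (MvPolynomial.aeval x') := by
            apply MvPolynomial.algHom_ext
            intro i
            simp [Φ, G11_spec, Algebra.ofId_apply, MvPolynomial.algebraMap_eq]
          exact DFunLike.congr_fun this p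
        induction G using MvPolynomial.induction_on with
        | C a =>
          obtain ⟨r, s, hrs⟩ := (IntermediateField.mem_adjoin_range_iff k x (a : K)).1 a.2
          by_cases hs : MvPolynomial.aeval x s = 0
          · have ha : a = 0 := by
              apply Subtype.ext
              rw [hrs, hs, div_zero]; rfl
            exact ⟨1, 0, one_ne_zero, ⟨1, map_one _⟩, by simp [ha]⟩
          · refine ⟨MvPolynomial.aeval x' s, MvPolynomial.rename Sum.inl r, ?_, ⟨s, rfl⟩, ?_⟩
            · intro h0
              apply hs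
              rw [← hx', h0]; rfl
            · rw [hΦl, ← map_mul]
              congr 1
              apply Subtype.ext
              rw [hx' r, MulMemClass.coe_mul, hx' s, hrs]
              field_simp
        | add p q hp hq =>
          obtain ⟨d, G', hd, ⟨d', hd'⟩, hG'⟩ := hp
          obtain ⟨e, H', he, ⟨e', he'⟩, hH'⟩ := hq
          refine ⟨d * e, MvPolynomial.rename Sum.inl e' * G' + MvPolynomial.rename Sum.inl d' * H',
            mul_ne_zero hd he, ⟨d' * e', by rw [map_mul, hd', he']⟩, ?_⟩
          rw [map_add, map_mul, map_mul, hΦl, hΦl, hG', hH', hd', he', map_mul]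
          ring
        | mul_X p i hp =>
          obtain ⟨d, G', hd, hd', hG'⟩ := hp
          refine ⟨d, G' * MvPolynomial.X (Sum.inr i), hd, hd', ?_⟩
          rw [map_mul, hG', mul_assoc]
          simp [Φ, G11_spec]
      obtain ⟨d, G', hd, -, hG'⟩ := hden G
      have h0 : MvPolynomial.aeval (Sum.elim x y) G' = 0 := by
        rw [← hΦ, hG', map_mul, hG, mul_zero]
      obtain ⟨Q, hQ⟩ := (hxy.1 _).1 h0
      have h1 : MvPolynomial.C d * G = Φ (dehom F) * Φ Q := by
        rw [← hG', hQ, map_mul]
      refine ⟨MvPolynomial.C d⁻¹ * Φ Q, ?_⟩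
      calc G = MvPolynomial.C d⁻¹ * (MvPolynomial.C d * G) := by
            rw [← mul_assoc, ← map_mul, inv_mul_cancel₀ hd, map_one, one_mul]
        _ = Φ (dehom F) * (MvPolynomial.C d⁻¹ * Φ Q) := by rw [h1]; ring
    · rintro ⟨Q, rfl⟩
      rw [map_mul, hΦ, (hxy.1 _).2 dvd_rfl, zero_mul]
  · intro z
    obtain ⟨G, H, hH, hz⟩ := hxy.2 z
    exact ⟨Φ G, Φ H, by rwa [hΦ], by rw [hΦ, hΦ, hz]⟩

end Pool.Agent.LibHP
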