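import Pool.Agent.LibHP2.Z2c
import Pool.Agent.LibHP2.Z2a
import Pool.Agent.LibHP2.C3
import Pool.Agent.LibHP3.G0
import Pool.Agent.LibHP4.Defs
import Pool.Agent.LibHP5.G7
import Pool.Agent.LibHP5.G8

set_option autoImplicit false

namespace Pool.Agent.LibHP

theorem hasPlaces_gen (k : Type) [Field k] [CharZero k] (n D : ℕ)
    (hn : 2 ≤ n) (hD : 1 ≤ D) (F : MvPolynomial (Fin (2 + 1) ⊕ Fin (n + 1)) k)
    (hF : IsBihom D 2 F) (hsm : IsSmoothForm F) (K : Type) [Field K] [Algebra k K]
    (x : Fin 2 → K) (y : Fin n → K) (hxy : IsGenericPt F x y) :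
    HasPlaces k (IntermediateField.adjoin k (Set.range y)) K (x 0) (x 1) := by
  intro π hπ
  have hx : ![x 0, x 1] = x := by
    ext i
    fin_cases i <;> rfl
  obtain ⟨O, h1, h2, h3, h4⟩ := exists_good_valuation_gen k 2 n D le_rfl hn hD F hF hsm K x y hxy
    π hπ
  refine ⟨O, fun b => Z2c_val_le y O h4 b, ?_, ?_, ?_, ?_⟩
  · have := h2 (MvPolynomial.X 0)
    rwa [MvPolynomial.aeval_X] at this
  · have := h2 (MvPolynomial.X 1)
    rwa [MvPolynomial.aeval_X] at this
  · rw [hx]
    exact h1
  · intro p hp
    rw [hx] at hp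
    exact (h3 p).1 hp

/-- The base field is algebraically closed in a purely transcendental extension. -/
theorem G11g_const (k K ι : Type) [Field k] [Field K] [Algebra k K] [DecidableEq ι] (x : ι → K)
    (hx : AlgebraicIndependent k x) (s : Finset ι) : ∀ c ∈ IntermediateField.adjoin k (x '' s),
      IsAlgebraic k c → ∃ b : k, algebraMap k K b = c := by
  induction s using Finset.induction_on with
  | empty =>
    intro c hc _
    rw [Finset.coe_empty, Set.image_empty, IntermediateField.adjoin_empty,
      IntermediateField.mem_bot] at hc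
    exact hc
  | insert i s hi ih =>
    intro c hc halg
    have htr : Transcendental (IntermediateField.adjoin k (x '' s)) (x i) := by
      rw [IntermediateField.transcendental_adjoin_iff]
      have h1 : AlgebraicIndepOn k x (insert i (s : Set ι)) :=
        hx.comp _ Subtype.coe_injective
      exact ((AlgebraicIndepOn.insert_iff (by exact_mod_cast hi)).1 h1).2
    have hc2 : c ∈ IntermediateField.adjoin (IntermediateField.adjoin k (x '' s)) {x i} := by
      rw [← IntermediateField.mem_restrictScalars (K := k),
        IntermediateField.adjoin_adjoin_left]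
      rw [Finset.coe_insert, Set.image_insert_eq, Set.insert_eq, Set.union_comm] at hc
      exact hc
    obtain ⟨b, hb⟩ := G0_mem _ K (x i) htr c hc2 (halg.tower_top _)
    refine ih c ?_ halg
    rw [← hb]
    exact b.2

/-- The base field is algebraically closed in the function field. -/
theorem algClosed_base_gen (k : Type) [Field k] [CharZero k] (m n D : ℕ) (hm : 1 ≤ m)
    (hn : 2 ≤ n) (hD : 1 ≤ D) (F : MvPolynomial (Fin (m + 1) ⊕ Fin (n + 1)) k)
    (hF : IsBihom D 2 F) (hsm : IsSmoothForm F) (K : Type) [Field K] [Algebra k K]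
    (x : Fin m → K) (y : Fin n → K) (hxy : IsGenericPt F x y) (c : K) (hc : IsAlgebraic k c) :
    ∃ b : k, algebraMap k K b = c := by
  have hx := algebraicIndependent_of_isGenericPt_gen k m n D (by omega) hD F hF hsm K x y hxy
  obtain ⟨B, hB, hdet, hy⟩ := exists_quad_structure_gen k m n D (by omega) hD F hF hsm K x y hxy
  have hchar : CharZero (IntermediateField.adjoin k (Set.range x)) :=
    charZero_of_injective_algebraMap
      (algebraMap k (IntermediateField.adjoin k (Set.range x))).injective
  obtain ⟨a, ha⟩ := quad_algClosed _ K n hn B hB hdet y hy c (hc.tower_top _)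
  refine G11g_const k K (Fin m) x hx Finset.univ c ?_ hc
  rw [Finset.coe_univ, Set.image_univ, ← ha]
  exact a.2

end Pool.Agent.LibHP
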