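import Pool.Agent.LibHP4.A9
import Pool.Agent.LibHP4.B4
import Pool.Agent.LibHP3.G1
import Pool.Agent.LibHP5.G10
import Pool.Agent.LibHP5.G11

set_option autoImplicit false

namespace Pool.Agent.LibHP

/-- Bidegree `(3, 2)`: every extension `L` of the function field with the lifting property and of
minimal degree is generated over `K` by elements algebraic over the base field. -/
theorem gen_three (k κ K L : Type) [Field k] [CharZero k] [Field κ] [Algebra k κ] [Field K]
    [Algebra k K] [Algebra κ K] [IsScalarTower k κ K] [Field L] [Algebra K L]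
    [FiniteDimensional K L] (n : ℕ) (hn : 2 ≤ n)
    (F : MvPolynomial (Fin (2 + 1) ⊕ Fin (n + 1)) κ) (hF : IsBihom 3 2 F) (hsm : IsSmoothForm F)
    (x : Fin 2 → K) (y : Fin n → K) (hxy : IsGenericPt F x y) (N : ℕ) (j : L →+* RF k N)
    (hj : ∀ e : RF k N, (∃ P : Polynomial L, P ≠ 0 ∧ P.eval₂ j e = 0) → ∃ l, j l = e)
    (hjk : ∀ c : k, j (algebraMap K L (algebraMap k K c)) = algebraMap k (RF k N) c)
    (hmin : ∀ (n' : ℕ) (F' : K →ₐ[k] RF k n'), Module.finrank K L ≤ dF F'.toRingHom) :
    Subfield.closure (Set.range (algebraMap K L) ∪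
      {z : L | AlgVia ((algebraMap K L).comp (algebraMap κ K)) z}) = ⊤ := by
  classical
  have hcκ : CharZero κ := charZero_of_injective_algebraMap (algebraMap k κ).injective
  have hset : Set.range x = {x 0, x 1} := by
    ext z
    constructor
    · rintro ⟨i, rfl⟩
      fin_cases i
      · exact Or.inl rfl
      · exact Or.inr rfl
    · rintro (rfl | rfl)
      · exact ⟨0, rfl⟩
      · exact ⟨1, rfl⟩
  have hvec : ![x 0, x 1] = x := by
    funext i
    fin_cases i <;> rfl
  have hMr : IntermediateField.adjoin κ (Set.range x) =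
      IntermediateField.adjoin κ {x 0, x 1} := by
    rw [hset]
  have hcB : CharZero (IntermediateField.adjoin κ (Set.range y)) :=
    charZero_of_injective_algebraMap
      (algebraMap κ (IntermediateField.adjoin κ (Set.range y))).injective
  have hcM : CharZero (IntermediateField.adjoin κ (Set.range x)) :=
    charZero_of_injective_algebraMap
      (algebraMap κ (IntermediateField.adjoin κ (Set.range x))).injective
  have hs1 : IsScalarTower k (IntermediateField.adjoin κ (Set.range y)) K :=
    IsScalarTower.of_algebraMap_eq (fun c => rfl)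
  have hs2 : IsScalarTower k (IntermediateField.adjoin κ (Set.range x)) K :=
    IsScalarTower.of_algebraMap_eq (fun c => rfl)
  obtain ⟨c, hP⟩ := exists_pcurve κ n hn F hF hsm K x y hxy
  obtain ⟨D, hD⟩ := hP.exists_move
  have hκ := algClosed_base_gen κ 2 n 3 (by norm_num) hn (by norm_num) F hF hsm K x y hxy
  obtain ⟨Bm, hB, hdet, hy⟩ :=
    exists_quad_structure_gen κ 2 n 3 (by omega) (by norm_num) F hF hsm K x y hxy
  have hind : AlgebraicIndependent κ ![x 0, x 1] := by
    rw [hvec]
    exact algebraicIndependent_of_isGenericPt_gen κ 2 n 3 (by omega) (by norm_num) F hF hsm K x y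
      hxy
  have hp := hasPlaces_gen κ n 3 hn (by norm_num) F hF hsm K x y hxy
  have hM : ∀ c : K, IsAlgebraic (IntermediateField.adjoin κ {x 0, x 1}) c →
      c ∈ IntermediateField.adjoin κ {x 0, x 1} := by
    intro c hc
    have h1 : IsAlgebraic (IntermediateField.adjoin κ (Set.range x)) c :=
      G1_algVia (algebraMap (IntermediateField.adjoin κ {x 0, x 1}) K)
        (algebraMap (IntermediateField.adjoin κ (Set.range x)) K)
        (fun m => ⟨⟨m, by rw [hMr]; exact m.2⟩, rfl⟩) c hc
    obtain ⟨m, hm⟩ := quad_algClosed _ K n hn Bm hB hdet y hy c h1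
    rw [← hMr, ← hm]
    exact m.2
  let _ : Algebra κ L := ((algebraMap K L).comp (algebraMap κ K)).toAlgebra
  have hst : IsScalarTower κ K L := IsScalarTower.of_algebraMap_eq' rfl
  have h1 : ∀ q : ℕ, Subfield.closure (Set.range (algebraMap K L) ∪
      {z : L | IsAlgebraic (IntermediateField.adjoin κ {(D ^ q) (x 0), (D ^ q) (x 1)}) z}) =
        ⊤ := by
    intro q
    let E : K →ₐ[κ] K := (D ^ q).restrictScalars κ
    let Ek : K →ₐ[k] K := (D ^ q).restrictScalars k
    have hmap : (IntermediateField.adjoin κ {x 0, x 1}).map E =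
        IntermediateField.adjoin κ {(D ^ q) (x 0), (D ^ q) (x 1)} := by
      rw [IntermediateField.adjoin_map, Set.image_pair]
      rfl
    have hMD : ∀ c : K, c ∈ IntermediateField.adjoin κ {(D ^ q) (x 0), (D ^ q) (x 1)} ↔
        ∃ m : IntermediateField.adjoin κ (Set.range x), Ek m = c := by
      intro c
      rw [← hmap, IntermediateField.mem_map]
      constructor
      · rintro ⟨m, hm, rfl⟩
        exact ⟨⟨m, by rw [hMr]; exact hm⟩, rfl⟩
      · rintro ⟨m, rfl⟩
        exact ⟨m, by rw [← hMr]; exact m.2, rfl⟩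
    have h3 := generated_by_moved k (IntermediateField.adjoin κ (Set.range x)) K L n hn Bm hB hdet
      y hy N j hj hjk hmin Ek (by
      intro c hc
      have h4 : IsAlgebraic (IntermediateField.adjoin κ {(D ^ q) (x 0), (D ^ q) (x 1)}) c :=
        G1_algVia
          ((Ek : K →+* K).comp (algebraMap (IntermediateField.adjoin κ (Set.range x)) K))
          (algebraMap (IntermediateField.adjoin κ {(D ^ q) (x 0), (D ^ q) (x 1)}) K)
          (fun m => ⟨⟨Ek m, (hMD _).2 ⟨m, rfl⟩⟩, rfl⟩) c hc
      obtain ⟨m, hm⟩ := (hMD c).1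
        (closed_of_etale κ _ K (x 0) (x 1) hind hκ hM hp (D ^ q) (hD.etale.pow q) c h4)
      exact ⟨m, hm⟩)
    rw [eq_top_iff, ← h3]
    apply Subfield.closure_mono
    apply Set.union_subset_union_right
    intro z hz
    exact G1_algVia ((algebraMap K L).comp
        ((Ek : K →+* K).comp (algebraMap (IntermediateField.adjoin κ (Set.range x)) K)))
      (algebraMap (IntermediateField.adjoin κ {(D ^ q) (x 0), (D ^ q) (x 1)}) L)
      (fun m => ⟨⟨Ek m, (hMD _).2 ⟨m, rfl⟩⟩, rfl⟩) z hz
  exact gen_of_moves κ (IntermediateField.adjoin κ (Set.range y)) K L c (x 0) (x 1) D hD hind hκ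
    hM hp h1

end Pool.Agent.LibHP
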