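import Pool.Agent.LibHP4.B5
import Pool.Agent.LibHP4.B6
import Pool.Agent.LibHP4.A9
import Pool.Agent.LibHP3.U3
import Pool.Agent.LibHP3.G1
import Pool.Agent.LibHP5.G10
import Pool.Agent.LibHP5.G11

set_option autoImplicit false

namespace Pool.Agent.LibHP

theorem C2_unique {K R : Type} [Field K] [Field R] [Algebra K R] (f : Fin 2 → R) (i l : Fin 2)
    (hil : l ≠ i) (h : Transcendental K (f l)) :
    AlgebraicIndependent K (fun l : {l : Fin 2 // l ≠ i} => f l) := by
  have hl : ∀ l' : {l : Fin 2 // l ≠ i}, l' = ⟨l, hil⟩ := by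
    rintro ⟨l', hl'⟩
    apply Subtype.ext
    change l' = l
    clear h
    omega
  let _ : Unique {l : Fin 2 // l ≠ i} := ⟨⟨⟨l, hil⟩⟩, hl⟩
  rw [algebraicIndependent_unique_type_iff]
  exact h

/-- Bidegree `(3, 2)`: a family of endomorphisms moving `x 0` and `x 1` independently. -/
theorem family_three (κ K : Type) [Field κ] [CharZero κ] [Field K] [Algebra κ K] (n : ℕ)
    (hn : 2 ≤ n)
    (F : MvPolynomial (Fin (2 + 1) ⊕ Fin (n + 1)) κ) (hF : IsBihom 3 2 F) (hsm : IsSmoothForm F)
    (x : Fin 2 → K) (y : Fin n → K) (hxy : IsGenericPt F x y) :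
    ∃ (m : ℕ) (Φ : K →+* RF K m),
      (∀ c : κ, Φ (algebraMap κ K c) = algebraMap K (RF K m) (algebraMap κ K c)) ∧
      AlgebraicIndependent K (fun i => Φ (x i)) := by
  classical
  have hcK : CharZero K := charZero_of_injective_algebraMap (algebraMap κ K).injective
  have hcB : CharZero (IntermediateField.adjoin κ (Set.range y)) :=
    charZero_of_injective_algebraMap
      (algebraMap κ (IntermediateField.adjoin κ (Set.range y))).injective
  obtain ⟨c, hP⟩ := exists_pcurve κ n hn F hF hsm K x y hxy
  obtain ⟨D, hD⟩ := hP.exists_move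
  have hp := hasPlaces_gen κ n 3 hn (by norm_num) F hF hsm K x y hxy
  have hκ := algClosed_base_gen κ 2 n 3 (by norm_num) hn (by norm_num) F hF hsm K x y hxy
  have hx := algebraicIndependent_of_isGenericPt_gen κ 2 n 3 (by omega) (by norm_num) F hF hsm K
    x y hxy
  have hx2 : ![x 0, x 1] = x := by
    funext i
    fin_cases i <;> rfl
  have hind : AlgebraicIndependent κ ![x 0, x 1] := by rw [hx2]; exact hx
  have hset : Set.range x = {x 0, x 1} := by
    rw [← hx2]
    simp [Set.pair_comm]
  obtain ⟨Bm, hB, hdet, hy⟩ := exists_quad_structure_gen κ 2 n 3 (by omega) (by norm_num) F hF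
    hsm K x y hxy
  have hquad : HasQuad (IntermediateField.adjoin κ (Set.range x)) K := ⟨n, hn, Bm, y, hB, hdet, hy⟩
  have hcM : CharZero (IntermediateField.adjoin κ (Set.range x)) :=
    charZero_of_injective_algebraMap
      (algebraMap κ (IntermediateField.adjoin κ (Set.range x))).injective
  have hM : ∀ z : K, IsAlgebraic (IntermediateField.adjoin κ {x 0, x 1}) z →
      z ∈ IntermediateField.adjoin κ {x 0, x 1} := by
    rw [← hset]
    intro z hz
    obtain ⟨a, ha⟩ := quad_algClosed _ K n hn Bm hB hdet y hy z hz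
    rw [← ha]
    exact a.2
  obtain ⟨U, t, ht⟩ := exists_isTranscendenceBasis' (IntermediateField.adjoin κ (Set.range x)) K
  obtain ⟨m, h, h1, -, h3⟩ := exists_family_quad _ K hquad U t ht
  have h1κ : ∀ c : κ, h (algebraMap κ K c) = algebraMap K (RF K m) (algebraMap κ K c) := fun c =>
    h1 (algebraMap κ _ c)
  have hDκ : ∀ (n : ℕ) (c : κ), (D ^ n) (algebraMap κ K c) = algebraMap κ K c := fun n c =>
    (D ^ n).commutes (algebraMap κ _ c)
  have hmem : ∀ z : K, z ∉ IntermediateField.adjoin κ {x 0, x 1} → Transcendental K (h z) := by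
    intro z hz
    apply h3
    intro halg
    apply hz
    apply hM
    rw [← hset]
    exact halg
  refine exists_independent_of_fixed κ K (Fin 2) x hx ?_ ?_
  · intro f hf
    apply const_of_moves κ _ K c (x 0) (x 1) D hD hind hκ hM hp f
    intro n
    by_contra hcon
    obtain ⟨g, hg⟩ := hf m (h.comp ((D ^ n : K →ₐ[_] K) : K →+* K)) (fun c => by
      change h ((D ^ n) (algebraMap κ K c)) = _
      rw [hDκ]
      exact h1κ c)
    refine hmem _ hcon ?_
    change h ((D ^ n) f) = _ at hg
    rw [hg]
    exact isAlgebraic_algebraMap g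
  · obtain ⟨l, hl⟩ : ∃ l : Fin 2, D (x l) ∉ IntermediateField.adjoin κ {x 0, x 1} := by
      by_contra hcon
      push Not at hcon
      have h5 : ∀ z ∈ IntermediateField.adjoin κ {x 0, x 1},
          D z ∈ IntermediateField.adjoin κ {x 0, x 1} := by
        let Dκ : K →ₐ[κ] K := D.restrictScalars κ
        have h6 : IntermediateField.adjoin κ {x 0, x 1} ≤
            (IntermediateField.adjoin κ {x 0, x 1}).comap Dκ := by
          rw [IntermediateField.adjoin_le_iff]
          rintro z (rfl | hz)
          · exact hcon 0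
          · rw [Set.mem_singleton_iff.1 hz]
            exact hcon 1
        intro z hz
        exact h6 hz
      have h7 : ∀ n : ℕ, (D ^ n) (x 0) ∈ IntermediateField.adjoin κ {x 0, x 1} := by
        intro n
        induction n with
        | zero => exact IntermediateField.subset_adjoin κ _ (by simp)
        | succ n ih =>
          rw [pow_succ', AlgHom.mul_apply]
          exact h5 _ ih
      obtain ⟨b, hb⟩ := const_of_moves κ _ K c (x 0) (x 1) D hD hind hκ hM hp (x 0) h7
      exact hx.transcendental 0 (hb ▸ isAlgebraic_algebraMap b)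
    obtain ⟨i, hi⟩ := exists_ne l
    have hi := hi.symm
    refine ⟨m, h.comp (D : K →+* K), i, fun c => ?_, ?_⟩
    · change h (D (algebraMap κ K c)) = _
      have := hDκ 1 c
      rw [pow_one] at this
      rw [this]
      exact h1κ c
    · exact C2_unique (fun l => (h.comp (D : K →+* K)) (x l)) i l hi (hmem _ hl)

end Pool.Agent.LibHP
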