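import Pool.Agent.LibHP4.B6
import Pool.Agent.LibHP3.U3
import Pool.Agent.LibHP2.Z2a
import Pool.Agent.LibHP2.G11
import Pool.Agent.LibHP2.C3

set_option autoImplicit false

namespace Pool.Agent.LibHP

/-- An element all of whose images are constant is in the base field of a quadric structure. -/
theorem C3_mem_base (κ K : Type) [Field κ] [CharZero κ] [Field K] [Algebra κ K]
    (M : IntermediateField κ K) [CharZero M] (n : ℕ) (hn : 2 ≤ n)
    (B : Matrix (Fin (n + 1)) (Fin (n + 1)) M) (hB : B.IsSymm) (hdet : B.det ≠ 0)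
    (y : Fin n → K) (hy : IsGenericQuad B y) (f : K)
    (hf : ∀ (m : ℕ) (Φ : K →+* RF K m),
      (∀ c : κ, Φ (algebraMap κ K c) = algebraMap K (RF K m) (algebraMap κ K c)) →
      ∃ g : K, Φ f = algebraMap K (RF K m) g) : f ∈ M := by
  obtain ⟨s, hs⟩ := exists_isTranscendenceBasis M K
  obtain ⟨m, h, h1, _, h3⟩ := exists_family_quad M K ⟨n, hn, B, y, hB, hdet, hy⟩ s _ hs
  obtain ⟨g, hg⟩ := hf m h (fun c => h1 (algebraMap κ M c))
  have halg : IsAlgebraic M f := by
    by_contra hcon
    have h4 := h3 f hcon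
    rw [hg] at h4
    exact h4 (isAlgebraic_algebraMap g)
  obtain ⟨a, ha⟩ := quad_algClosed M K n hn B hB hdet y hy f halg
  rw [← ha]
  exact a.2

/-- Bidegree `(2, 2)`: a family of endomorphisms moving `x 0` and `x 1` independently. -/
theorem family_two (κ K : Type) [Field κ] [CharZero κ] [Field K] [Algebra κ K] (n : ℕ)
    (hn : 2 ≤ n)
    (F : MvPolynomial (Fin (2 + 1) ⊕ Fin (n + 1)) κ) (hF : IsBiquadratic F) (hsm : IsSmoothForm F)
    (x : Fin 2 → K) (y : Fin n → K) (hxy : IsGenericPt F x y) :
    ∃ (m : ℕ) (Φ : K →+* RF K m),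
      (∀ c : κ, Φ (algebraMap κ K c) = algebraMap K (RF K m) (algebraMap κ K c)) ∧
      AlgebraicIndependent K (fun i => Φ (x i)) := by
  classical
  obtain ⟨B, hB, hdet, hy⟩ := exists_quad_structure κ 2 n (by omega) F hF hsm K x y hxy
  obtain ⟨B', hB', hdet', hx⟩ := exists_quad_structure κ n 2 (by omega) (swapForm F) hF.swap
    hsm.swap K y x hxy.swap
  have hind := algebraicIndependent_of_isGenericPt κ 2 n (by omega) F hF hsm K x y hxy
  have hchar : CharZero (IntermediateField.adjoin κ (Set.range x)) :=
    charZero_of_injective_algebraMap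
      (algebraMap κ (IntermediateField.adjoin κ (Set.range x))).injective
  have hchar' : CharZero (IntermediateField.adjoin κ (Set.range y)) :=
    charZero_of_injective_algebraMap
      (algebraMap κ (IntermediateField.adjoin κ (Set.range y))).injective
  have hcK : CharZero K := charZero_of_injective_algebraMap (algebraMap κ K).injective
  refine exists_independent_of_fixed κ K (Fin 2) x hind ?_ ?_
  · intro f hf
    exact mem_base_of_mem_both κ 2 n le_rfl hn F hF hsm K x y hxy f
      (C3_mem_base κ K _ n hn B hB hdet y hy f hf)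
      (C3_mem_base κ K _ 2 le_rfl B' hB' hdet' x hx f hf)
  · obtain ⟨s, hs⟩ := exists_isTranscendenceBasis (IntermediateField.adjoin κ (Set.range y)) K
    obtain ⟨m, h, h1, _, h3⟩ := exists_family_quad (IntermediateField.adjoin κ (Set.range y)) K
      ⟨2, le_rfl, B', x, hB', hdet', hx⟩ s _ hs
    refine ⟨m, h, 1, fun c => h1 (algebraMap κ _ c), ?_⟩
    have hx0 : Transcendental (IntermediateField.adjoin κ (Set.range y)) (x 0) := by
      intro halg
      obtain ⟨a, ha⟩ := quad_algClosed _ K 2 le_rfl B' hB' hdet' x hx (x 0) halg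
      obtain ⟨c, hc⟩ := mem_base_of_mem_both κ 2 n le_rfl hn F hF hsm K x y hxy (x 0)
        (IntermediateField.subset_adjoin κ _ ⟨0, rfl⟩) (by rw [← ha]; exact a.2)
      apply hind.transcendental 0
      rw [← hc]
      exact isAlgebraic_algebraMap c
    let _ : Unique {l : Fin 2 // l ≠ 1} :=
      { default := ⟨0, by decide⟩
        uniq := by
          rintro ⟨l, hl⟩
          apply Subtype.ext
          change l = 0
          omega }
    rw [algebraicIndependent_unique_type_iff]
    exact h3 _ hx0

end Pool.Agent.LibHP
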