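import Pool.Agent.LibHP2.Defs

set_option autoImplicit false

namespace Pool.Agent.LibHP

/-! ### Multihomogeneous forms

The variables are indexed by `τ`; the map `g : τ → ι` divides them into groups. -/

/-- `F` is multihomogeneous: homogeneous of degree `d i` in the variables of the group `i`. -/
def IsMultiHom {k τ ι : Type} [Field k] [Fintype τ] [DecidableEq ι] (g : τ → ι) (d : ι → ℕ)
    (F : MvPolynomial τ k) : Prop :=
  ∀ s ∈ F.support, ∀ i, ∑ v ∈ Finset.univ.filter (fun v => g v = i), s v = d i

/-- The hypersurface `F = 0` in the product of projective spaces is smooth (no singular point over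
the algebraic closure of `k`). -/
def IsSmoothMulti {k τ ι : Type} [Field k] (g : τ → ι) (F : MvPolynomial τ k) : Prop :=
  ∀ a : τ → AlgebraicClosure k, (∀ i, ∃ v, g v = i ∧ a v ≠ 0) → MvPolynomial.aeval a F = 0 →
    ∃ v, MvPolynomial.aeval a (MvPolynomial.pderiv v F) ≠ 0

/-- `z` is a system of homogeneous coordinates, with values in `K`, of a generic point of the
hypersurface `F = 0`, and `K` is generated by the ratios of these coordinates. -/
def IsMultiCoord {k K τ ι : Type} [Field k] [Field K] [Algebra k K] [Fintype τ] [DecidableEq ι]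
    (g : τ → ι) (F : MvPolynomial τ k) (z : τ → K) : Prop :=
  (∀ i, ∃ v, g v = i ∧ z v ≠ 0) ∧
  (∀ (d : ι → ℕ) (G : MvPolynomial τ k), IsMultiHom g d G →
    (MvPolynomial.aeval z G = 0 ↔ F ∣ G)) ∧
  IntermediateField.adjoin k {c : K | ∃ v w, g v = g w ∧ z w ≠ 0 ∧ c = z v / z w} = ⊤

/-- The same with the coordinates normalized: `x (t i) = 1` for the distinguished coordinate `t i`
of every group. -/
def IsMultiPt {k K τ ι : Type} [Field k] [Field K] [Algebra k K] [Fintype τ] [DecidableEq ι]
    (g : τ → ι) (F : MvPolynomial τ k) (t : ι → τ) (x : τ → K) : Prop :=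
  (∀ i, x (t i) = 1) ∧
  (∀ (d : ι → ℕ) (G : MvPolynomial τ k), IsMultiHom g d G →
    (MvPolynomial.aeval x G = 0 ↔ F ∣ G)) ∧
  IntermediateField.adjoin k (Set.range x) = ⊤

/-- The point `s p + t q` in the group `J`, the point `c` in the other groups. -/
def linePt {Λ τ ι : Type} [Field Λ] [DecidableEq ι] (g : τ → ι) (J : ι) (p q : τ → Λ) (s t : Λ)
    (c : τ → Λ) : τ → Λ := fun v => if g v = J then s * p v + t * q v else c v

/-- The restriction of `F = 0` to the line through `p` and `q` in the group `J` (times the other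
projective spaces) has no singular point over `Λ`. -/
def LineSmooth {k τ ι : Type} [Field k] [Fintype τ] [DecidableEq ι] (g : τ → ι)
    (F : MvPolynomial τ k) (J : ι) (Λ : Type) [Field Λ] [Algebra k Λ] (p q : τ → Λ) : Prop :=
  ∀ (s t : Λ) (c : τ → Λ), (s ≠ 0 ∨ t ≠ 0) → (∀ i, i ≠ J → ∃ v, g v = i ∧ c v ≠ 0) →
    MvPolynomial.aeval (linePt g J p q s t c) F = 0 →
    (∀ v, g v ≠ J → MvPolynomial.aeval (linePt g J p q s t c) (MvPolynomial.pderiv v F) = 0) →
    ∑ v ∈ Finset.univ.filter (fun v => g v = J),
      p v * MvPolynomial.aeval (linePt g J p q s t c) (MvPolynomial.pderiv v F) = 0 →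
    ∑ v ∈ Finset.univ.filter (fun v => g v = J),
      q v * MvPolynomial.aeval (linePt g J p q s t c) (MvPolynomial.pderiv v F) = 0 → False

/-- The restrictions of `F = 0` to the coordinate lines are smooth. -/
def GoodCoord {k τ ι : Type} [Field k] [Fintype τ] [DecidableEq τ] [DecidableEq ι] (g : τ → ι)
    (F : MvPolynomial τ k) : Prop :=
  ∀ v v', v ≠ v' → g v = g v' → ∀ (Λ : Type) [Field Λ] [Algebra k Λ],
    LineSmooth g F (g v) Λ (Pi.single v 1) (Pi.single v' 1)

/-- The form in new coordinates: the coordinate point of `v` is the row `A v` in the old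
coordinates. -/
noncomputable def linChange {k τ : Type} [Field k] [Fintype τ] (A : Matrix τ τ k)
    (F : MvPolynomial τ k) : MvPolynomial τ k :=
  MvPolynomial.aeval (fun u => ∑ v, MvPolynomial.C (A v u) * MvPolynomial.X v) F

open Classical in
/-- The homogeneous coordinates of a point of a slice: `e` are the three selected coordinates of
the group `J`, `b` the coordinates of the group `I`, the other coordinates have the ratios given
by `c`. -/
noncomputable def slicePt {τ ι A : Type} [CommRing A] (g : τ → ι) (J : ι) {n : ℕ}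
    (e : Fin (2 + 1) → τ) (b : Fin (n + 1) → τ) (c : τ → A) (α : Fin (2 + 1) → A)
    (β : Fin (n + 1) → A) : τ → A := fun w =>
  if h : ∃ i, e i = w then α h.choose
  else if h : ∃ j, b j = w then β h.choose
  else if g w = J then c w * α 0
  else c w

/-- The form of the slice. -/
noncomputable def sliceForm {k κ τ ι : Type} [Field k] [Field κ] [Algebra k κ] (g : τ → ι) (J : ι)
    {n : ℕ} (e : Fin (2 + 1) → τ) (b : Fin (n + 1) → τ) (c : τ → κ) (F : MvPolynomial τ k) :
    MvPolynomial (Fin (2 + 1) ⊕ Fin (n + 1)) κ :=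
  MvPolynomial.aeval (slicePt g J e b (fun w => MvPolynomial.C (c w))
    (fun i => MvPolynomial.X (Sum.inl i)) (fun j => MvPolynomial.X (Sum.inr j))) F

/-! ### Slices of a function field -/

/-- `K` is the function field over `κ` of a smooth hypersurface of bidegree `(2, 2)` or `(3, 2)`
in `P^2 × P^n`, with affine coordinates `x` and `y`. -/
def GoodSlice (κ K : Type) [Field κ] [Field K] [Algebra κ K] (n : ℕ) (x : Fin 2 → K)
    (y : Fin n → K) : Prop :=
  2 ≤ n ∧ ∃ (D : ℕ) (G : MvPolynomial (Fin (2 + 1) ⊕ Fin (n + 1)) κ), (D = 2 ∨ D = 3) ∧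
    IsBihom D 2 G ∧ IsSmoothForm G ∧ IsGenericPt G x y

/-- The slice in the direction of the two coordinates `u`. -/
structure SliceAt (k K σ : Type) [Field k] [Field K] [Algebra k K] (x : σ → K)
    (I : Finset σ) (n : ℕ) (b : Fin n → σ) (u : Fin 2 → σ) : Prop where
  inj : Function.Injective u
  nmem : ∀ i, u i ∉ I
  good : GoodSlice (IntermediateField.adjoin k (x '' {w | w ∉ Set.range u ∧ w ∉ I})) K n
    (fun i => x (u i)) (fun j => x (b j))

/-- `K` has slices through all coordinates outside of `I`. -/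
structure HasSlices (k K σ : Type) [Field k] [Field K] [Algebra k K] (x : σ → K)
    (I : Finset σ) : Prop where
  indep : AlgebraicIndependent k (fun u : {u : σ // u ∉ I} => x u)
  gen : IntermediateField.adjoin k (Set.range x) = ⊤
  ne : ∃ v, v ∉ I
  slice : ∃ (n : ℕ) (b : Fin n → σ), (∀ v, v ∈ Set.range b ↔ v ∈ I) ∧
    ∀ v, v ∉ I → ∃ u : Fin 2 → σ, u 0 = v ∧ SliceAt k K σ x I n b u

end Pool.Agent.LibHP
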