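import Pool.Agent.LibHP5.C1
import Pool.Agent.LibHP5.C2
import Pool.Agent.LibHP5.C3
import Pool.Agent.LibHP5.Defs
import Pool.Agent.LibHP3.M1

set_option autoImplicit false

namespace Pool.Agent.LibHP

theorem GoodSlice.indep {κ K : Type} [Field κ] [CharZero κ] [Field K] [Algebra κ K] {n : ℕ}
    {x : Fin 2 → K} {y : Fin n → K} (h : GoodSlice κ K n x y) : AlgebraicIndependent κ x := by
  obtain ⟨hn, D, G, hD, hG, hsm, hxy⟩ := h
  exact algebraicIndependent_of_isGenericPt_gen κ 2 n D (by omega) (by omega) G hG hsm K x y hxy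

/-- `K` is the function field of a quadric over the field of the coordinates `x`. -/
theorem GoodSlice.hasQuad {κ K : Type} [Field κ] [CharZero κ] [Field K] [Algebra κ K] {n : ℕ}
    {x : Fin 2 → K} {y : Fin n → K} (h : GoodSlice κ K n x y) :
    HasQuad (IntermediateField.adjoin κ (Set.range x)) K := by
  obtain ⟨hn, D, G, hD, hG, hsm, hxy⟩ := h
  obtain ⟨B, hB, hdet, hy⟩ := exists_quad_structure_gen κ 2 n D (by omega) (by omega) G hG hsm
    K x y hxy
  exact ⟨n, hn, B, y, hB, hdet, hy⟩

theorem GoodSlice.valuation {κ K : Type} [Field κ] [CharZero κ] [Field K] [Algebra κ K] {n : ℕ}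
    {x : Fin 2 → K} {y : Fin n → K} (h : GoodSlice κ K n x y) (π : MvPolynomial (Fin 2) κ)
    (hπ : Irreducible π) :
    ∃ O : ValuationSubring K, IsUnif O (MvPolynomial.aeval x π) ∧
      (∀ p : MvPolynomial (Fin 2) κ, MvPolynomial.aeval x p ∈ O) ∧
      (∀ p : MvPolynomial (Fin 2) κ, O.valuation (MvPolynomial.aeval x p) < 1 ↔ π ∣ p) ∧
      ∀ a : IntermediateField.adjoin κ (Set.range y), (a : K) ∈ O := by
  obtain ⟨hn, D, G, hD, hG, hsm, hxy⟩ := h
  obtain ⟨O, h1, h2, h3, h4⟩ := exists_good_valuation_gen κ 2 n D (by omega) hn (by omega) G hG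
    hsm K x y hxy π hπ
  exact ⟨O, h1, h2, h3, fun a => Z2c_val_le y O h4 a⟩

theorem GoodSlice.family {κ K : Type} [Field κ] [CharZero κ] [Field K] [Algebra κ K] {n : ℕ}
    {x : Fin 2 → K} {y : Fin n → K} (h : GoodSlice κ K n x y) :
    ∃ (m : ℕ) (Φ : K →+* RF K m),
      (∀ c : κ, Φ (algebraMap κ K c) = algebraMap K (RF K m) (algebraMap κ K c)) ∧
      AlgebraicIndependent K (fun i => Φ (x i)) := by
  obtain ⟨hn, D, G, hD, hG, hsm, hxy⟩ := h
  rcases hD with rfl | rfl
  · exact family_two κ K n hn G hG hsm x y hxy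
  · exact family_three κ K n hn G hG hsm x y hxy

theorem GoodSlice.gen {k κ K L : Type} [Field k] [CharZero k] [Field κ] [Algebra k κ] [Field K]
    [Algebra k K] [Algebra κ K] [IsScalarTower k κ K] [Field L] [Algebra K L]
    [FiniteDimensional K L] {n : ℕ} {x : Fin 2 → K} {y : Fin n → K} (h : GoodSlice κ K n x y)
    (N : ℕ) (j : L →+* RF k N)
    (hj : ∀ e : RF k N, (∃ P : Polynomial L, P ≠ 0 ∧ P.eval₂ j e = 0) → ∃ l, j l = e)
    (hjk : ∀ c : k, j (algebraMap K L (algebraMap k K c)) = algebraMap k (RF k N) c)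
    (hlift : LiftProp k K L)
    (hmin : ∀ (n' : ℕ) (F' : K →ₐ[k] RF k n'), Module.finrank K L ≤ dF F'.toRingHom) :
    Subfield.closure (Set.range (algebraMap K L) ∪
      {z : L | IsAlgebraic (IntermediateField.adjoin κ (Set.range y)) z}) = ⊤ := by
  obtain ⟨hn, D, G, hD, hG, hsm, hxy⟩ := h
  have hcκ : CharZero κ := charZero_of_injective_algebraMap (algebraMap k κ).injective
  have hcB : CharZero (IntermediateField.adjoin κ (Set.range y)) :=
    charZero_of_injective_algebraMap
      (algebraMap κ (IntermediateField.adjoin κ (Set.range y))).injective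
  rcases hD with rfl | rfl
  · have hG' : IsBiquadratic G := hG
    obtain ⟨B, hB, hdet, hx⟩ := exists_quad_structure κ n 2 (by omega) (swapForm G) hG'.swap
      hsm.swap K y x hxy.swap
    have hl1 : LiftProp κ K L := Z2c_lift (k := k) (M := κ) hlift
    exact adjoin_of_quadric _ K L 2 le_rfl B hB hdet x hx (Z2c_lift hl1)
  · rw [eq_top_iff, ← gen_three k κ K L n hn G hG hsm x y hxy N j hj hjk hmin]
    apply Subfield.closure_mono
    apply Set.union_subset_union_right
    intro z hz
    exact G1_algVia ((algebraMap K L).comp (algebraMap κ K))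
      (algebraMap (IntermediateField.adjoin κ (Set.range y)) L)
      (fun m => ⟨algebraMap κ _ m, rfl⟩) z hz

end Pool.Agent.LibHP
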