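import Pool.Agent.LibHP2.G7
import Pool.Agent.LibHP2.G9
import Pool.Agent.LibHP2.G6b
import Pool.Agent.LibHP2.G8a
import Pool.Agent.LibHP2.G8c
import Pool.Agent.LibHP5.Defs

set_option autoImplicit false

namespace Pool.Agent.LibHP

/-- The exponent of the dehomogenized monomial. -/
noncomputable def G9g_t {m n : ℕ} (s : Fin (m + 1) ⊕ Fin (n + 1) →₀ ℕ) : Fin m ⊕ Fin n →₀ ℕ :=
  Finsupp.equivFunOnFinite.symm
    (Sum.elim (fun i => s (Sum.inl i.succ)) (fun j => s (Sum.inr j.succ)))

theorem G9g_t_inl {m n : ℕ} (s : Fin (m + 1) ⊕ Fin (n + 1) →₀ ℕ) (i : Fin m) :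
    G9g_t s (Sum.inl i) = s (Sum.inl i.succ) := rfl

theorem G9g_t_inr {m n : ℕ} (s : Fin (m + 1) ⊕ Fin (n + 1) →₀ ℕ) (i : Fin n) :
    G9g_t s (Sum.inr i) = s (Sum.inr i.succ) := rfl

theorem G9g_t_inj {m n d e : ℕ} (s s' : Fin (m + 1) ⊕ Fin (n + 1) →₀ ℕ)
    (h1 : (∑ i, s (Sum.inl i)) = d) (h2 : (∑ j, s (Sum.inr j)) = e)
    (h1' : (∑ i, s' (Sum.inl i)) = d) (h2' : (∑ j, s' (Sum.inr j)) = e)
    (h : G9g_t s = G9g_t s') : s = s' := by
  have hl : ∀ i : Fin m, s (Sum.inl i.succ) = s' (Sum.inl i.succ) := fun i =>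
    DFunLike.congr_fun h (Sum.inl i)
  have hr : ∀ i : Fin n, s (Sum.inr i.succ) = s' (Sum.inr i.succ) := fun i =>
    DFunLike.congr_fun h (Sum.inr i)
  rw [Fin.sum_univ_succ] at h1 h2 h1' h2'
  rw [Finset.sum_congr rfl fun i _ => hl i] at h1
  rw [Finset.sum_congr rfl fun i _ => hr i] at h2
  ext v
  rcases v with v | v
  · refine Fin.cases ?_ (fun i => ?_) v
    · omega
    · exact hl i
  · refine Fin.cases ?_ (fun i => ?_) v
    · omega
    · exact hr i

theorem G9g_dehom_monomial {k : Type} [Field k] {m n : ℕ}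
    (s : Fin (m + 1) ⊕ Fin (n + 1) →₀ ℕ) (c : k) :
    dehom (MvPolynomial.monomial s c) = MvPolynomial.monomial (G9g_t s) c := by
  rw [dehom, MvPolynomial.aeval_monomial, MvPolynomial.monomial_eq,
    Finsupp.prod_fintype _ _ (fun i => pow_zero _), Finsupp.prod_fintype _ _ (fun i => pow_zero _),
    Fintype.prod_sum_type, Fintype.prod_sum_type, Fin.prod_univ_succ, Fin.prod_univ_succ]
  simp [G9g_t_inl, G9g_t_inr, MvPolynomial.algebraMap_eq]

theorem G9g_dehom_sum {k : Type} [Field k] {m n : ℕ}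
    (G : MvPolynomial (Fin (m + 1) ⊕ Fin (n + 1)) k) :
    dehom G = ∑ s ∈ G.support, MvPolynomial.monomial (G9g_t s) (G.coeff s) := by
  conv_lhs => rw [G.as_sum]
  rw [dehom, map_sum]
  refine Finset.sum_congr rfl fun s _ => ?_
  exact G9g_dehom_monomial s _

theorem G9g_dehom_inj {k : Type} [Field k] {m n d e : ℕ}
    (G : MvPolynomial (Fin (m + 1) ⊕ Fin (n + 1)) k) (hG : IsBihom d e G) (h : dehom G = 0) :
    G = 0 := by
  classical
  by_contra hne
  obtain ⟨s0, hs0⟩ := MvPolynomial.support_nonempty.2 hne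
  have h1 := congrArg (MvPolynomial.coeff (G9g_t s0)) h
  rw [G9g_dehom_sum, MvPolynomial.coeff_sum, MvPolynomial.coeff_zero] at h1
  rw [Finset.sum_eq_single s0] at h1
  · rw [MvPolynomial.coeff_monomial, if_pos rfl] at h1
    exact MvPolynomial.mem_support_iff.1 hs0 h1
  · intro s hs hss
    rw [MvPolynomial.coeff_monomial, if_neg]
    intro h2
    exact hss (G9g_t_inj s s0 (hG s hs).1 (hG s hs).2 (hG s0 hs0).1 (hG s0 hs0).2 h2)
  · intro h2
    exact absurd hs0 h2

theorem G9g_pderiv_dehom {k : Type} [Field k] {m n : ℕ}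
    (G : MvPolynomial (Fin (m + 1) ⊕ Fin (n + 1)) k) (i : Fin m) :
    MvPolynomial.pderiv (Sum.inl i) (dehom G) = dehom (MvPolynomial.pderiv (Sum.inl i.succ) G) := by
  classical
  rw [dehom, G8c_chain, Finset.sum_eq_single (Sum.inl i.succ)]
  · simp [dehom]
  · rintro (u | u) _ hu
    · revert hu
      refine Fin.cases ?_ (fun j => ?_) u
      · simp
      · intro hu
        have hji : (Sum.inl j : Fin m ⊕ Fin n) ≠ Sum.inl i := by
          intro h
          exact hu (by rw [Sum.inl_injective h])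
        simp only [Sum.elim_inl, Fin.cons_succ]
        rw [MvPolynomial.pderiv_X_of_ne hji, mul_zero]
    · refine Fin.cases ?_ (fun j => ?_) u
      · simp
      · simp
  · intro h
    exact absurd (Finset.mem_univ _) h

/-- The derivatives of a bihomogeneous form. -/
theorem G9g_bihom_pderiv {k : Type} [Field k] {m n D e : ℕ} (hD : 1 ≤ D)
    (F : MvPolynomial (Fin (m + 1) ⊕ Fin (n + 1)) k) (hF : IsBihom D e F) (i : Fin (m + 1)) :
    IsBihom (D - 1) e (MvPolynomial.pderiv (Sum.inl i) F) := by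
  rw [G8a_isBihom_iff] at hF ⊢
  exact ⟨hF.1.pderiv (i := Sum.inl i) (n' := D - 1) (by simp [G8a_wx]; omega),
    hF.2.pderiv (i := Sum.inl i) (n' := e) (by simp [G8a_wy])⟩

theorem G9g_euler {k : Type} [Field k] {m n : ℕ} {e : ℕ}
    (F : MvPolynomial (Fin (m + 1) ⊕ Fin (n + 1)) k)
    (hF : MvPolynomial.IsWeightedHomogeneous (G8a_wx m n) F e) :
    ∑ j, MvPolynomial.X (Sum.inl j) * MvPolynomial.pderiv (Sum.inl j) F = e • F := by
  have h := hF.sum_weight_X_mul_pderiv
  rw [Fintype.sum_sum_type] at h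
  simpa [G8a_wx] using h

/-- A form which does not involve the variables `X_1, …, X_m` is not smooth. -/
theorem G9g_not_smooth (k : Type) [Field k] [CharZero k] (m n D : ℕ) (hm : 1 ≤ m)
    (hn : 1 ≤ n) (hD : 1 ≤ D) (F : MvPolynomial (Fin (m + 1) ⊕ Fin (n + 1)) k)
    (hF : IsBihom D 2 F) (h0 : ∀ i : Fin m, MvPolynomial.pderiv (Sum.inl i.succ) F = 0) :
    ¬ IsSmoothForm F := by
  classical
  apply not_isSmoothForm_of_hasSing k (AlgebraicClosure k)
  have hchar : CharZero (AlgebraicClosure k) := charZero_of_injective_algebraMap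
    (FaithfulSMul.algebraMap_injective k (AlgebraicClosure k))
  set Λ := AlgebraicClosure k
  set G := MvPolynomial.map (algebraMap k Λ) F with hG
  have hGb : IsBihom D 2 G := by
    intro s hs
    exact hF s (MvPolynomial.support_map_subset _ _ hs)
  have hG0 : ∀ i : Fin m, MvPolynomial.pderiv (Sum.inl i.succ) G = 0 := by
    intro i
    rw [hG, MvPolynomial.pderiv_map, h0, map_zero]
  have hG1 := G9g_bihom_pderiv hD G hGb 0
  obtain ⟨m, rfl⟩ : ∃ m', m = m' + 1 := ⟨m - 1, by omega⟩
  set a : Fin (m + 1 + 1) → Λ := Pi.single 1 1 with ha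
  have ha0 : a 0 = 0 := by simp [ha]
  have ha1 : a 1 = 1 := by simp [ha]
  have hX : ∀ i : Fin (n + 1), (MvPolynomial.X i : MvPolynomial (Fin (n + 1)) Λ).IsHomogeneous 1 :=
    fun i => MvPolynomial.isHomogeneous_X _ _
  obtain ⟨b, hb, hz⟩ := G6b_common_zero Λ n
    {MvPolynomial.aeval (Sum.elim (fun i => MvPolynomial.C (a i)) MvPolynomial.X)
      (MvPolynomial.pderiv (Sum.inl 0) G)}
    (by simpa using hn) (by
      intro f hf
      rw [Finset.mem_singleton] at hf
      subst hf
      exact ⟨(D - 1) * 0 + 2 * 1, by omega, G6b_subst_hom hG1 _ _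
        (fun j => MvPolynomial.isHomogeneous_C _ _) hX⟩)
  have hz1 := hz _ (Finset.mem_singleton_self _)
  rw [G6b_eval_subst] at hz1
  simp only [MvPolynomial.eval_X, MvPolynomial.eval_C] at hz1
  have hE : MvPolynomial.X (Sum.inl 0) * MvPolynomial.pderiv (Sum.inl 0) G = D • G := by
    have h := G9g_euler G ((G8a_isBihom_iff G).1 hGb).1
    rw [Fin.sum_univ_succ] at h
    simpa [hG0] using h
  have hD0 : (D : Λ) ≠ 0 := by
    have : D ≠ 0 := by omega
    exact_mod_cast this
  have hcancel : ∀ w : Λ, D • w = 0 → w = 0 := by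
    intro w hw
    rw [nsmul_eq_mul] at hw
    exact (mul_eq_zero.1 hw).resolve_left hD0
  refine ⟨a, b, fun h => ?_, hb, ?_, ?_⟩
  · have := congrFun h 1
    rw [ha1] at this
    exact one_ne_zero this
  · apply hcancel
    have h := congrArg (MvPolynomial.eval (Sum.elim a b)) hE
    rw [map_mul, map_nsmul, MvPolynomial.eval_X, Sum.elim_inl, ha0, zero_mul] at h
    exact h.symm
  · rintro (v | v)
    · refine Fin.cases hz1 (fun i => ?_) v
      rw [hG0, map_zero]
    · apply hcancel
      have h1 := congrArg (MvPolynomial.pderiv (Sum.inr v)) hE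
      rw [map_nsmul, Derivation.leibniz, MvPolynomial.pderiv_X_of_ne (by simp), smul_zero,
        add_zero] at h1
      have h := congrArg (MvPolynomial.eval (Sum.elim a b)) h1
      rw [smul_eq_mul, map_mul, map_nsmul, MvPolynomial.eval_X, Sum.elim_inl, ha0, zero_mul] at h
      exact h.symm

/-- A divisor of a nonzero polynomial not involving a variable does not involve it. -/
theorem G9g_pderiv_zero {k : Type} [Field k] {σ τ : Type} (f : τ → σ)
    (P : MvPolynomial σ k) (p : MvPolynomial τ k) (hp : MvPolynomial.rename f p ≠ 0)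
    (hd : P ∣ MvPolynomial.rename f p) (v : σ) (hv : v ∉ Set.range f) :
    MvPolynomial.pderiv v P = 0 := by
  classical
  obtain ⟨Q, hQ⟩ := hd
  have hP0 : P ≠ 0 := by
    rintro rfl
    rw [zero_mul] at hQ
    exact hp hQ
  have hQ0 : Q ≠ 0 := by
    rintro rfl
    rw [mul_zero] at hQ
    exact hp hQ
  have h1 : v ∉ (MvPolynomial.rename f p).vars := by
    intro h
    obtain ⟨w, -, hw⟩ := Finset.mem_image.1 (MvPolynomial.vars_rename f p h)
    exact hv ⟨w, hw⟩
  rw [MvPolynomial.mem_vars_iff_degreeOf_ne_zero, not_not, hQ,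
    MvPolynomial.degreeOf_mul_eq hP0 hQ0] at h1
  apply MvPolynomial.pderiv_eq_zero_of_notMem_vars
  rw [MvPolynomial.mem_vars_iff_degreeOf_ne_zero, not_not]
  omega

/-- The coordinates `y` are algebraically independent. -/
theorem algebraicIndependent_y_gen (k : Type) [Field k] [CharZero k] (m n D : ℕ) (hm : 1 ≤ m)
    (hn : 1 ≤ n) (hD : 1 ≤ D) (F : MvPolynomial (Fin (m + 1) ⊕ Fin (n + 1)) k)
    (hF : IsBihom D 2 F) (hsm : IsSmoothForm F) (K : Type) [Field K] [Algebra k K]
    (x : Fin m → K) (y : Fin n → K) (hxy : IsGenericPt F x y) : AlgebraicIndependent k y := by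
  rw [algebraicIndependent_iff]
  intro p hp
  by_contra hp0
  have hinj : Function.Injective (Sum.inr : Fin n → Fin m ⊕ Fin n) := Sum.inr_injective
  have h1 : MvPolynomial.aeval (Sum.elim x y) (MvPolynomial.rename Sum.inr p) = 0 := by
    rw [MvPolynomial.aeval_rename]
    exact hp
  have h2 := (hxy.1 _).1 h1
  have h3 : (MvPolynomial.rename Sum.inr p : MvPolynomial (Fin m ⊕ Fin n) k) ≠ 0 := by
    intro h
    exact hp0 (MvPolynomial.rename_injective _ hinj (by rw [h, map_zero]))
  refine G9g_not_smooth k m n D hm hn hD F hF (fun i => ?_) hsm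
  apply G9g_dehom_inj _ (G9g_bihom_pderiv hD F hF _)
  rw [← G9g_pderiv_dehom]
  exact G9g_pderiv_zero _ _ _ h3 h2 _ (by simp)

/-- If `x l` is algebraic over the field of the `y` then `F` does not involve the other variable. -/
theorem G9g_other (k : Type) [Field k] [CharZero k] (n D : ℕ)
    (hn : 1 ≤ n) (hD : 1 ≤ D) (F : MvPolynomial (Fin (2 + 1) ⊕ Fin (n + 1)) k)
    (hF : IsBihom D 2 F) (hsm : IsSmoothForm F) (K : Type) [Field K] [Algebra k K]
    (x : Fin 2 → K) (y : Fin n → K) (hxy : IsGenericPt F x y) (l : Fin 2)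
    (hl : ¬ Transcendental (IntermediateField.adjoin k (Set.range y)) (x l)) (i : Fin 2)
    (hi : i ≠ l) : MvPolynomial.pderiv (Sum.inl i.succ) F = 0 := by
  classical
  have hy := algebraicIndependent_y_gen k 2 n D (by norm_num) hn hD F hF hsm K x y hxy
  rw [IntermediateField.transcendental_adjoin_iff, ← hy.option_iff_transcendental,
    algebraicIndependent_iff] at hl
  push Not at hl
  obtain ⟨p, hp, hp0⟩ := hl
  set f : Option (Fin n) → Fin 2 ⊕ Fin n := fun o => o.elim (Sum.inl l) Sum.inr with hf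
  have hinj : Function.Injective f := by
    rintro (_ | a) (_ | b) hab
    · rfl
    · simp [hf] at hab
    · simp [hf] at hab
    · simp only [hf, Option.elim_some] at hab
      rw [Sum.inr_injective hab]
  have h1 : MvPolynomial.aeval (Sum.elim x y) (MvPolynomial.rename f p) = 0 := by
    rw [MvPolynomial.aeval_rename, ← hp]
    congr 2
    funext o
    rcases o with _ | a <;> rfl
  have h2 := (hxy.1 _).1 h1
  have h3 : MvPolynomial.rename f p ≠ 0 := by
    intro h
    exact hp0 (MvPolynomial.rename_injective _ hinj (by rw [h, map_zero]))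
  apply G9g_dehom_inj _ (G9g_bihom_pderiv hD F hF _)
  rw [← G9g_pderiv_dehom]
  refine G9g_pderiv_zero _ _ _ h3 h2 _ ?_
  rintro ⟨o, ho⟩
  rcases o with _ | a
  · simp only [hf, Option.elim_none] at ho
    exact hi (Sum.inl_injective ho).symm
  · simp [hf] at ho

/-- One of the two coordinates `x` is transcendental over the field of the `y`. -/
theorem transcendental_x_gen (k : Type) [Field k] [CharZero k] (n D : ℕ)
    (hn : 1 ≤ n) (hD : 1 ≤ D) (F : MvPolynomial (Fin (2 + 1) ⊕ Fin (n + 1)) k)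
    (hF : IsBihom D 2 F) (hsm : IsSmoothForm F) (K : Type) [Field K] [Algebra k K]
    (x : Fin 2 → K) (y : Fin n → K) (hxy : IsGenericPt F x y) :
    Transcendental (IntermediateField.adjoin k (Set.range y)) (x 0) ∨
      Transcendental (IntermediateField.adjoin k (Set.range y)) (x 1) := by
  by_contra hcon
  rw [not_or] at hcon
  refine G9g_not_smooth k 2 n D (by norm_num) hn hD F hF (fun i => ?_) hsm
  by_cases hi : i = 0
  · subst hi
    exact G9g_other k n D hn hD F hF hsm K x y hxy 1 hcon.2 0 (by simp)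
  · have hi1 : i = 1 := by
      fin_cases i
      · exact absurd rfl hi
      · rfl
    subst hi1
    exact G9g_other k n D hn hD F hF hsm K x y hxy 0 hcon.1 1 (by simp)

end Pool.Agent.LibHP
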