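import Pool.Agent.LibHP5.Defs

set_option autoImplicit false

namespace Pool.Agent.LibHP

attribute [local instance] MvPolynomial.algebraMvPolynomial

/-- Gauss lemma, abstract form. -/
theorem H1_core (R κ : Type) [CommRing R] [IsDomain R] [UniqueFactorizationMonoid R] [Field κ]
    [Algebra R κ] [IsFractionRing R κ] (A : Type)
    (π : MvPolynomial A R) (hπ : Prime π) (hA : ∀ r : R, r ≠ 0 → ¬ π ∣ MvPolynomial.C r) :
    Prime (MvPolynomial.map (algebraMap R κ) π) ∧
    ∀ p : MvPolynomial A R, MvPolynomial.map (algebraMap R κ) π ∣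
      MvPolynomial.map (algebraMap R κ) p → π ∣ p := by
  have hloc : IsLocalization ((nonZeroDivisors R).map (MvPolynomial.C (σ := A)))
      (MvPolynomial A κ) := MvPolynomial.isLocalization (nonZeroDivisors R) κ
  have hI : (Ideal.span {π}).IsPrime := (Ideal.span_singleton_prime hπ.ne_zero).2 hπ
  have hdisj : Disjoint (((nonZeroDivisors R).map (MvPolynomial.C (σ := A)) :
      Submonoid (MvPolynomial A R)) : Set (MvPolynomial A R)) (Ideal.span {π} : Set _) := by
    rw [Set.disjoint_left]
    rintro _ ⟨r, hr, rfl⟩ hm
    exact hA r (nonZeroDivisors.ne_zero hr) (Ideal.mem_span_singleton.1 hm)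
  have hmap : (Ideal.span {π}).map (algebraMap (MvPolynomial A R) (MvPolynomial A κ)) =
      Ideal.span {MvPolynomial.map (algebraMap R κ) π} := by
    rw [Ideal.map_span, Set.image_singleton, MvPolynomial.algebraMap_def]
  have hinj : Function.Injective (MvPolynomial.map (σ := A) (algebraMap R κ)) :=
    MvPolynomial.map_injective _ (IsFractionRing.injective R κ)
  constructor
  · have h1 := IsLocalization.isPrime_of_isPrime_disjoint
      ((nonZeroDivisors R).map (MvPolynomial.C (σ := A))) (MvPolynomial A κ) _ hI hdisj
    rw [hmap] at h1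
    refine (Ideal.span_singleton_prime ?_).1 h1
    intro h0
    exact hπ.ne_zero (hinj (by rw [h0, map_zero]))
  · intro p hp
    have h1 := IsLocalization.under_map_of_isPrime_disjoint
      ((nonZeroDivisors R).map (MvPolynomial.C (σ := A))) (MvPolynomial A κ) hI hdisj
    rw [hmap] at h1
    have h2 : p ∈ (Ideal.span {MvPolynomial.map (algebraMap R κ) π}).under
        (MvPolynomial A R) := by
      rw [Ideal.under_def, Ideal.mem_comap, MvPolynomial.algebraMap_def,
        Ideal.mem_span_singleton]
      exact hp
    rw [h1, Ideal.mem_span_singleton] at h2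
    exact h2

/-- Gauss lemma: an irreducible polynomial involving one of the variables of the first group stays
irreducible over the field of the variables of the second group, and divisibility by it descends. -/
theorem gauss_slice (k κ : Type) [Field k] [Field κ] [Algebra k κ] (A T : Type) [Finite A]
    [Finite T] (c : T → κ) (hc : AlgebraicIndependent k c)
    (hgen : IntermediateField.adjoin k (Set.range c) = ⊤) (π : MvPolynomial (A ⊕ T) k)
    (hπ : Irreducible π) (a : A) (ha : Sum.inl a ∈ π.vars) :
    Irreducible (MvPolynomial.aeval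
      (Sum.elim MvPolynomial.X (fun l => MvPolynomial.C (c l)) : A ⊕ T → MvPolynomial A κ) π) ∧
    ∀ p : MvPolynomial (A ⊕ T) k,
      (MvPolynomial.aeval
        (Sum.elim MvPolynomial.X (fun l => MvPolynomial.C (c l)) : A ⊕ T → MvPolynomial A κ) π ∣
      MvPolynomial.aeval
        (Sum.elim MvPolynomial.X (fun l => MvPolynomial.C (c l)) : A ⊕ T → MvPolynomial A κ) p) ↔
      π ∣ p := by
  letI : Algebra (MvPolynomial T k) κ := (MvPolynomial.aeval c).toRingHom.toAlgebra
  have halg : ∀ r : MvPolynomial T k, algebraMap (MvPolynomial T k) κ r =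
      MvPolynomial.aeval c r := fun r => rfl
  have : IsFractionRing (MvPolynomial T k) κ := by
    have : FaithfulSMul (MvPolynomial T k) κ := by
      rw [faithfulSMul_iff_algebraMap_injective]
      exact hc
    refine IsFractionRing.of_field (MvPolynomial T k) κ ?_
    intro z
    have hz : z ∈ IntermediateField.adjoin k (Set.range c) := by rw [hgen]; trivial
    obtain ⟨r, s, hrs⟩ := (IntermediateField.mem_adjoin_range_iff k c z).1 hz
    exact ⟨r, s, by rw [halg, halg]; exact hrs⟩
  set E := MvPolynomial.sumAlgEquiv k A T with hE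
  have hfac : ∀ p : MvPolynomial (A ⊕ T) k, MvPolynomial.aeval
      (Sum.elim MvPolynomial.X (fun l => MvPolynomial.C (c l)) : A ⊕ T → MvPolynomial A κ) p =
      MvPolynomial.map (algebraMap (MvPolynomial T k) κ) (E p) := by
    intro p
    induction p using MvPolynomial.induction_on with
    | C r =>
      rw [MvPolynomial.aeval_C, hE, MvPolynomial.sumAlgEquiv_C_inl, MvPolynomial.map_C, halg,
        MvPolynomial.aeval_C]
      rfl
    | add p q hp hq => rw [map_add, map_add, map_add, hp, hq]
    | mul_X p v hp =>
      rw [map_mul, map_mul, map_mul, hp]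
      congr 1
      rcases v with v | v
      · rw [MvPolynomial.aeval_X, hE, MvPolynomial.sumAlgEquiv_X_inl, MvPolynomial.map_X]
        rfl
      · rw [MvPolynomial.aeval_X, hE, MvPolynomial.sumAlgEquiv_X_inr, MvPolynomial.map_C, halg,
          MvPolynomial.aeval_X]
        rfl
  have hprime : Prime (E π) := (MulEquiv.prime_iff E.toMulEquiv).2 hπ.prime
  have hcore := H1_core (MvPolynomial T k) κ A (E π) hprime (by
    intro r hr hdvd
    have h1 : π ∣ MvPolynomial.rename Sum.inr r := by
      have h2 : E (MvPolynomial.rename Sum.inr r) = MvPolynomial.C r := by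
        have := DFunLike.congr_fun (MvPolynomial.sumAlgEquiv_comp_rename_inr (R := k)
          (S₁ := A) (S₂ := T)) r
        exact this
      rw [← h2] at hdvd
      have := map_dvd E.symm hdvd
      simpa using this
    obtain ⟨q, hq⟩ := h1
    have h3 : MvPolynomial.rename (Sum.inr : T → A ⊕ T) r ≠ 0 := by
      intro h0
      exact hr (MvPolynomial.rename_injective _ Sum.inr_injective (by rw [h0, map_zero]))
    have hq0 : q ≠ 0 := by
      rintro rfl
      rw [mul_zero] at hq
      exact h3 hq
    have h4 : MvPolynomial.degreeOf (Sum.inl a) (MvPolynomial.rename (Sum.inr : T → A ⊕ T) r) =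
        0 := by
      classical
      rw [← Nat.le_zero, MvPolynomial.degreeOf_le_iff]
      intro m hm
      obtain ⟨u, hu, _⟩ := MvPolynomial.coeff_rename_ne_zero _ _ _
        (MvPolynomial.mem_support_iff.1 hm)
      rw [← hu, Finsupp.mapDomain_of_notMem_range]
      rintro ⟨t, ht⟩
      exact Sum.inr_ne_inl ht
    rw [hq, MvPolynomial.degreeOf_mul_eq hπ.ne_zero hq0] at h4
    have h5 : MvPolynomial.degreeOf (Sum.inl a) π ≠ 0 :=
      MvPolynomial.mem_vars_iff_degreeOf_ne_zero.1 ha
    omega)
  constructor
  · rw [hfac]
    exact hcore.1.irreducible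
  · intro p
    constructor
    · intro h
      rw [hfac, hfac] at h
      have := map_dvd E.symm (hcore.2 (E p) h)
      simpa using this
    · exact fun h => map_dvd _ h

end Pool.Agent.LibHP
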