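import Pool.Agent.LibHP5.C4
import Pool.Agent.LibHP5.H1

set_option autoImplicit false

namespace Pool.Agent.LibHP

/-- a field is generated by its generators -/
private theorem H2_adjoin_top (k K : Type) [Field k] [Field K] [Algebra k K] (T : Type) (c : T → K)
    (κ : IntermediateField k K) (hκ : κ = IntermediateField.adjoin k (Set.range c))
    (c' : T → κ) (hc' : ∀ w, (c' w : K) = c w) :
    IntermediateField.adjoin k (Set.range c') = ⊤ := by
  rw [eq_top_iff]
  rintro ⟨z, hz⟩ -
  have h1 : (IntermediateField.adjoin k (Set.range c')).map κ.val =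
      IntermediateField.adjoin k (Set.range c) := by
    rw [IntermediateField.adjoin_map, ← Set.range_comp]
    congr 2
    funext w
    exact hc' w
  have h2 : z ∈ (IntermediateField.adjoin k (Set.range c')).map κ.val := by
    rw [h1, ← hκ]
    exact hz
  obtain ⟨y, hy, hyz⟩ := h2
  have h3 : y = ⟨z, hz⟩ := Subtype.ext hyz
  rw [← h3]
  exact hy

/-- The valuation over a prime divisor `π` of the base, taken from a slice in the direction of a
variable occurring in `π`. -/
theorem exists_valuation_slices (k K σ : Type) [Field k] [CharZero k] [Field K] [Algebra k K]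
    [Fintype σ] [DecidableEq σ] (x : σ → K) (I : Finset σ) (h : HasSlices k K σ x I) (N : ℕ)
    (e : Fin N → σ) (he : Function.Injective e) (hr : ∀ v, v ∈ Set.range e ↔ v ∉ I) (n : ℕ)
    (b : Fin n → σ) (u : Fin 2 → σ) (hu : SliceAt k K σ x I n b u)
    (π : MvPolynomial (Fin N) k) (hπ : Irreducible π) (l : Fin N) (hl : l ∈ π.vars)
    (hul : e l = u 0) :
    ∃ O : ValuationSubring K, IsUnif O (MvPolynomial.aeval (fun l => x (e l)) π) ∧
      (∀ p : MvPolynomial (Fin N) k, MvPolynomial.aeval (fun l => x (e l)) p ∈ O) ∧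
      (∀ p : MvPolynomial (Fin N) k,
        O.valuation (MvPolynomial.aeval (fun l => x (e l)) p) < 1 ↔ π ∣ p) ∧
      ∀ a : IntermediateField.adjoin
        (IntermediateField.adjoin k (x '' {w | w ∉ Set.range u ∧ w ∉ I}))
        (Set.range (fun j => x (b j))), (a : K) ∈ O := by
  classical
  -- the coefficients
  have hcmem : ∀ w : {w : σ // w ∉ Set.range u ∧ w ∉ I},
      x w ∈ IntermediateField.adjoin k (x '' {w | w ∉ Set.range u ∧ w ∉ I}) := fun w =>
    IntermediateField.subset_adjoin _ _ ⟨w, w.2, rfl⟩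
  let c : {w : σ // w ∉ Set.range u ∧ w ∉ I} →
      IntermediateField.adjoin k (x '' {w | w ∉ Set.range u ∧ w ∉ I}) := fun w => ⟨x w, hcmem w⟩
  have hc : AlgebraicIndependent k c := by
    refine AlgebraicIndependent.of_comp
      (IntermediateField.adjoin k (x '' {w | w ∉ Set.range u ∧ w ∉ I})).val ?_
    have h1 := h.indep.comp (fun w : {w : σ // w ∉ Set.range u ∧ w ∉ I} =>
      (⟨w.1, w.2.2⟩ : {u : σ // u ∉ I})) (fun a b hab => by
        have h2 : (a : σ) = b := congrArg (fun z : {u : σ // u ∉ I} => (z : σ)) hab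
        exact Subtype.ext h2)
    exact h1
  have hgen : IntermediateField.adjoin k (Set.range c) = ⊤ := by
    refine H2_adjoin_top k K _ (fun w : {w : σ // w ∉ Set.range u ∧ w ∉ I} => x w) _ ?_ c
      (fun _ => rfl)
    congr 1
    ext z
    constructor
    · rintro ⟨w, hw, rfl⟩
      exact ⟨⟨w, hw⟩, rfl⟩
    · rintro ⟨w, rfl⟩
      exact ⟨w, w.2, rfl⟩
  -- the variables
  let e' : Fin N → {v : σ // v ∉ I} := fun i => ⟨e i, (hr _).1 ⟨i, rfl⟩⟩
  have he' : Function.Bijective e' := by
    constructor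
    · intro a b hab
      exact he (congrArg Subtype.val hab)
    · rintro ⟨v, hv⟩
      obtain ⟨i, hi⟩ := (hr v).2 hv
      exact ⟨i, Subtype.ext hi⟩
  let θ : Fin 2 ⊕ {w : σ // w ∉ Set.range u ∧ w ∉ I} → {v : σ // v ∉ I} :=
    Sum.elim (fun i => ⟨u i, hu.nmem i⟩) (fun w => ⟨w, w.2.2⟩)
  have hθ : Function.Bijective θ := by
    constructor
    · rintro (i | w) (i' | w') hab
      · have h1 : u i = u i' := congrArg Subtype.val hab
        rw [hu.inj h1]
      · have h1 : u i = w' := congrArg Subtype.val hab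
        exact absurd ⟨i, h1⟩ w'.2.1
      · have h1 : (w : σ) = u i' := congrArg Subtype.val hab
        exact absurd ⟨i', h1.symm⟩ w.2.1
      · have h1 : (w : σ) = w' := congrArg (fun z : {v : σ // v ∉ I} => (z : σ)) hab
        rw [Subtype.ext h1]
    · rintro ⟨v, hv⟩
      by_cases hvu : v ∈ Set.range u
      · obtain ⟨i, hi⟩ := hvu
        exact ⟨Sum.inl i, Subtype.ext hi⟩
      · exact ⟨Sum.inr ⟨v, hvu, hv⟩, rfl⟩
  let φ : Fin N ≃ Fin 2 ⊕ {w : σ // w ∉ Set.range u ∧ w ∉ I} :=
    (Equiv.ofBijective e' he').trans (Equiv.ofBijective θ hθ).symm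
  have hφ : ∀ i, θ (φ i) = e' i := fun i => (Equiv.ofBijective θ hθ).apply_symm_apply _
  have hφx : ∀ i, Sum.elim (fun i => x (u i))
      (fun w : {w : σ // w ∉ Set.range u ∧ w ∉ I} => x w) (φ i) = x (e i) := by
    intro i
    have h1 : ((θ (φ i) : {v : σ // v ∉ I}) : σ) = e i := congrArg Subtype.val (hφ i)
    rw [← h1]
    rcases φ i with j | w
    · rfl
    · rfl
  have hφl : φ l = Sum.inl 0 := by
    apply hθ.1
    rw [hφ]
    exact Subtype.ext hul
  -- the polynomial over the field of the coefficients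
  have hirr : Irreducible (MvPolynomial.rename φ π) :=
    (MulEquiv.irreducible_iff (MvPolynomial.renameEquiv k φ)).2 hπ
  have hvars : Sum.inl 0 ∈ (MvPolynomial.rename φ π).vars := by
    have h1 : MvPolynomial.rename φ.symm (MvPolynomial.rename φ π) = π := by
      rw [MvPolynomial.rename_rename, Equiv.symm_comp_self, MvPolynomial.rename_id_apply]
    rw [← h1] at hl
    obtain ⟨i, hi, hil⟩ := MvPolynomial.mem_vars_rename φ.symm _ hl
    have h2 : i = φ l := by rw [← hil, Equiv.apply_symm_apply]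
    rw [← hφl, ← h2]
    exact hi
  obtain ⟨g1, g2⟩ := gauss_slice k (IntermediateField.adjoin k
    (x '' {w | w ∉ Set.range u ∧ w ∉ I})) (Fin 2) _ c hc hgen (MvPolynomial.rename φ π) hirr 0 hvars
  have hchar : CharZero (IntermediateField.adjoin k (x '' {w | w ∉ Set.range u ∧ w ∉ I})) :=
    charZero_of_injective_algebraMap (algebraMap k _).injective
  obtain ⟨O, hO1, hO2, hO3, hO4⟩ := hu.good.valuation _ g1
  have hspec : ∀ p : MvPolynomial (Fin N) k,
      MvPolynomial.aeval (fun i => x (u i)) (MvPolynomial.aeval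
        (Sum.elim MvPolynomial.X (fun l => MvPolynomial.C (c l)) :
          Fin 2 ⊕ {w : σ // w ∉ Set.range u ∧ w ∉ I} → MvPolynomial (Fin 2)
            (IntermediateField.adjoin k (x '' {w | w ∉ Set.range u ∧ w ∉ I})))
        (MvPolynomial.rename φ p)) = MvPolynomial.aeval (fun l => x (e l)) p := by
    intro p
    have h1 := MvPolynomial.comp_aeval (R := k)
      (Sum.elim MvPolynomial.X (fun l => MvPolynomial.C (c l)) :
          Fin 2 ⊕ {w : σ // w ∉ Set.range u ∧ w ∉ I} → MvPolynomial (Fin 2)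
            (IntermediateField.adjoin k (x '' {w | w ∉ Set.range u ∧ w ∉ I})))
      ((MvPolynomial.aeval (fun i => x (u i)) : MvPolynomial (Fin 2)
        (IntermediateField.adjoin k (x '' {w | w ∉ Set.range u ∧ w ∉ I})) →ₐ[
          IntermediateField.adjoin k (x '' {w | w ∉ Set.range u ∧ w ∉ I})] K).restrictScalars k)
    have h2 := congrArg (fun g => g (MvPolynomial.rename φ p)) h1
    refine Eq.trans h2 ?_
    show MvPolynomial.aeval _ (MvPolynomial.rename φ p) = _
    rw [MvPolynomial.aeval_rename]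
    congr 2
    funext i
    show MvPolynomial.aeval (fun i => x (u i)) (Sum.elim MvPolynomial.X
      (fun l => MvPolynomial.C (c l)) (φ i)) = x (e i)
    rw [← hφx i]
    rcases φ i with j | w
    · rw [Sum.elim_inl, Sum.elim_inl, MvPolynomial.aeval_X]
    · rw [Sum.elim_inr, Sum.elim_inr, MvPolynomial.aeval_C]
      rfl
  refine ⟨O, ?_, ?_, ?_, hO4⟩
  · rw [← hspec]
    exact hO1
  · intro p
    rw [← hspec]
    exact hO2 _
  · intro p
    rw [← hspec, hO3, g2]
    exact map_dvd_iff (MvPolynomial.renameEquiv k φ)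

end Pool.Agent.LibHP
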