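import Pool.Agent.LibHP5.C4
import Pool.Agent.LibHP3.U1
import Pool.Agent.LibHP3.U3

set_option autoImplicit false

namespace Pool.Agent.LibHP

/-- The field over `κ₀ = k(x w : w ∉ I, w not in u)` generated by `x u` is `k(x w : w ∉ I)`. -/
theorem H3_restrict (k K σ : Type) [Field k] [Field K] [Algebra k K] (x : σ → K) (I : Finset σ)
    (u : Fin 2 → σ) (hu : ∀ i, u i ∉ I) :
    (IntermediateField.adjoin (IntermediateField.adjoin k (x '' {w | w ∉ Set.range u ∧ w ∉ I}))
      (Set.range fun i => x (u i))).restrictScalars k =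
      IntermediateField.adjoin k (x '' {w | w ∉ I}) := by
  rw [IntermediateField.adjoin_adjoin_left]
  congr 1
  ext z
  simp only [Set.mem_union, Set.mem_image, Set.mem_ofPred_eq, Set.mem_range]
  constructor
  · rintro (⟨w, ⟨-, hw⟩, rfl⟩ | ⟨i, rfl⟩)
    · exact ⟨w, hw, rfl⟩
    · exact ⟨u i, hu i, rfl⟩
  · rintro ⟨w, hw, rfl⟩
    by_cases h : ∃ i, u i = w
    · obtain ⟨i, rfl⟩ := h
      exact Or.inr ⟨i, rfl⟩
    · exact Or.inl ⟨w, ⟨h, hw⟩, rfl⟩

/-- `K` is the function field of a quadric over the field of the coordinates outside of `I`. -/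
theorem hasQuad_slices (k K σ : Type) [Field k] [CharZero k] [Field K] [Algebra k K]
    [Fintype σ] [DecidableEq σ] (x : σ → K) (I : Finset σ) (h : HasSlices k K σ x I) :
    HasQuad (IntermediateField.adjoin k (x '' {u | u ∉ I})) K := by
  obtain ⟨v, hv⟩ := h.ne
  obtain ⟨n, b, -, hs⟩ := h.slice
  obtain ⟨u, -, hu⟩ := hs v hv
  have hc : CharZero (IntermediateField.adjoin k (x '' {w | w ∉ Set.range u ∧ w ∉ I})) :=
    charZero_of_injective_algebraMap
      (algebraMap k (IntermediateField.adjoin k (x '' {w | w ∉ Set.range u ∧ w ∉ I}))).injective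
  have h1 := hu.good.hasQuad
  have h2 : HasQuad ((IntermediateField.adjoin
      (IntermediateField.adjoin k (x '' {w | w ∉ Set.range u ∧ w ∉ I}))
      (Set.range fun i => x (u i))).restrictScalars k) K := h1
  rw [H3_restrict k K σ x I u hu.nmem] at h2
  exact h2

/-- Elements of the field generated by `T` are algebraic over any subalgebra of `K` in which the
generators are algebraic. -/
theorem H3_alg {k K A : Type} [Field k] [Field K] [Algebra k K] [CommRing A] [IsDomain A]
    [Algebra A K] [FaithfulSMul A K] (T : Set K) (hk : ∀ c : k, IsAlgebraic A (algebraMap k K c))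
    (hT : ∀ z ∈ T, IsAlgebraic A z) (z : K) (hz : z ∈ IntermediateField.adjoin k T) :
    IsAlgebraic A z := by
  induction hz using IntermediateField.adjoin_induction with
  | mem z hz => exact hT z hz
  | algebraMap c => exact hk c
  | add a b _ _ ha hb => exact ha.add hb
  | inv a _ ha => exact ha.inv
  | mul a b _ _ ha hb => exact ha.mul hb

/-- Independent elements are a transcendence basis of the field which they generate. -/
theorem H3_basis (k K σ : Type) [Field k] [Field K] [Algebra k K] (x : σ → K) (A : Set σ)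
    (h : AlgebraicIndependent k (fun u : A => x u)) :
    IsTranscendenceBasis k (fun u : A => (⟨x u, IntermediateField.subset_adjoin k _
      ⟨u, u.2, rfl⟩⟩ : IntermediateField.adjoin k (x '' A))) := by
  set M := IntermediateField.adjoin k (x '' A) with hM
  set y : A → M := fun u => (⟨x u, IntermediateField.subset_adjoin k _ ⟨u, u.2, rfl⟩⟩ : M) with hy
  have hind : AlgebraicIndependent k y := by
    refine AlgebraicIndependent.of_comp M.val ?_
    exact h
  rw [hind.isTranscendenceBasis_iff_isAlgebraic]
  refine ⟨fun z => ?_⟩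
  have h1 : ∀ (z : K) (hz : z ∈ IntermediateField.adjoin k (x '' A)),
      IsAlgebraic (Algebra.adjoin k (Set.range y)) (⟨z, hz⟩ : M) := by
    intro z hz
    refine IntermediateField.adjoin_induction (F := k) (s := x '' A)
      (p := fun z hz => IsAlgebraic (Algebra.adjoin k (Set.range y)) (⟨z, hz⟩ : M))
      ?_ ?_ ?_ ?_ ?_ hz
    · rintro _ ⟨u, hu, rfl⟩
      exact isAlgebraic_algebraMap (⟨y ⟨u, hu⟩, Algebra.subset_adjoin ⟨⟨u, hu⟩, rfl⟩⟩ :
        Algebra.adjoin k (Set.range y))
    · intro c
      exact isAlgebraic_algebraMap (algebraMap k (Algebra.adjoin k (Set.range y)) c)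
    · intro a b ha' hb' ha hb
      exact ha.add hb
    · intro a ha' ha
      exact ha.inv
    · intro a b ha' hb' ha hb
      exact ha.mul hb
  exact h1 z z.2

/-- There is a family of embeddings moving a transcendence basis independently. -/
theorem exists_independent_embedding_slices (k K σ : Type) [Field k] [CharZero k] [Field K]
    [Algebra k K] [Fintype σ] [DecidableEq σ] (x : σ → K) (I : Finset σ)
    (h : HasSlices k K σ x I) :
    ∃ (U : Set σ) (r : ℕ) (F' : K →+* RF K r),
      IsTranscendenceBasis k (fun u : U => x u) ∧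
      (∀ c : k, F' (algebraMap k K c) = algebraMap K (RF K r) (algebraMap k K c)) ∧
      AlgebraicIndependent K (fun u : U => F' (x u)) := by
  classical
  have key : ∀ T : Finset σ, (∀ v ∈ T, v ∉ I) → ∃ (r : ℕ) (F' : K →+* RF K r),
      (∀ c : k, F' (algebraMap k K c) = algebraMap K (RF K r) (algebraMap k K c)) ∧
      AlgebraicIndependent K (fun u : (T : Set σ) => F' (x u)) := by
    intro T
    induction T using Finset.induction_on with
    | empty =>
      intro _
      refine ⟨0, algebraMap K (RF K 0), fun c => rfl, ?_⟩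
      have : IsEmpty ((∅ : Finset σ) : Set σ) := by simp
      rw [algebraicIndependent_empty_type_iff]
      exact (algebraMap K (RF K 0)).injective
    | insert v T hvT ih =>
      intro hT
      obtain ⟨r, F', h1, h2⟩ := ih (fun u hu => hT u (Finset.mem_insert_of_mem hu))
      have hv : v ∉ I := hT v (Finset.mem_insert_self v T)
      obtain ⟨n, b, -, hs⟩ := h.slice
      obtain ⟨u, hu0, hu⟩ := hs v hv
      have hc : CharZero (IntermediateField.adjoin k (x '' {w | w ∉ Set.range u ∧ w ∉ I})) :=
        charZero_of_injective_algebraMap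
          (algebraMap k (IntermediateField.adjoin k
            (x '' {w | w ∉ Set.range u ∧ w ∉ I}))).injective
      obtain ⟨m, Φ, h3, h4⟩ := hu.good.family
      have h5 : AlgebraicIndependent K (fun w : (Set.range u : Set σ) => Φ (x w)) :=
        (algebraicIndependent_equiv' (Equiv.ofInjective u hu.inj) rfl).1 h4
      obtain ⟨F'', h6, h7⟩ := step_independent k K σ x r F' h1 (T : Set σ) h2 m Φ
        (fun c => h3 (algebraMap k _ c)) (Set.range u)
        (fun w hw hwu => h3 ⟨x w, IntermediateField.subset_adjoin k _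
          ⟨w, ⟨hwu, hT w (Finset.mem_insert_of_mem hw)⟩, rfl⟩⟩) h5
      refine ⟨r + m, F'', h6, ?_⟩
      have hsub : ∀ w : ((insert v T : Finset σ) : Set σ), (w : σ) ∈ (T : Set σ) ∪ Set.range u := by
        rintro ⟨w, hw⟩
        rcases Finset.mem_insert.1 hw with rfl | hw
        · exact Or.inr ⟨0, hu0⟩
        · exact Or.inl hw
      exact h7.comp (fun w : ((insert v T : Finset σ) : Set σ) =>
        (⟨w, hsub w⟩ : ((T : Set σ) ∪ Set.range u : Set σ)))
        (fun a b hab => Subtype.ext (by simpa using hab))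
  obtain ⟨r, F', h1, h2⟩ := key (Finset.univ \ I) (fun v hv => (Finset.mem_sdiff.1 hv).2)
  have hcoe : ((Finset.univ \ I : Finset σ) : Set σ) = {u | u ∉ I} := by
    ext u
    simp
  rw [hcoe] at h2
  set M := IntermediateField.adjoin k (x '' {u | u ∉ I}) with hM
  have hcM : CharZero M :=
    charZero_of_injective_algebraMap (algebraMap k M).injective
  have hmem : ∀ c : K, c ∈ IntermediateField.adjoin k (Set.range x) := by
    intro c
    rw [h.gen]
    exact IntermediateField.mem_top
  have halg : Algebra.IsAlgebraic (Algebra.adjoin M (x '' (I : Set σ))) K := by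
    refine ⟨fun z => H3_alg (Set.range x) (fun c => ?_) ?_ z (hmem z)⟩
    · exact isAlgebraic_algebraMap (algebraMap M (Algebra.adjoin M (x '' (I : Set σ)))
        (algebraMap k M c))
    · rintro _ ⟨w, rfl⟩
      by_cases hw : w ∈ I
      · exact isAlgebraic_algebraMap (⟨x w, Algebra.subset_adjoin ⟨w, hw, rfl⟩⟩ :
          Algebra.adjoin M (x '' (I : Set σ)))
      · exact isAlgebraic_algebraMap (algebraMap M (Algebra.adjoin M (x '' (I : Set σ)))
          ⟨x w, IntermediateField.subset_adjoin k _ ⟨w, hw, rfl⟩⟩)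
  obtain ⟨t, htI, ht⟩ := exists_isTranscendenceBasis_subset (R := M) (x '' (I : Set σ))
  obtain ⟨S, hSI, hS⟩ := (show Set.SurjOn x (I : Set σ) t from htI).exists_bijOn_subset
  have hSb : IsTranscendenceBasis M (fun u : S => x u) := by
    rw [isTranscendenceBasis_image hS.injOn, hS.image_eq]
    exact ht
  obtain ⟨m, Φ, h3, h4, -⟩ := exists_family_quad M K (hasQuad_slices k K σ x I h) S
    (fun u => x u) hSb
  obtain ⟨F'', h6, h7⟩ := step_independent k K σ x r F' h1 _ h2 m Φ
    (fun c => h3 (algebraMap k _ c)) S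
    (fun u hu _ => h3 ⟨x u, IntermediateField.subset_adjoin k _ ⟨u, hu, rfl⟩⟩) h4
  refine ⟨_, r + m, F'', ?_, h6, h7⟩
  have h8 := (H3_basis k K σ x {u | u ∉ I} h.indep).sumElim_comp hSb
  have hdisj : Disjoint ({u | u ∉ I} : Set σ) S := by
    rw [Set.disjoint_left]
    intro a ha haS
    exact ha (hSI haS)
  refine (isTranscendenceBasis_equiv'
    ((Equiv.Set.union hdisj).trans (Equiv.sumComm _ _)) ?_).2 h8
  funext u
  by_cases hu : (u : σ) ∈ ({u | u ∉ I} : Set σ)
  · simp only [Function.comp_apply, Equiv.trans_apply, Equiv.Set.union_apply_left hdisj hu,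
      Equiv.sumComm_apply, Sum.swap_inl, Sum.elim_inr]
    rfl
  · have hu' : (u : σ) ∈ S := u.2.resolve_left hu
    simp only [Function.comp_apply, Equiv.trans_apply, Equiv.Set.union_apply_right hdisj hu',
      Equiv.sumComm_apply, Sum.swap_inr, Sum.elim_inl]

end Pool.Agent.LibHP
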