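import Pool.Agent.LibHP2.W6
import Pool.Agent.LibHP2.W8
import Pool.Agent.LibHP3.R4
import Pool.Agent.LibHP5.H2
import Pool.Agent.LibHP5.H3

set_option autoImplicit false

namespace Pool.Agent.LibHP

/-- Every extension of the function field with the lifting property and of minimal degree is
trivial. -/
theorem surjective_of_slices (k K σ : Type) [Field k] [CharZero k] [Field K] [Algebra k K]
    [Fintype σ] [DecidableEq σ] (x : σ → K) (I : Finset σ) (h : HasSlices k K σ x I)
    (L : Type) [Field L] [Algebra K L] [FiniteDimensional K L]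
    (N : ℕ) (j : L →+* RF k N)
    (hj : ∀ e : RF k N, (∃ P : Polynomial L, P ≠ 0 ∧ P.eval₂ j e = 0) → ∃ l, j l = e)
    (hjk : ∀ c : k, j (algebraMap K L (algebraMap k K c)) = algebraMap k (RF k N) c)
    (hlift : LiftProp k K L)
    (hmin : ∀ (n' : ℕ) (F' : K →ₐ[k] RF k n'), Module.finrank K L ≤ dF F'.toRingHom) :
    Function.Surjective (algebraMap K L) := by
  classical
  have hk : ∀ z : L, (∃ P : Polynomial k, P ≠ 0 ∧
        P.eval₂ ((algebraMap K L).comp (algebraMap k K)) z = 0) →
      ∃ c : k, algebraMap K L (algebraMap k K c) = z := by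
    rintro z ⟨P, hP, hPz⟩
    obtain ⟨c, hc⟩ := W8_const k N (j z) ⟨P, hP, by
      have h4 := congrArg j hPz
      rw [Polynomial.hom_eval₂, map_zero] at h4
      have h5 : j.comp ((algebraMap K L).comp (algebraMap k K)) = algebraMap k (RF k N) :=
        RingHom.ext hjk
      rw [h5] at h4
      exact h4⟩
    refine ⟨c, j.injective ?_⟩
    rw [← hc]
    exact hjk c
  have hchar : CharZero (IntermediateField.adjoin k (x '' {v | v ∉ I})) :=
    charZero_of_injective_algebraMap
      (algebraMap k (IntermediateField.adjoin k (x '' {v | v ∉ I}))).injective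
  let _ : Algebra k L := ((algebraMap K L).comp (algebraMap k K)).toAlgebra
  have hst : IsScalarTower k K L := IsScalarTower.of_algebraMap_eq' rfl
  obtain ⟨n, hn, B, y, hB, hdet, hy⟩ := hasQuad_slices k K σ x I h
  have hgen0 : Subfield.closure (Set.range (algebraMap K L) ∪
      {z : L | IsAlgebraic (IntermediateField.adjoin k (x '' {v | v ∉ I})) z}) = ⊤ :=
    adjoin_of_quadric _ K L n hn B hB hdet y hy (W6_lift hlift)
  have hcl : ∀ c : K, IsAlgebraic (IntermediateField.adjoin k (x '' {v | v ∉ I})) c →
      ∃ a : IntermediateField.adjoin k (x '' {v | v ∉ I}), algebraMap _ K a = c := by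
    intro c hc
    exact quad_algClosed _ K n hn B hB hdet y hy c hc
  obtain ⟨m, ⟨eq⟩⟩ : ∃ m : ℕ, Nonempty (Fin m ≃ {v : σ // v ∉ I}) :=
    ⟨_, ⟨(Fintype.equivFin {v : σ // v ∉ I}).symm⟩⟩
  let e : Fin m → σ := fun j => (eq j).1
  have he : Function.Injective e := Subtype.val_injective.comp eq.injective
  have hrange : ∀ v, v ∈ Set.range e ↔ v ∉ I := by
    intro v
    constructor
    · rintro ⟨j, rfl⟩
      exact (eq j).2
    · intro hv
      exact ⟨eq.symm ⟨v, hv⟩, by simp [e]⟩
  have hset : x '' {v | v ∉ I} = Set.range (fun j => x (e j)) := by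
    ext z
    constructor
    · rintro ⟨v, hv, rfl⟩
      obtain ⟨j, hj⟩ := (hrange v).2 hv
      exact ⟨j, by simp only [hj]⟩
    · rintro ⟨j, rfl⟩
      exact ⟨e j, (hrange (e j)).1 ⟨j, rfl⟩, rfl⟩
  have hind : AlgebraicIndependent k (fun j => x (e j)) := h.indep.comp eq eq.injective
  have hmem : ∀ j, x (e j) ∈ IntermediateField.adjoin k (x '' {v | v ∉ I}) := fun j =>
    IntermediateField.subset_adjoin k _ ⟨e j, (hrange (e j)).1 ⟨j, rfl⟩, rfl⟩
  let f1 : MvPolynomial (Fin m) k →ₐ[k] IntermediateField.adjoin k (x '' {v | v ∉ I}) :=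
    MvPolynomial.aeval fun j => ⟨x (e j), hmem j⟩
  have hf1 : ∀ p, ((f1 p : IntermediateField.adjoin k (x '' {v | v ∉ I})) : K) =
      MvPolynomial.aeval (fun j => x (e j)) p := by
    intro p
    exact MvPolynomial.comp_aeval_apply
      (φ := (IntermediateField.adjoin k (x '' {v | v ∉ I})).val)
      (f := fun j => (⟨x (e j), hmem j⟩ :
        IntermediateField.adjoin k (x '' {v | v ∉ I}))) (p := p)
  let _ : Algebra (MvPolynomial (Fin m) k)
      (IntermediateField.adjoin k (x '' {v | v ∉ I})) := f1.toRingHom.toAlgebra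
  have halg : ∀ p, algebraMap (MvPolynomial (Fin m) k)
      (IntermediateField.adjoin k (x '' {v | v ∉ I})) p = f1 p := fun _ => rfl
  have hinj : Function.Injective (algebraMap (MvPolynomial (Fin m) k)
      (IntermediateField.adjoin k (x '' {v | v ∉ I}))) := by
    intro p q h
    apply algebraicIndependent_iff_injective_aeval.1 hind
    rw [← hf1, ← hf1]
    exact congrArg _ h
  have hfaith : FaithfulSMul (MvPolynomial (Fin m) k)
      (IntermediateField.adjoin k (x '' {v | v ∉ I})) :=
    (faithfulSMul_iff_algebraMap_injective _ _).2 hinj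
  have hfrac : IsFractionRing (MvPolynomial (Fin m) k)
      (IntermediateField.adjoin k (x '' {v | v ∉ I})) := by
    apply IsFractionRing.of_field
    intro z
    have hfr : ∀ z : K, z ∈ IntermediateField.adjoin k (x '' {v | v ∉ I}) →
        ∃ r s : MvPolynomial (Fin m) k, z = MvPolynomial.aeval (fun j => x (e j)) r /
          MvPolynomial.aeval (fun j => x (e j)) s := by
      intro z hz
      rwa [hset, IntermediateField.mem_adjoin_range_iff] at hz
    obtain ⟨r, s, h⟩ := hfr z z.2
    refine ⟨r, s, ?_⟩
    apply Subtype.ext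
    rw [halg, halg, IntermediateField.coe_div, hf1, hf1, h]
  have hfin : FiniteDimensional (IntermediateField.adjoin k (x '' {v | v ∉ I}))
      (algebraicClosure (IntermediateField.adjoin k (x '' {v | v ∉ I})) L) :=
    finite_algebraicClosure _ K L hcl
  obtain ⟨nb, b, hb, hsl⟩ := h.slice
  refine surjective_core_unram k m (IntermediateField.adjoin k (x '' {v | v ∉ I})) K L
    hcl hgen0 ?_ ?_
  · have hcomp : ∀ c : k, algebraMap (IntermediateField.adjoin k (x '' {v | v ∉ I})) L
        (algebraMap (MvPolynomial (Fin m) k) (IntermediateField.adjoin k (x '' {v | v ∉ I}))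
          (MvPolynomial.C c)) = algebraMap K L (algebraMap k K c) := by
      intro c
      rw [IsScalarTower.algebraMap_apply (IntermediateField.adjoin k (x '' {v | v ∉ I})) K L,
        halg]
      congr 1
      change ((f1 (MvPolynomial.C c) :
        IntermediateField.adjoin k (x '' {v | v ∉ I})) : K) = _
      rw [hf1, MvPolynomial.aeval_C]
    rintro z ⟨P, hP, hPz⟩
    obtain ⟨c, hc⟩ := hk z ⟨P, hP, by
      rw [← hPz]
      congr 1
      ext c
      exact (hcomp c).symm⟩
    exact ⟨c, (hcomp c).trans hc⟩
  · intro π hπ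
    obtain ⟨l, hl⟩ := W6_exists_vars π hπ
    obtain ⟨u, hu0, hu⟩ := hsl (e l) ((hrange (e l)).1 ⟨l, rfl⟩)
    obtain ⟨O, h1, h2, h3, h4⟩ := exists_valuation_slices k K σ x I h m e he hrange nb b u hu π hπ
      l hl hu0.symm
    have hcomp : ∀ p : MvPolynomial (Fin m) k,
        algebraMap (IntermediateField.adjoin k (x '' {v | v ∉ I})) K
          (algebraMap (MvPolynomial (Fin m) k)
            (IntermediateField.adjoin k (x '' {v | v ∉ I})) p) =
        MvPolynomial.aeval (fun j => x (e j)) p := hf1
    have hcompL : ∀ p : MvPolynomial (Fin m) k,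
        algebraMap (IntermediateField.adjoin k (x '' {v | v ∉ I})) L
          (algebraMap (MvPolynomial (Fin m) k)
            (IntermediateField.adjoin k (x '' {v | v ∉ I})) p) =
        algebraMap K L (MvPolynomial.aeval (fun j => x (e j)) p) := by
      intro p
      rw [IsScalarTower.algebraMap_apply (IntermediateField.adjoin k (x '' {v | v ∉ I})) K L,
        hcomp]
    refine ⟨O, ?_, ?_, ?_, ?_⟩
    · rw [hcomp]
      exact h1
    · intro p
      rw [hcomp]
      exact h2 p
    · intro p
      rw [hcomp]
      exact h3 p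
    · intro W hW
      rw [hcompL]
      have hcκ : CharZero (IntermediateField.adjoin k (x '' {w | w ∉ Set.range u ∧ w ∉ I})) :=
        charZero_of_injective_algebraMap (algebraMap k _).injective
      have hcM : CharZero (IntermediateField.adjoin
          (IntermediateField.adjoin k (x '' {w | w ∉ Set.range u ∧ w ∉ I}))
          (Set.range (fun j => x (b j)))) :=
        charZero_of_injective_algebraMap (algebraMap
          (IntermediateField.adjoin k (x '' {w | w ∉ Set.range u ∧ w ∉ I})) _).injective
      have hgen := hu.good.gen N j hj hjk hlift hmin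
      exact unram_of_subfield (IntermediateField.adjoin
          (IntermediateField.adjoin k (x '' {w | w ∉ Set.range u ∧ w ∉ I}))
          (Set.range (fun j => x (b j)))) K L hgen O _ h1 (fun a => h4 a) W hW

end Pool.Agent.LibHP
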