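import Pool.Agent.LibHP5.Defs
import Pool.Agent.LibHP2.G5

set_option autoImplicit false

namespace Pool.Agent.LibHP

theorem S1_slicePt_e {τ ι A : Type} [CommRing A] (g : τ → ι) (J : ι) {n : ℕ}
    (e : Fin (2 + 1) → τ) (b : Fin (n + 1) → τ) (he : Function.Injective e) (c : τ → A)
    (α : Fin (2 + 1) → A) (β : Fin (n + 1) → A) (i : Fin (2 + 1)) :
    slicePt g J e b c α β (e i) = α i := by
  classical
  have h : ∃ i', e i' = e i := ⟨i, rfl⟩
  unfold slicePt
  rw [dif_pos h]
  exact congrArg α (he h.choose_spec)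

theorem S1_slicePt_b {τ ι A : Type} [CommRing A] (g : τ → ι) (J : ι) {n : ℕ}
    (e : Fin (2 + 1) → τ) (b : Fin (n + 1) → τ) (hb : Function.Injective b) (c : τ → A)
    (α : Fin (2 + 1) → A) (β : Fin (n + 1) → A) (j : Fin (n + 1)) (hj : ∀ i, e i ≠ b j) :
    slicePt g J e b c α β (b j) = β j := by
  classical
  have h : ¬ ∃ i', e i' = b j := fun ⟨i', hi'⟩ => hj i' hi'
  have h2 : ∃ j', b j' = b j := ⟨j, rfl⟩
  unfold slicePt
  rw [dif_neg h, dif_pos h2]
  exact congrArg β (hb h2.choose_spec)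

theorem S1_slicePt_J {τ ι A : Type} [CommRing A] (g : τ → ι) (J : ι) {n : ℕ}
    (e : Fin (2 + 1) → τ) (b : Fin (n + 1) → τ) (c : τ → A)
    (α : Fin (2 + 1) → A) (β : Fin (n + 1) → A) (w : τ) (h1 : ∀ i, e i ≠ w)
    (h2 : ∀ j, b j ≠ w) (h3 : g w = J) :
    slicePt g J e b c α β w = c w * α 0 := by
  classical
  unfold slicePt
  rw [dif_neg (fun ⟨i, hi⟩ => h1 i hi), dif_neg (fun ⟨j, hj⟩ => h2 j hj), if_pos h3]

theorem S1_slicePt_o {τ ι A : Type} [CommRing A] (g : τ → ι) (J : ι) {n : ℕ}
    (e : Fin (2 + 1) → τ) (b : Fin (n + 1) → τ) (c : τ → A)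
    (α : Fin (2 + 1) → A) (β : Fin (n + 1) → A) (w : τ) (h1 : ∀ i, e i ≠ w)
    (h2 : ∀ j, b j ≠ w) (h3 : g w ≠ J) :
    slicePt g J e b c α β w = c w := by
  classical
  unfold slicePt
  rw [dif_neg (fun ⟨i, hi⟩ => h1 i hi), dif_neg (fun ⟨j, hj⟩ => h2 j hj), if_neg h3]

/-- The values of the form of the slice. -/
theorem aeval_sliceForm {k κ τ ι : Type} [Field k] [Field κ] [Algebra k κ] (g : τ → ι) (J : ι)
    {n : ℕ} (e : Fin (2 + 1) → τ) (b : Fin (n + 1) → τ) (c : τ → κ) (F : MvPolynomial τ k)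
    {A : Type} [CommRing A] [Algebra k A] [Algebra κ A] [IsScalarTower k κ A]
    (α : Fin (2 + 1) → A) (β : Fin (n + 1) → A) :
    MvPolynomial.aeval (Sum.elim α β) (sliceForm g J e b c F) =
      MvPolynomial.aeval (slicePt g J e b (fun w => algebraMap κ A (c w)) α β) F := by
  classical
  have h : ((MvPolynomial.aeval (Sum.elim α β) :
      MvPolynomial (Fin (2 + 1) ⊕ Fin (n + 1)) κ →ₐ[κ] A).restrictScalars k).comp
      (MvPolynomial.aeval (slicePt g J e b (fun w => MvPolynomial.C (c w))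
        (fun i => MvPolynomial.X (Sum.inl i)) (fun j => MvPolynomial.X (Sum.inr j)))) =
      MvPolynomial.aeval (slicePt g J e b (fun w => algebraMap κ A (c w)) α β) := by
    apply MvPolynomial.algHom_ext
    intro w
    rw [AlgHom.comp_apply, MvPolynomial.aeval_X, MvPolynomial.aeval_X,
      AlgHom.restrictScalars_apply]
    unfold slicePt
    split_ifs with h1 h2 h3
    · rw [MvPolynomial.aeval_X, Sum.elim_inl]
    · rw [MvPolynomial.aeval_X, Sum.elim_inr]
    · rw [map_mul, MvPolynomial.aeval_X, Sum.elim_inl, MvPolynomial.aeval_C]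
    · rw [MvPolynomial.aeval_C]
  exact congrArg (fun f => f F) h

theorem S1_bihom_X {N : Type} [Field N] {m n : ℕ} (i : Fin (m + 1)) :
    IsBihom 1 0 (MvPolynomial.X (Sum.inl i) : MvPolynomial (Fin (m + 1) ⊕ Fin (n + 1)) N) := by
  rw [G8a_isBihom_iff]
  exact ⟨MvPolynomial.isWeightedHomogeneous_X _ _ _, MvPolynomial.isWeightedHomogeneous_X _ _ _⟩

theorem S1_bihom_pow {N : Type} [Field N] {m n : ℕ} {d e : ℕ}
    {F : MvPolynomial (Fin (m + 1) ⊕ Fin (n + 1)) N} (hF : IsBihom d e F) (k : ℕ) :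
    IsBihom (d * k) (e * k) (F ^ k) := by
  rw [G8a_isBihom_iff] at *
  rw [mul_comm d, mul_comm e]
  exact ⟨hF.1.pow k, hF.2.pow k⟩

theorem S1_bihom_prod {N σ : Type} [Field N] {m n : ℕ} (s : Finset σ) {d e : σ → ℕ}
    {F : σ → MvPolynomial (Fin (m + 1) ⊕ Fin (n + 1)) N} (hF : ∀ i ∈ s, IsBihom (d i) (e i) (F i)) :
    IsBihom (∑ i ∈ s, d i) (∑ i ∈ s, e i) (∏ i ∈ s, F i) := by
  rw [G8a_isBihom_iff]
  exact ⟨MvPolynomial.IsWeightedHomogeneous.prod _ _ _ fun i hi =>
      ((G8a_isBihom_iff _).1 (hF i hi)).1,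
    MvPolynomial.IsWeightedHomogeneous.prod _ _ _ fun i hi => ((G8a_isBihom_iff _).1 (hF i hi)).2⟩

/-- The bidegree of the slice. -/
theorem isBihom_sliceForm {k κ τ ι : Type} [Field k] [Field κ] [Algebra k κ] [Fintype τ]
    [DecidableEq ι] (g : τ → ι) (I J : ι) (hIJ : I ≠ J)
    {n : ℕ} (e : Fin (2 + 1) → τ) (b : Fin (n + 1) → τ) (he : ∀ i, g (e i) = J)
    (hb : ∀ v, v ∈ Set.range b ↔ g v = I) (c : τ → κ) (d : ι → ℕ) (F : MvPolynomial τ k)
    (hF : IsMultiHom g d F) : IsBihom (d J) (d I) (sliceForm g J e b c F) := by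
  classical
  have h1 : ∀ w, IsBihom (if g w = J then 1 else 0) (if g w = I then 1 else 0)
      (slicePt g J e b (fun w => MvPolynomial.C (c w))
        (fun i => MvPolynomial.X (Sum.inl i)) (fun j => MvPolynomial.X (Sum.inr j)) w :
        MvPolynomial (Fin (2 + 1) ⊕ Fin (n + 1)) κ) := by
    intro w
    unfold slicePt
    by_cases h1 : ∃ i, e i = w
    · rw [dif_pos h1]
      obtain ⟨i, hi⟩ := h1
      have h2 : g w = J := hi ▸ he i
      rw [if_pos h2, if_neg (fun h => hIJ (h.symm.trans h2))]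
      exact S1_bihom_X _
    · rw [dif_neg h1]
      by_cases h2 : ∃ j, b j = w
      · rw [dif_pos h2]
        have h3 : g w = I := (hb w).mp h2
        rw [if_pos h3, if_neg (fun h => hIJ (h3.symm.trans h))]
        exact G5_bihom_X _
      · rw [dif_neg h2]
        have h3 : g w ≠ I := fun h => h2 ((hb w).mpr h)
        by_cases h4 : g w = J
        · rw [if_pos h4, if_pos h4, if_neg h3]
          exact G5_bihom_mul (d := 0) (e := 0) (G5_bihom_C _) (S1_bihom_X _)
        · rw [if_neg h4, if_neg h4, if_neg h3]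
          exact G5_bihom_C _
  unfold sliceForm
  rw [F.as_sum, map_sum]
  apply G5_bihom_sum
  intro s hs
  rw [MvPolynomial.aeval_monomial, Finsupp.prod_fintype _ _ (fun _ => pow_zero _)]
  have h2 := G5_bihom_mul (G5_bihom_C (m := 2) (n := n) (algebraMap k κ (F.coeff s)))
    (S1_bihom_prod Finset.univ (fun w _ => S1_bihom_pow (h1 w) (s w)))
  have h3 : 0 + ∑ w, (if g w = J then 1 else 0) * s w = d J := by
    rw [zero_add, ← hF s hs J, Finset.sum_filter]
    apply Finset.sum_congr rfl
    intro w _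
    split_ifs <;> simp
  have h4 : 0 + ∑ w, (if g w = I then 1 else 0) * s w = d I := by
    rw [zero_add, ← hF s hs I, Finset.sum_filter]
    apply Finset.sum_congr rfl
    intro w _
    split_ifs <;> simp
  rw [h3, h4] at h2
  exact h2

/-- The chain rule. -/
theorem S1_chain {k R B τ : Type} [Field k] [CommRing R] [CommRing B] [Algebra k B] [Algebra R B]
    [Fintype τ] (D : Derivation R B B) (hD : ∀ a : k, D (algebraMap k B a) = 0) (P : τ → B)
    (F : MvPolynomial τ k) :
    D (MvPolynomial.aeval P F) =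
      ∑ v, MvPolynomial.aeval P (MvPolynomial.pderiv v F) * D (P v) := by
  classical
  induction F using MvPolynomial.induction_on with
  | C a => simp [hD]
  | add p q hp hq =>
    simp only [map_add, hp, hq, add_mul, Finset.sum_add_distrib]
  | mul_X p w hp =>
    simp only [map_mul, MvPolynomial.aeval_X, Derivation.leibniz, smul_eq_mul, map_add, hp,
      add_mul, Finset.sum_add_distrib]
    congr 1
    · rw [Finset.sum_eq_single w]
      · simp
      · intro u _ hu
        rw [MvPolynomial.pderiv_X_of_ne hu.symm]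
        simp
      · simp
    · rw [Finset.mul_sum]
      apply Finset.sum_congr rfl
      intro u _
      ring

theorem S1_pderiv {k κ τ ι : Type} [Field k] [Field κ] [Algebra k κ] [Fintype τ] (g : τ → ι)
    (J : ι) {n : ℕ} (e : Fin (2 + 1) → τ) (b : Fin (n + 1) → τ) (c : τ → κ)
    (F : MvPolynomial τ k) {A : Type} [CommRing A] [Algebra k A] [Algebra κ A]
    [IsScalarTower k κ A] (α : Fin (2 + 1) → A) (β : Fin (n + 1) → A)
    (u : Fin (2 + 1) ⊕ Fin (n + 1)) :
    MvPolynomial.aeval (Sum.elim α β) (MvPolynomial.pderiv u (sliceForm g J e b c F)) =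
      ∑ v, MvPolynomial.aeval (slicePt g J e b (fun w => algebraMap κ A (c w)) α β)
        (MvPolynomial.pderiv v F) * MvPolynomial.aeval (Sum.elim α β)
          (MvPolynomial.pderiv u (slicePt g J e b (fun w => MvPolynomial.C (c w))
            (fun i => MvPolynomial.X (Sum.inl i)) (fun j => MvPolynomial.X (Sum.inr j)) v)) := by
  have h := S1_chain (k := k) (MvPolynomial.pderiv u : Derivation κ
    (MvPolynomial (Fin (2 + 1) ⊕ Fin (n + 1)) κ)
    (MvPolynomial (Fin (2 + 1) ⊕ Fin (n + 1)) κ))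
    (fun a => by
      rw [IsScalarTower.algebraMap_apply k κ, Derivation.map_algebraMap])
    (slicePt g J e b (fun w => MvPolynomial.C (c w))
      (fun i => MvPolynomial.X (Sum.inl i)) (fun j => MvPolynomial.X (Sum.inr j))) F
  change MvPolynomial.pderiv u (sliceForm g J e b c F) = _ at h
  rw [h, map_sum]
  apply Finset.sum_congr rfl
  intro v _
  rw [map_mul]
  congr 1
  exact aeval_sliceForm g J e b c (MvPolynomial.pderiv v F) α β

/-- The partial derivatives of the slice. -/
theorem aeval_pderiv_sliceForm {k κ τ ι : Type} [Field k] [Field κ] [Algebra k κ] [Fintype τ]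
    [DecidableEq τ] [DecidableEq ι] (g : τ → ι) (I J : ι) (hIJ : I ≠ J)
    {n : ℕ} (e : Fin (2 + 1) → τ) (b : Fin (n + 1) → τ) (he : Function.Injective e)
    (heJ : ∀ i, g (e i) = J) (hbi : Function.Injective b)
    (hb : ∀ v, v ∈ Set.range b ↔ g v = I) (c : τ → κ) (F : MvPolynomial τ k)
    {A : Type} [CommRing A] [Algebra k A] [Algebra κ A] [IsScalarTower k κ A]
    (α : Fin (2 + 1) → A) (β : Fin (n + 1) → A) :
    (∀ j, MvPolynomial.aeval (Sum.elim α β)
        (MvPolynomial.pderiv (Sum.inr j) (sliceForm g J e b c F)) =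
      MvPolynomial.aeval (slicePt g J e b (fun w => algebraMap κ A (c w)) α β)
        (MvPolynomial.pderiv (b j) F)) ∧
    (∀ i, i ≠ 0 → MvPolynomial.aeval (Sum.elim α β)
        (MvPolynomial.pderiv (Sum.inl i) (sliceForm g J e b c F)) =
      MvPolynomial.aeval (slicePt g J e b (fun w => algebraMap κ A (c w)) α β)
        (MvPolynomial.pderiv (e i) F)) ∧
    MvPolynomial.aeval (Sum.elim α β)
        (MvPolynomial.pderiv (Sum.inl 0) (sliceForm g J e b c F)) =
      MvPolynomial.aeval (slicePt g J e b (fun w => algebraMap κ A (c w)) α β)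
        (MvPolynomial.pderiv (e 0) F) +
      ∑ w ∈ Finset.univ.filter (fun w => g w = J ∧ ∀ i, e i ≠ w), algebraMap κ A (c w) *
        MvPolynomial.aeval (slicePt g J e b (fun w => algebraMap κ A (c w)) α β)
          (MvPolynomial.pderiv w F) := by
  have hbg : ∀ j, g (b j) = I := fun j => (hb _).mp ⟨j, rfl⟩
  have heb : ∀ i j, e i ≠ b j := by
    intro i j h
    apply hIJ
    rw [← hbg j, ← h, heJ i]
  refine ⟨fun j => ?_, fun i hi => ?_, ?_⟩
  · rw [S1_pderiv, Finset.sum_eq_single (b j)]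
    · rw [S1_slicePt_b g J e b hbi _ _ _ j (fun i => heb i j), MvPolynomial.pderiv_X_self,
        map_one, mul_one]
    · intro w _ hw
      suffices h : MvPolynomial.pderiv (Sum.inr j) (slicePt g J e b
          (fun w => (MvPolynomial.C (c w) : MvPolynomial (Fin (2 + 1) ⊕ Fin (n + 1)) κ))
          (fun i => MvPolynomial.X (Sum.inl i)) (fun j => MvPolynomial.X (Sum.inr j)) w) = 0 by
        rw [h, map_zero, mul_zero]
      by_cases h1 : ∃ i, e i = w
      · obtain ⟨i, rfl⟩ := h1
        rw [S1_slicePt_e g J e b he, MvPolynomial.pderiv_X_of_ne (by simp)]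
      · by_cases h2 : ∃ j', b j' = w
        · obtain ⟨j', rfl⟩ := h2
          rw [S1_slicePt_b g J e b hbi _ _ _ j' (fun i => heb i j'),
            MvPolynomial.pderiv_X_of_ne]
          intro h
          exact hw (congrArg b (Sum.inr_injective h))
        · have h1' : ∀ i, e i ≠ w := fun i hi => h1 ⟨i, hi⟩
          have h2' : ∀ i, b i ≠ w := fun i hi => h2 ⟨i, hi⟩
          by_cases h3 : g w = J
          · rw [S1_slicePt_J g J e b _ _ _ w h1' h2' h3, Derivation.leibniz,
              MvPolynomial.pderiv_C, MvPolynomial.pderiv_X_of_ne (by simp), smul_zero,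
              smul_zero, add_zero]
          · rw [S1_slicePt_o g J e b _ _ _ w h1' h2' h3, MvPolynomial.pderiv_C]
    · intro h
      exact absurd (Finset.mem_univ _) h
  · rw [S1_pderiv, Finset.sum_eq_single (e i)]
    · rw [S1_slicePt_e g J e b he, MvPolynomial.pderiv_X_self, map_one, mul_one]
    · intro w _ hw
      suffices h : MvPolynomial.pderiv (Sum.inl i) (slicePt g J e b
          (fun w => (MvPolynomial.C (c w) : MvPolynomial (Fin (2 + 1) ⊕ Fin (n + 1)) κ))
          (fun i => MvPolynomial.X (Sum.inl i)) (fun j => MvPolynomial.X (Sum.inr j)) w) = 0 by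
        rw [h, map_zero, mul_zero]
      by_cases h1 : ∃ i, e i = w
      · obtain ⟨i', rfl⟩ := h1
        rw [S1_slicePt_e g J e b he, MvPolynomial.pderiv_X_of_ne]
        intro h
        exact hw (congrArg e (Sum.inl_injective h))
      · by_cases h2 : ∃ j', b j' = w
        · obtain ⟨j', rfl⟩ := h2
          rw [S1_slicePt_b g J e b hbi _ _ _ j' (fun i => heb i j'),
            MvPolynomial.pderiv_X_of_ne (by simp)]
        · have h1' : ∀ i, e i ≠ w := fun i hi => h1 ⟨i, hi⟩
          have h2' : ∀ i, b i ≠ w := fun i hi => h2 ⟨i, hi⟩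
          by_cases h3 : g w = J
          · rw [S1_slicePt_J g J e b _ _ _ w h1' h2' h3, Derivation.leibniz,
              MvPolynomial.pderiv_C, MvPolynomial.pderiv_X_of_ne, smul_zero,
              smul_zero, add_zero]
            intro h
            exact hi (Sum.inl_injective h).symm
          · rw [S1_slicePt_o g J e b _ _ _ w h1' h2' h3, MvPolynomial.pderiv_C]
    · intro h
      exact absurd (Finset.mem_univ _) h
  · rw [S1_pderiv, Finset.sum_filter, ← Finset.add_sum_erase _ _ (Finset.mem_univ (e 0))]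
    congr 1
    · rw [S1_slicePt_e g J e b he, MvPolynomial.pderiv_X_self, map_one, mul_one]
    · refine Eq.trans ?_ (Finset.sum_erase (a := e 0) _ (if_neg (fun h => h.2 0 rfl)))
      apply Finset.sum_congr rfl
      intro w hw
      have hw0 : w ≠ e 0 := (Finset.mem_erase.mp hw).1
      by_cases h1 : ∃ i, e i = w
      · obtain ⟨i', rfl⟩ := h1
        rw [S1_slicePt_e g J e b he, MvPolynomial.pderiv_X_of_ne, map_zero, mul_zero,
          if_neg (fun h => h.2 i' rfl)]
        intro h
        exact hw0 (congrArg e (Sum.inl_injective h))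
      · by_cases h2 : ∃ j', b j' = w
        · obtain ⟨j', rfl⟩ := h2
          rw [S1_slicePt_b g J e b hbi _ _ _ j' (fun i => heb i j'),
            MvPolynomial.pderiv_X_of_ne (by simp), map_zero, mul_zero, if_neg]
          rintro ⟨h, _⟩
          exact hIJ ((hbg j').symm.trans h)
        · have h1' : ∀ i, e i ≠ w := fun i hi => h1 ⟨i, hi⟩
          have h2' : ∀ i, b i ≠ w := fun i hi => h2 ⟨i, hi⟩
          by_cases h3 : g w = J
          · rw [S1_slicePt_J g J e b _ _ _ w h1' h2' h3, Derivation.leibniz,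
              MvPolynomial.pderiv_C, MvPolynomial.pderiv_X_self, smul_zero, add_zero,
              if_pos ⟨h3, h1'⟩, smul_eq_mul, mul_one, MvPolynomial.aeval_C, mul_comm]
          · rw [S1_slicePt_o g J e b _ _ _ w h1' h2' h3, MvPolynomial.pderiv_C, map_zero,
              mul_zero, if_neg (fun h => h3 h.1)]

end Pool.Agent.LibHP
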