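import Pool.Agent.LibHP5.S0
import Pool.Agent.LibHP5.S1
import Pool.Agent.LibHP5.S3
import Pool.Agent.LibHP2.G7

set_option autoImplicit false

namespace Pool.Agent.LibHP

/-- Specialisation of a point to the algebraic closure, keeping some coordinates nonzero. -/
private theorem S4_spec (k Λ : Type) [Field k] [Field Λ] [Algebra k Λ] {τ : Type} [Finite τ]
    (z : τ → Λ) (s : Set τ) (hs : ∀ i ∈ s, z i ≠ 0) :
    ∃ z' : τ → AlgebraicClosure k, (∀ i ∈ s, z' i ≠ 0) ∧
      ∀ G : MvPolynomial τ k, MvPolynomial.aeval z G = 0 → MvPolynomial.aeval z' G = 0 := by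
  classical
  set S : Set Λ := Set.range z ∪ (fun i => (z i)⁻¹) '' s with hS
  have hSfin : S.Finite := (Set.finite_range z).union (Set.toFinite _)
  set A := Algebra.adjoin k S with hA
  have hfg : A.FG := by
    have := Subalgebra.fg_adjoin_finset (R := k) hSfin.toFinset
    rw [Set.Finite.coe_toFinset] at this
    exact this
  have : Algebra.FiniteType k A := (Subalgebra.fg_iff_finiteType A).1 hfg
  obtain ⟨φ⟩ := G7_hom k A
  have hmem : ∀ i, z i ∈ A := fun i => Algebra.subset_adjoin (Or.inl ⟨i, rfl⟩)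
  let zA : τ → A := fun i => ⟨z i, hmem i⟩
  have hne : ∀ i ∈ s, φ (zA i) ≠ 0 := by
    intro i hi h0
    have h : (z i)⁻¹ ∈ A := Algebra.subset_adjoin (Or.inr ⟨i, hi, rfl⟩)
    have h1 : zA i * ⟨(z i)⁻¹, h⟩ = 1 := Subtype.ext (mul_inv_cancel₀ (hs i hi))
    have h2 := congrArg φ h1
    rw [map_mul, h0, zero_mul, map_one] at h2
    exact zero_ne_one h2
  refine ⟨fun i => φ (zA i), hne, ?_⟩
  intro G hG
  have h1 : MvPolynomial.aeval zA G = 0 := by
    apply Subtype.ext
    have h2 : (A.val : A →ₐ[k] Λ) (MvPolynomial.aeval zA G) = MvPolynomial.aeval z G := by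
      rw [← AlgHom.comp_apply, MvPolynomial.comp_aeval]
      rfl
    rw [hG] at h2
    exact h2
  have h3 : MvPolynomial.aeval (fun i => φ (zA i)) G = φ (MvPolynomial.aeval zA G) := by
    rw [← AlgHom.comp_apply, MvPolynomial.comp_aeval]
  rw [h3, h1, map_zero]

/-- Smoothness over extension fields. -/
theorem IsSmoothMulti.ext {k τ ι : Type} [Field k] [Fintype τ] [Fintype ι] [DecidableEq ι]
    {g : τ → ι} {F : MvPolynomial τ k} (h : IsSmoothMulti g F) (Λ : Type) [Field Λ] [Algebra k Λ]
    (a : τ → Λ) (ha : ∀ i, ∃ v, g v = i ∧ a v ≠ 0) (h0 : MvPolynomial.aeval a F = 0) :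
    ∃ v, MvPolynomial.aeval a (MvPolynomial.pderiv v F) ≠ 0 := by
  by_contra hcon
  push Not at hcon
  obtain ⟨z', hz1, hz2⟩ := S4_spec k Λ a {v | a v ≠ 0} (fun i hi => hi)
  obtain ⟨v, hv⟩ := h z' (fun i => by
    obtain ⟨v, hv, hav⟩ := ha i
    exact ⟨v, hv, hz1 v hav⟩) (hz2 F h0)
  exact hv (hz2 _ (hcon v))

section S4Pt

variable {τ ι A : Type} [CommRing A] (g : τ → ι) (J : ι) {n : ℕ}
  (e : Fin (2 + 1) → τ) (b : Fin (n + 1) → τ) (c : τ → A) (α : Fin (2 + 1) → A)
  (β : Fin (n + 1) → A)

private theorem S4_pt_e (he : Function.Injective e) (i : Fin (2 + 1)) :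
    slicePt g J e b c α β (e i) = α i := by
  unfold slicePt
  have h : ∃ i', e i' = e i := ⟨i, rfl⟩
  rw [dif_pos h]
  congr 1
  exact he h.choose_spec

private theorem S4_pt_b (hb : Function.Injective b) (heb : ∀ i j, e i ≠ b j) (j : Fin (n + 1)) :
    slicePt g J e b c α β (b j) = β j := by
  unfold slicePt
  have h : ∃ j', b j' = b j := ⟨j, rfl⟩
  rw [dif_neg (fun h' => heb _ j h'.choose_spec), dif_pos h]
  congr 1
  exact hb h.choose_spec

private theorem S4_pt_J (w : τ) (h1 : ∀ i, e i ≠ w) (h2 : ∀ j, b j ≠ w) (h3 : g w = J) :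
    slicePt g J e b c α β w = c w * α 0 := by
  unfold slicePt
  rw [dif_neg (fun h' => h1 _ h'.choose_spec), dif_neg (fun h' => h2 _ h'.choose_spec), if_pos h3]

private theorem S4_pt_other (w : τ) (h1 : ∀ i, e i ≠ w) (h2 : ∀ j, b j ≠ w) (h3 : g w ≠ J) :
    slicePt g J e b c α β w = c w := by
  unfold slicePt
  rw [dif_neg (fun h' => h1 _ h'.choose_spec), dif_neg (fun h' => h2 _ h'.choose_spec), if_neg h3]

end S4Pt

/-- The slices are smooth. -/
theorem isSmoothForm_slice (k κ τ ι : Type) [Field k] [CharZero k] [Field κ] [Algebra k κ]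
    [Fintype τ] [DecidableEq τ] [Fintype ι] [DecidableEq ι] (g : τ → ι) (t : ι → τ)
    (ht : ∀ i, g (t i) = i) (d : ι → ℕ) (F : MvPolynomial τ k) (hF : IsMultiHom g d F)
    (hsm : IsSmoothMulti g F) (hgc : GoodCoord g F)
    (I J : ι) (hIJ : I ≠ J) (n : ℕ) (e : Fin (2 + 1) → τ) (b : Fin (n + 1) → τ)
    (he : Function.Injective e) (heJ : ∀ i, g (e i) = J) (he0 : e 0 = t J)
    (hbi : Function.Injective b) (hb : ∀ v, v ∈ Set.range b ↔ g v = I) (hb0 : b 0 = t I)
    (c : τ → κ) (hct : ∀ i, c (t i) = 1)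
    (hc : AlgebraicIndependent k
      (fun w : {w : τ // w ∉ Set.range e ∧ g w ≠ I ∧ w ∉ Set.range t} => c w)) :
    IsSmoothForm (sliceForm g J e b c F) := by
  intro α β hα hβ h0
  by_contra hcon
  push Not at hcon
  have hbI : ∀ j, g (b j) = I := fun j => (hb (b j)).1 ⟨j, rfl⟩
  have heb : ∀ i j, e i ≠ b j := by
    intro i j h
    apply hIJ
    rw [← hbI j, ← h, heJ]
  have hbJ : ∀ j w, g w = J → b j ≠ w := by
    rintro j w hw rfl
    exact hIJ ((hbI j).symm.trans hw)
  obtain ⟨P, hPdef⟩ : ∃ P : τ → AlgebraicClosure κ,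
      P = slicePt g J e b (fun w => algebraMap κ (AlgebraicClosure κ) (c w)) α β := ⟨_, rfl⟩
  have hFP : MvPolynomial.aeval P F = 0 := by
    rw [hPdef, ← aeval_sliceForm]
    exact h0
  obtain ⟨hd1, hd2, hd3⟩ := aeval_pderiv_sliceForm g I J hIJ e b he heJ hbi hb c F
    (A := AlgebraicClosure κ) α β
  rw [← hPdef] at hd1 hd2 hd3
  have hdb : ∀ j, MvPolynomial.aeval P (MvPolynomial.pderiv (b j) F) = 0 := by
    intro j
    rw [← hd1 j]
    exact hcon _
  have hde : ∀ i, i ≠ 0 → MvPolynomial.aeval P (MvPolynomial.pderiv (e i) F) = 0 := by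
    intro i hi
    rw [← hd2 i hi]
    exact hcon _
  have hd0 : MvPolynomial.aeval P (MvPolynomial.pderiv (e 0) F) +
      ∑ w ∈ Finset.univ.filter (fun w => g w = J ∧ ∀ i, e i ≠ w),
        algebraMap κ (AlgebraicClosure κ) (c w) *
        MvPolynomial.aeval P (MvPolynomial.pderiv w F) = 0 := by
    rw [← hd3]
    exact hcon _
  have hPe : ∀ i, P (e i) = α i := by
    intro i
    rw [hPdef, S4_pt_e g J e b _ α β he]
  have hPb : ∀ j, P (b j) = β j := by
    intro j
    rw [hPdef, S4_pt_b g J e b _ α β hbi heb]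
  have hPJ : ∀ w, (∀ i, e i ≠ w) → g w = J → P w = algebraMap κ (AlgebraicClosure κ) (c w) * α 0 := by
    intro w h1 h2
    rw [hPdef, S4_pt_J g J e b _ α β w h1 (fun j => hbJ j w h2) h2]
  have hPo : ∀ w, g w ≠ J → g w ≠ I → P w = algebraMap κ (AlgebraicClosure κ) (c w) := by
    intro w h1 h2
    rw [hPdef, S4_pt_other g J e b _ α β w (by
      rintro i rfl
      exact h1 (heJ i)) (by
      rintro j rfl
      exact h2 (hbI j)) h1]
  have hPt : ∀ i, i ≠ J → i ≠ I → P (t i) = 1 := by
    intro i h1 h2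
    rw [hPo (t i) (by rw [ht]; exact h1) (by rw [ht]; exact h2), hct, map_one]
  -- members of the group `J` outside of `e` are not distinguished
  have hJt : ∀ w, (∀ i, e i ≠ w) → g w = J → w ∉ Set.range t := by
    rintro w h1 h2 ⟨i, rfl⟩
    rw [ht] at h2
    rw [h2, ← he0] at h1
    exact h1 0 rfl
  -- the derivations
  have hc' : AlgebraicIndependent k
      (fun w : {w : τ // w ∉ Set.range e ∧ g w ≠ I ∧ w ∉ Set.range t} =>
        algebraMap κ (AlgebraicClosure κ) (c w)) :=
    hc.map' (f := IsScalarTower.toAlgHom k κ (AlgebraicClosure κ))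
      (algebraMap κ (AlgebraicClosure κ)).injective
  have hkey : ∀ w, w ∉ Set.range e → g w ≠ I → w ∉ Set.range t →
      (if g w = J then α 0 else 1) * MvPolynomial.aeval P (MvPolynomial.pderiv w F) = 0 := by
    intro w hw1 hw2 hw3
    obtain ⟨D, hDk, hD1, hD0⟩ := exists_derivation_indep k (AlgebraicClosure κ) _ _ hc'
      ⟨w, hw1, hw2, hw3⟩
    have hD0' : ∀ v, v ≠ w → v ∉ Set.range e → g v ≠ I → D (algebraMap κ _ (c v)) = 0 := by
      intro v hvw h1 h2
      by_cases h3 : v ∈ Set.range t
      · obtain ⟨i, rfl⟩ := h3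
        rw [hct, map_one, Derivation.map_one_eq_zero]
      · exact hD0 ⟨v, h1, h2, h3⟩ (fun h => hvw (congrArg Subtype.val h))
    have hsum := derivation_aeval k (AlgebraicClosure κ) τ D hDk P F
    rw [hFP, map_zero] at hsum
    -- the terms of the sum
    have hterm : ∀ v, MvPolynomial.aeval P (MvPolynomial.pderiv v F) * D (P v) =
        (if v = e 0 then MvPolynomial.aeval P (MvPolynomial.pderiv (e 0) F) * D (α 0) else 0) +
        (if g v = J ∧ ∀ i, e i ≠ v then algebraMap κ (AlgebraicClosure κ) (c v) *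
          MvPolynomial.aeval P (MvPolynomial.pderiv v F) * D (α 0) else 0) +
        (if v = w then (if g w = J then α 0 else 1) *
          MvPolynomial.aeval P (MvPolynomial.pderiv w F) else 0) := by
      intro v
      by_cases hve : v ∈ Set.range e
      · obtain ⟨i, rfl⟩ := hve
        have h1 : e i ≠ w := fun h => hw1 ⟨i, h⟩
        have h2 : ¬ (g (e i) = J ∧ ∀ i', e i' ≠ e i) := fun h => h.2 i rfl
        rw [if_neg h1, if_neg h2, add_zero, add_zero, hPe]
        by_cases hi : i = 0
        · rw [hi, if_pos rfl]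
        · rw [if_neg (fun h => hi (he h)), hde i hi, zero_mul]
      · have h1 : ∀ i, e i ≠ v := fun i h => hve ⟨i, h⟩
        rw [if_neg (fun h => h1 0 h.symm), zero_add]
        by_cases hvI : g v = I
        · obtain ⟨j, rfl⟩ := (hb v).2 hvI
          have h2 : ¬ (g (b j) = J ∧ ∀ i, e i ≠ b j) := by
            rintro ⟨h3, -⟩
            rw [hvI] at h3
            exact hIJ h3
          have h3 : b j ≠ w := by
            rintro rfl
            exact hw2 hvI
          rw [if_neg h2, if_neg h3, hdb, zero_mul, add_zero]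
        · by_cases hvJ : g v = J
          · rw [if_pos ⟨hvJ, h1⟩, hPJ v h1 hvJ, Derivation.leibniz, smul_eq_mul, smul_eq_mul]
            by_cases hvw : v = w
            · subst hvw
              rw [if_pos rfl, if_pos hvJ]
              have h4 : D (algebraMap κ _ (c v)) = 1 := hD1
              rw [h4]
              ring
            · rw [if_neg hvw, hD0' v hvw hve hvI]
              ring
          · have h2 : ¬ (g v = J ∧ ∀ i, e i ≠ v) := fun h => hvJ h.1
            rw [if_neg h2, hPo v hvJ hvI, zero_add]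
            by_cases hvw : v = w
            · subst hvw
              rw [if_pos rfl, if_neg hvJ]
              have h4 : D (algebraMap κ _ (c v)) = 1 := hD1
              rw [h4]
              ring
            · rw [if_neg hvw, hD0' v hvw hve hvI, mul_zero]
    rw [Finset.sum_congr rfl (fun v _ => hterm v), Finset.sum_add_distrib,
      Finset.sum_add_distrib, Finset.sum_ite_eq' Finset.univ (e 0), Finset.sum_ite_eq' Finset.univ w,
      if_pos (Finset.mem_univ _), if_pos (Finset.mem_univ _), ← Finset.sum_filter,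
      ← Finset.sum_mul, ← add_mul, hd0, zero_mul, zero_add] at hsum
    exact hsum.symm
  have hkey1 : ∀ w, w ∉ Set.range t → g w ≠ I → g w ≠ J →
      MvPolynomial.aeval P (MvPolynomial.pderiv w F) = 0 := by
    intro w h1 h2 h3
    have h4 : w ∉ Set.range e := by
      rintro ⟨i, rfl⟩
      exact h3 (heJ i)
    have h5 := hkey w h4 h2 h1
    rw [if_neg h3, one_mul] at h5
    exact h5
  -- the distinguished coordinates
  have hdt : ∀ i, i ≠ I → i ≠ J → MvPolynomial.aeval P (MvPolynomial.pderiv (t i) F) = 0 := by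
    intro i hiI hiJ
    have h1 := congrArg (MvPolynomial.aeval P) (hF.euler i)
    rw [map_sum, map_mul, hFP, mul_zero, Finset.sum_eq_single (t i)] at h1
    · rw [map_mul, MvPolynomial.aeval_X, hPt i hiJ hiI, one_mul] at h1
      exact h1
    · intro v hv hvt
      rw [Finset.mem_filter] at hv
      have h2 : v ∉ Set.range t := by
        rintro ⟨i', rfl⟩
        apply hvt
        rw [ht] at hv
        rw [hv.2]
      rw [map_mul, hkey1 v h2 (by rw [hv.2]; exact hiI) (by rw [hv.2]; exact hiJ), mul_zero]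
    · intro hn
      exact (hn (Finset.mem_filter.2 ⟨Finset.mem_univ _, ht i⟩)).elim
  have hnJ : ∀ v, g v ≠ J → MvPolynomial.aeval P (MvPolynomial.pderiv v F) = 0 := by
    intro v hv
    by_cases hvI : g v = I
    · obtain ⟨j, rfl⟩ := (hb v).2 hvI
      exact hdb j
    · by_cases hvt : v ∈ Set.range t
      · obtain ⟨i, rfl⟩ := hvt
        rw [ht] at hv hvI
        exact hdt i hvI hv
      · exact hkey1 v hvt hvI hv
  have hne : ∀ i, i ≠ J → ∃ v, g v = i ∧ P v ≠ 0 := by
    intro i hiJ
    by_cases hiI : i = I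
    · obtain ⟨j, hj⟩ := Function.ne_iff.1 hβ
      refine ⟨b j, by rw [hbI, hiI], ?_⟩
      rw [hPb]
      exact hj
    · refine ⟨t i, ht i, ?_⟩
      rw [hPt i hiJ hiI]
      exact one_ne_zero
  by_cases hα0 : α 0 = 0
  · -- the point lies on the line through the coordinate points of `e 1` and `e 2`
    have h12 : e 1 ≠ e 2 := fun h => absurd (he h) (by decide)
    have hline : linePt g J (Pi.single (e 1) 1) (Pi.single (e 2) 1) (α 1) (α 2) P = P := by
      funext v
      unfold linePt
      split_ifs with hv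
      · by_cases hve : v ∈ Set.range e
        · obtain ⟨i, rfl⟩ := hve
          rw [hPe]
          fin_cases i
          · show α 1 * (Pi.single (e 1) 1 : τ → AlgebraicClosure κ) (e 0) +
              α 2 * (Pi.single (e 2) 1 : τ → AlgebraicClosure κ) (e 0) = α 0
            rw [Pi.single_eq_of_ne (fun h => absurd (he h) (by decide)),
              Pi.single_eq_of_ne (fun h => absurd (he h) (by decide)), hα0]
            ring
          · show α 1 * (Pi.single (e 1) 1 : τ → AlgebraicClosure κ) (e 1) +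
              α 2 * (Pi.single (e 2) 1 : τ → AlgebraicClosure κ) (e 1) = α 1
            rw [Pi.single_eq_same, Pi.single_eq_of_ne h12]
            ring
          · show α 1 * (Pi.single (e 1) 1 : τ → AlgebraicClosure κ) (e 2) +
              α 2 * (Pi.single (e 2) 1 : τ → AlgebraicClosure κ) (e 2) = α 2
            rw [Pi.single_eq_same, Pi.single_eq_of_ne h12.symm]
            ring
        · have h1 : ∀ i, e i ≠ v := fun i h => hve ⟨i, h⟩
          rw [hPJ v h1 hv, hα0, Pi.single_eq_of_ne (h1 1).symm, Pi.single_eq_of_ne (h1 2).symm]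
          ring
      · rfl
    have hst : α 1 ≠ 0 ∨ α 2 ≠ 0 := by
      by_contra h
      push Not at h
      apply hα
      funext i
      fin_cases i
      · exact hα0
      · exact h.1
      · exact h.2
    have hsingle : ∀ i : Fin (2 + 1), i ≠ 0 →
        ∑ v ∈ Finset.univ.filter (fun v => g v = J),
          (Pi.single (e i) 1 : τ → AlgebraicClosure κ) v *
            MvPolynomial.aeval P (MvPolynomial.pderiv v F) = 0 := by
      intro i hi
      refine Finset.sum_eq_zero fun v _ => ?_
      by_cases hv : v = e i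
      · rw [hv, hde i hi, mul_zero]
      · rw [Pi.single_eq_of_ne hv, zero_mul]
    have hls := hgc (e 1) (e 2) h12 (by rw [heJ, heJ]) (AlgebraicClosure κ)
    rw [heJ] at hls
    have hfin := hls (α 1) (α 2) P hst hne
    rw [hline] at hfin
    exact hfin hFP hnJ (hsingle 1 (by decide)) (hsingle 2 (by decide))
  · -- all derivatives vanish
    have hall : ∀ v, MvPolynomial.aeval P (MvPolynomial.pderiv v F) = 0 := by
      have h1 : ∀ w, g w = J → (∀ i, e i ≠ w) →
          MvPolynomial.aeval P (MvPolynomial.pderiv w F) = 0 := by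
        intro w hw1 hw2
        have h2 := hkey w (by
          rintro ⟨i, hi⟩
          exact hw2 i hi) (by rw [hw1]; exact hIJ.symm) (hJt w hw2 hw1)
        rw [if_pos hw1] at h2
        exact (mul_eq_zero.1 h2).resolve_left hα0
      intro v
      by_cases hvJ : g v = J
      · by_cases hve : v ∈ Set.range e
        · obtain ⟨i, rfl⟩ := hve
          by_cases hi : i = 0
          · rw [hi]
            rw [Finset.sum_eq_zero, add_zero] at hd0
            · exact hd0
            · intro w hw
              rw [Finset.mem_filter] at hw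
              rw [h1 w hw.2.1 hw.2.2, mul_zero]
          · exact hde i hi
        · exact h1 v hvJ (fun i h => hve ⟨i, h⟩)
      · exact hnJ v hvJ
    obtain ⟨v, hv⟩ := hsm.ext (AlgebraicClosure κ) P (fun i => by
      by_cases hiJ : i = J
      · refine ⟨e 0, by rw [heJ, hiJ], ?_⟩
        rw [hPe]
        exact hα0
      · exact hne i hiJ) hFP
    exact hv (hall v)

end Pool.Agent.LibHP
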