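import Pool.Agent.LibHP5.S0

set_option autoImplicit false

namespace Pool.Agent.LibHP

/-- The coordinates outside of a group occurring in `F` are algebraically independent. -/
theorem indep_of_isMultiPt (k K τ ι : Type) [Field k] [Field K] [Algebra k K] [Fintype τ]
    [DecidableEq τ] [Fintype ι] [DecidableEq ι] (g : τ → ι) (t : ι → τ) (ht : ∀ i, g (t i) = i)
    (d : ι → ℕ) (F : MvPolynomial τ k) (hF : IsMultiHom g d F) (x : τ → K)
    (hx : IsMultiPt g F t x) (I : ι) (hI : 1 ≤ d I) :
    AlgebraicIndependent k (fun w : {w : τ // g w ≠ I ∧ w ∉ Set.range t} => x w) := by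
  classical
  rw [algebraicIndependent_iff]
  intro p hp
  obtain ⟨N, Q, hQ, hQz, hN⟩ := exists_multihomogenize k τ ι g t ht
    (MvPolynomial.rename (Subtype.val : {w : τ // g w ≠ I ∧ w ∉ Set.range t} → τ) p)
  have h1 : N I = 0 := by
    apply hN
    intro v hv
    have := MvPolynomial.vars_rename (Subtype.val : {w : τ // g w ≠ I ∧ w ∉ Set.range t} → τ) p hv
    obtain ⟨w, _, rfl⟩ := Finset.mem_image.mp this
    exact w.2.1
  have h2 : MvPolynomial.aeval x Q = 0 := by
    rw [hQz K x hx.1, MvPolynomial.aeval_rename]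
    exact hp
  have h3 : F ∣ Q := (hx.2.1 N Q hQ).mp h2
  have h4 : Q = 0 := by
    by_contra hne
    have := hF.le_of_dvd hQ hne h3 I
    omega
  have h5 := hQz (MvPolynomial {w : τ // g w ≠ I ∧ w ∉ Set.range t} k)
    (fun v => if h : g v ≠ I ∧ v ∉ Set.range t then MvPolynomial.X ⟨v, h⟩ else 1)
    (fun i => by
      rw [dif_neg]
      rintro ⟨_, h⟩
      exact h ⟨i, rfl⟩)
  rw [h4, map_zero, MvPolynomial.aeval_rename] at h5
  have h6 : ((fun v : τ => if h : g v ≠ I ∧ v ∉ Set.range t then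
      (MvPolynomial.X ⟨v, h⟩ : MvPolynomial {w : τ // g w ≠ I ∧ w ∉ Set.range t} k) else 1) ∘
      (Subtype.val : {w : τ // g w ≠ I ∧ w ∉ Set.range t} → τ)) = MvPolynomial.X := by
    funext w
    simp only [Function.comp]
    rw [dif_pos w.2]
  rw [h6, MvPolynomial.aeval_X_left_apply] at h5
  exact h5.symm

end Pool.Agent.LibHP
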