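import Pool.Agent.LibHP5.S2
import Pool.Agent.LibHP5.S4
import Pool.Agent.LibHP5.S5

set_option autoImplicit false

namespace Pool.Agent.LibHP

private theorem S6_enum (τ ι : Type) [Fintype τ] [DecidableEq τ] [DecidableEq ι] (g : τ → ι)
    (t : ι → τ) (ht : ∀ i, g (t i) = i) (I : ι) (hn : 3 ≤ Fintype.card {v // g v = I}) :
    ∃ (n : ℕ) (b : Fin (n + 1) → τ), 2 ≤ n ∧ Function.Injective b ∧
      (∀ v, v ∈ Set.range b ↔ g v = I) ∧ b 0 = t I := by
  obtain ⟨n, hn'⟩ : ∃ n, Fintype.card {v // g v = I} = n + 1 :=
    ⟨Fintype.card {v // g v = I} - 1, by omega⟩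
  let E : Fin (n + 1) ≃ {v // g v = I} := (Fintype.equivFinOfCardEq hn').symm
  let E' : Fin (n + 1) ≃ {v // g v = I} := (Equiv.swap 0 (E.symm ⟨t I, ht I⟩)).trans E
  refine ⟨n, fun j => (E' j : τ), by omega, ?_, ?_, ?_⟩
  · intro i j h
    exact E'.injective (Subtype.ext h)
  · intro v
    constructor
    · rintro ⟨j, rfl⟩
      exact (E' j).2
    · intro hv
      exact ⟨E'.symm ⟨v, hv⟩, by simp⟩
  · simp [E']

private theorem S6_other (τ ι : Type) [Fintype τ] [DecidableEq τ] [DecidableEq ι] (g : τ → ι)
    (t : ι → τ) (ht : ∀ i, g (t i) = i) (J : ι) (hn : 3 ≤ Fintype.card {v // g v = J}) (v : τ) :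
    ∃ v', g v' = J ∧ v' ≠ v ∧ v' ∉ Set.range t := by
  classical
  by_contra hcon
  push Not at hcon
  have h1 : (Finset.univ.filter (fun w => g w = J)) ⊆ {v, t J} := by
    intro w hw
    have hw' := (Finset.mem_filter.1 hw).2
    by_cases hwv : w = v
    · simp [hwv]
    · obtain ⟨i, hi⟩ := hcon w hw' hwv
      have : i = J := by rw [← ht i, hi, hw']
      subst this
      simp [hi]
  have h2 := Finset.card_le_card h1
  have h3 : ({v, t J} : Finset τ).card ≤ 2 := Finset.card_le_two
  rw [Fintype.card_subtype] at hn
  omega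

/-- The function field of a smooth multihomogeneous hypersurface has slices. -/
theorem hasSlices_of_multi (k K τ ι : Type) [Field k] [CharZero k] [Field K] [Algebra k K]
    [Fintype τ] [DecidableEq τ] [Fintype ι] [DecidableEq ι] (g : τ → ι) (t : ι → τ)
    (ht : ∀ i, g (t i) = i) (d : ι → ℕ) (hd : ∀ i, d i = 2 ∨ d i = 3)
    (hn : ∀ i, 3 ≤ Fintype.card {v // g v = i}) (F : MvPolynomial τ k) (hF : IsMultiHom g d F)
    (hsm : IsSmoothMulti g F) (hgc : GoodCoord g F) (x : τ → K) (hx : IsMultiPt g F t x)
    (I J : ι) (hIJ : I ≠ J) (hI : d I = 2) :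
    HasSlices k K {v : τ // v ∉ Set.range t} (fun v => x v)
      (Finset.univ.filter (fun v : {v : τ // v ∉ Set.range t} => g v = I)) := by
  classical
  have hindep := indep_of_isMultiPt k K τ ι g t ht d F hF x hx I (by omega)
  refine ⟨?_, ?_, ?_, ?_⟩
  · -- independence
    have h1 := hindep.comp
      (fun u : {u : {v : τ // v ∉ Set.range t} //
        u ∉ Finset.univ.filter (fun v : {v : τ // v ∉ Set.range t} => g v = I)} =>
        (⟨(u.1 : τ), by
          have := u.2
          simpa using this, u.1.2⟩ : {w : τ // g w ≠ I ∧ w ∉ Set.range t})) (by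
        intro a b hab
        have h2 : ((a.1 : {v : τ // v ∉ Set.range t}) : τ) = b.1 :=
          congrArg (fun z : {w : τ // g w ≠ I ∧ w ∉ Set.range t} => (z : τ)) hab
        exact Subtype.ext (Subtype.ext h2))
    exact h1
  · -- generation
    rw [eq_top_iff, ← hx.2.2]
    apply IntermediateField.adjoin_le_iff.2
    rintro _ ⟨v, rfl⟩
    by_cases hv : v ∈ Set.range t
    · obtain ⟨i, rfl⟩ := hv
      rw [hx.1 i]
      exact one_mem _
    · exact IntermediateField.subset_adjoin _ _ ⟨⟨v, hv⟩, rfl⟩
  · obtain ⟨v', h1, _, h3⟩ := S6_other τ ι g t ht J (hn J) (t J)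
    refine ⟨⟨v', h3⟩, ?_⟩
    intro h
    have h4 : g v' = I := by simpa using h
    exact hIJ (h4.symm.trans h1)
  · obtain ⟨n, b, hn2, hbi, hb, hb0⟩ := S6_enum τ ι g t ht I (hn I)
    have hbt : ∀ j : Fin n, b j.succ ∉ Set.range t := by
      rintro j ⟨i, hi⟩
      have h1 : g (b j.succ) = I := (hb _).1 ⟨_, rfl⟩
      have h2 : i = I := by rw [← ht i, hi, h1]
      subst h2
      have h3 := hbi (hb0.trans hi)
      exact (Fin.succ_ne_zero j) h3.symm
    refine ⟨n, fun j => ⟨b j.succ, hbt j⟩, ?_, ?_⟩
    · intro v
      rw [Finset.mem_filter]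
      constructor
      · rintro ⟨j, rfl⟩
        exact ⟨Finset.mem_univ _, (hb _).1 ⟨_, rfl⟩⟩
      · rintro ⟨_, hv⟩
        obtain ⟨j, hj⟩ := (hb v).2 hv
        have hj0 : j ≠ 0 := by
          rintro rfl
          exact v.2 ⟨I, by rw [← hb0, hj]⟩
        obtain ⟨j', rfl⟩ := Fin.exists_succ_eq.2 hj0
        exact ⟨j', Subtype.ext hj⟩
    · intro v hv
      have hvI : g v ≠ I := by simpa using hv
      obtain ⟨v', hv'1, hv'2, hv'3⟩ := S6_other τ ι g t ht (g v) (hn _) (v : τ)
      refine ⟨![v, ⟨v', hv'3⟩], rfl, ?_, ?_, ?_⟩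
      · intro i j hij
        fin_cases i <;> fin_cases j <;> simp at hij ⊢
        · exact hv'2 (congrArg Subtype.val hij).symm
        · exact hv'2 (congrArg Subtype.val hij)
      · intro i
        fin_cases i
        · simpa using hvI
        · show (⟨v', hv'3⟩ : {v : τ // v ∉ Set.range t}) ∉ _
          rw [Finset.mem_filter]
          rintro ⟨_, h⟩
          exact hvI (hv'1.symm.trans h)
      · -- the slice
        set κ : IntermediateField k K := IntermediateField.adjoin k
          ((fun v : {v : τ // v ∉ Set.range t} => x v) ''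
            {w | w ∉ Set.range (![v, ⟨v', hv'3⟩] : Fin 2 → {v : τ // v ∉ Set.range t}) ∧
              w ∉ Finset.univ.filter (fun v : {v : τ // v ∉ Set.range t} => g v = I)}) with hκdef
        set e : Fin (2 + 1) → τ := ![t (g v), v, v'] with he
        have hvt : (v : τ) ≠ t (g v) := fun h => v.2 ⟨g v, h.symm⟩
        have hv't : v' ≠ t (g v) := fun h => hv'3 ⟨g v, h.symm⟩
        have hei : Function.Injective e := by
          intro i j hij
          fin_cases i <;> fin_cases j <;> simp [he] at hij ⊢
          · exact hvt hij.symm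
          · exact hv't hij.symm
          · exact hvt hij
          · exact hv'2 hij.symm
          · exact hv't hij
          · exact hv'2 hij
        have heJ : ∀ i, g (e i) = g v := by
          intro i
          fin_cases i
          · exact ht _
          · rfl
          · exact hv'1
        have hrange : ∀ w, w ∈ Set.range e ↔ w = t (g v) ∨ w = v ∨ w = v' := by
          intro w
          constructor
          · rintro ⟨i, rfl⟩
            fin_cases i
            · exact Or.inl rfl
            · exact Or.inr (Or.inl rfl)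
            · exact Or.inr (Or.inr rfl)
          · rintro (rfl | rfl | rfl)
            · exact ⟨0, rfl⟩
            · exact ⟨1, rfl⟩
            · exact ⟨2, rfl⟩
        have hrange2 : ∀ w : {v : τ // v ∉ Set.range t},
            w ∈ Set.range (![v, ⟨v', hv'3⟩] : Fin 2 → {v : τ // v ∉ Set.range t}) ↔
              (w : τ) = v ∨ (w : τ) = v' := by
          intro w
          constructor
          · rintro ⟨i, rfl⟩
            fin_cases i
            · exact Or.inl rfl
            · exact Or.inr rfl
          · rintro (h | h)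
            · exact ⟨0, (Subtype.ext h).symm⟩
            · exact ⟨1, (Subtype.ext h).symm⟩
        have hmem : ∀ w, w ∉ Set.range e → g w ≠ I → x w ∈ κ := by
          intro w hw hwI
          by_cases hwt : w ∈ Set.range t
          · obtain ⟨i, rfl⟩ := hwt
            rw [hx.1 i]
            exact one_mem _
          · apply IntermediateField.subset_adjoin
            refine ⟨⟨w, hwt⟩, ⟨?_, ?_⟩, rfl⟩
            · rw [hrange2]
              rintro (h | h)
              · exact hw ((hrange w).2 (Or.inr (Or.inl h)))
              · exact hw ((hrange w).2 (Or.inr (Or.inr h)))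
            · rw [Finset.mem_filter]
              rintro ⟨_, h⟩
              exact hwI h
        have hκ : κ = IntermediateField.adjoin k (x '' {w | w ∉ Set.range e ∧ g w ≠ I}) := by
          apply le_antisymm
          · rw [hκdef]
            apply IntermediateField.adjoin_le_iff.2
            rintro _ ⟨w, ⟨hw1, hw2⟩, rfl⟩
            apply IntermediateField.subset_adjoin
            refine ⟨(w : τ), ⟨?_, ?_⟩, rfl⟩
            · rw [hrange]
              rintro (h | h | h)
              · exact w.2 ⟨g v, h.symm⟩
              · exact hw1 ((hrange2 w).2 (Or.inl h))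
              · exact hw1 ((hrange2 w).2 (Or.inr h))
            · intro h
              exact hw2 (Finset.mem_filter.2 ⟨Finset.mem_univ _, h⟩)
          · apply IntermediateField.adjoin_le_iff.2
            rintro _ ⟨w, ⟨hw1, hw2⟩, rfl⟩
            exact hmem w hw1 hw2
        let c : τ → κ := fun w => if h : w ∉ Set.range e ∧ g w ≠ I then ⟨x w, hmem w h.1 h.2⟩
          else 1
        have hc : ∀ w, w ∉ Set.range e → g w ≠ I → (c w : K) = x w := by
          intro w h1 h2
          simp only [c]
          rw [dif_pos ⟨h1, h2⟩]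
        have hct : ∀ i, c (t i) = 1 := by
          intro i
          simp only [c]
          split_ifs with h
          · apply Subtype.ext
            exact hx.1 i
          · rfl
        have hcind : AlgebraicIndependent k
            (fun w : {w : τ // w ∉ Set.range e ∧ g w ≠ I ∧ w ∉ Set.range t} => c w) := by
          apply AlgebraicIndependent.of_comp κ.val
          have h1 := hindep.comp
            (fun u : {w : τ // w ∉ Set.range e ∧ g w ≠ I ∧ w ∉ Set.range t} =>
              (⟨(u : τ), u.2.2⟩ : {w : τ // g w ≠ I ∧ w ∉ Set.range t})) (by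
              intro a b hab
              exact Subtype.ext (congrArg (fun z => (z : {w : τ // g w ≠ I ∧ w ∉ Set.range t}).1) hab))
          have h2 : (⇑κ.val ∘ fun w : {w : τ // w ∉ Set.range e ∧ g w ≠ I ∧ w ∉ Set.range t} => c w)
              = ((fun w : {w : τ // g w ≠ I ∧ w ∉ Set.range t} => x w) ∘
                (fun u : {w : τ // w ∉ Set.range e ∧ g w ≠ I ∧ w ∉ Set.range t} =>
              (⟨(u : τ), u.2.2⟩ : {w : τ // g w ≠ I ∧ w ∉ Set.range t}))) := by
            funext w
            exact hc w w.2.1 w.2.2.1
          rw [h2]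
          exact h1
        refine ⟨hn2, d (g v), sliceForm g (g v) e b c F, hd _, ?_, ?_, ?_⟩
        · have h1 := isBihom_sliceForm g I (g v) (Ne.symm hvI) e b heJ hb c d F hF
          rw [hI] at h1
          exact h1
        · exact isSmoothForm_slice k κ τ ι g t ht d F hF hsm hgc I (g v) (Ne.symm hvI) n e b hei
            heJ rfl hbi hb hb0 c hct hcind
        · have h1 := isGenericPt_slice k K τ ι g t ht d F hF x hx I (g v) (Ne.symm hvI) n e b hei
            heJ rfl hbi hb hb0 κ hκ c hc
          have h2 : (fun i : Fin 2 => x ((![v, ⟨v', hv'3⟩] :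
              Fin 2 → {v : τ // v ∉ Set.range t}) i)) = fun i : Fin 2 => x (e i.succ) := by
            funext i
            fin_cases i <;> rfl
          rw [h2]
          exact h1

end Pool.Agent.LibHP
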