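import Pool.Agent.LibHP5.T3

set_option autoImplicit false

namespace Pool.Agent.LibHP

/-- The matrix with the groups as blocks. -/
def T4_mat {k τ ι : Type} [Zero k] [DecidableEq ι] (g : τ → ι) (a : τ × τ → k) :
    Matrix τ τ k := Matrix.of fun v u => if g v = g u then a (v, u) else 0

theorem T4_mat_apply {k τ ι : Type} [Zero k] [DecidableEq ι] (g : τ → ι) (a : τ × τ → k)
    (v u : τ) : T4_mat g a v u = if g v = g u then a (v, u) else 0 := rfl

theorem T4_pair (k τ ι : Type) [Field k] [CharZero k] [Fintype τ] [DecidableEq τ]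
    [Fintype ι] [DecidableEq ι] (g : τ → ι) (F : MvPolynomial τ k) (hsm : IsSmoothMulti g F)
    (v v' : τ) (hne : v ≠ v') (hg : g v = g v') :
    ∃ P : MvPolynomial (τ × τ) k, P ≠ 0 ∧ ∀ a : τ × τ → k, MvPolynomial.eval a P ≠ 0 →
      ∀ (Ω : Type) [Field Ω] [Algebra k Ω],
        LineSmooth g F (g v) Ω (fun u => algebraMap k Ω (T4_mat g a v u))
          (fun u => algebraMap k Ω (T4_mat g a v' u)) := by
  obtain ⟨h, h0, hh⟩ := exists_line_poly k τ ι g F hsm (g v) ⟨v, v', hne, rfl, hg.symm⟩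
  let f : {u // g u = g v} ⊕ {u // g u = g v} → τ × τ :=
    Sum.elim (fun u => (v, u.1)) (fun u => (v', u.1))
  have hf : Function.Injective f := by
    rintro (⟨u, hu⟩ | ⟨u, hu⟩) (⟨w, hw⟩ | ⟨w, hw⟩) huw
    · have : u = w := congrArg Prod.snd huw
      subst this
      rfl
    · exact absurd (congrArg Prod.fst huw) hne
    · exact absurd (congrArg Prod.fst huw).symm hne
    · have : u = w := congrArg Prod.snd huw
      subst this
      rfl
  refine ⟨MvPolynomial.rename f h, ?_, ?_⟩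
  · intro h1
    apply h0
    apply MvPolynomial.rename_injective f hf
    rw [h1, map_zero]
  · intro a ha Ω _ _
    apply hh
    intro hz
    apply ha
    rw [MvPolynomial.eval_rename]
    have e : a ∘ f = Sum.elim (fun u : {u // g u = g v} => T4_mat g a v u)
        (fun u : {u // g u = g v} => T4_mat g a v' u) := by
      funext u
      rcases u with ⟨u, hu⟩ | ⟨u, hu⟩
      · show a (v, u) = T4_mat g a v u
        rw [T4_mat_apply, if_pos hu.symm]
      · show a (v', u) = T4_mat g a v' u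
        rw [T4_mat_apply, if_pos (hg.symm.trans hu.symm)]
    rw [e]
    exact hz

theorem T4_det (k τ ι : Type) [Field k] [Fintype τ] [DecidableEq τ] [DecidableEq ι] (g : τ → ι) :
    ∃ P : MvPolynomial (τ × τ) k, P ≠ 0 ∧ ∀ a : τ × τ → k, MvPolynomial.eval a P ≠ 0 →
      (T4_mat g a).det ≠ 0 := by
  have key : ∀ a : τ × τ → k, MvPolynomial.eval a
      (T4_mat g (MvPolynomial.X : τ × τ → MvPolynomial (τ × τ) k)).det = (T4_mat g a).det := by
    intro a
    rw [RingHom.map_det]
    congr 1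
    ext v u
    rw [RingHom.mapMatrix_apply, Matrix.map_apply, T4_mat_apply, T4_mat_apply]
    split_ifs
    · exact MvPolynomial.eval_X _
    · exact map_zero _
  refine ⟨(T4_mat g (MvPolynomial.X : τ × τ → MvPolynomial (τ × τ) k)).det, ?_, ?_⟩
  · intro h0
    have h1 := key (fun p => (1 : Matrix τ τ k) p.1 p.2)
    have h2 : T4_mat g (fun p => (1 : Matrix τ τ k) p.1 p.2) = 1 := by
      ext v u
      rw [T4_mat_apply]
      split_ifs with h
      · rfl
      · rw [Matrix.one_apply_ne]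
        rintro rfl
        exact h rfl
    rw [h0, map_zero, h2, Matrix.det_one] at h1
    exact zero_ne_one h1
  · intro a ha
    rw [← key a]
    exact ha

/-- There are linear coordinates over `k` all of whose coordinate lines are good. -/
theorem exists_good_matrix (k τ ι : Type) [Field k] [CharZero k] [Fintype τ] [DecidableEq τ]
    [Fintype ι] [DecidableEq ι] (g : τ → ι) (F : MvPolynomial τ k) (hsm : IsSmoothMulti g F) :
    ∃ A : Matrix τ τ k, A.det ≠ 0 ∧ (∀ v u, g v ≠ g u → A v u = 0) ∧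
      ∀ v v', v ≠ v' → g v = g v' → ∀ (Ω : Type) [Field Ω] [Algebra k Ω],
        LineSmooth g F (g v) Ω (fun u => algebraMap k Ω (A v u))
          (fun u => algebraMap k Ω (A v' u)) := by
  have hpair : ∀ p : τ × τ, ∃ P : MvPolynomial (τ × τ) k, P ≠ 0 ∧
      (p.1 ≠ p.2 → g p.1 = g p.2 → ∀ a : τ × τ → k, MvPolynomial.eval a P ≠ 0 →
      ∀ (Ω : Type) [Field Ω] [Algebra k Ω],
        LineSmooth g F (g p.1) Ω (fun u => algebraMap k Ω (T4_mat g a p.1 u))
          (fun u => algebraMap k Ω (T4_mat g a p.2 u))) := by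
    intro p
    by_cases hp : p.1 ≠ p.2 ∧ g p.1 = g p.2
    · obtain ⟨P, hP0, hP⟩ := T4_pair k τ ι g F hsm p.1 p.2 hp.1 hp.2
      exact ⟨P, hP0, fun _ _ => hP⟩
    · exact ⟨1, one_ne_zero, fun h1 h2 => absurd ⟨h1, h2⟩ hp⟩
  choose P hP0 hP using hpair
  obtain ⟨Q, hQ0, hQ⟩ := T4_det k τ ι g
  have hprod : Q * ∏ p, P p ≠ 0 :=
    mul_ne_zero hQ0 (Finset.prod_ne_zero_iff.mpr fun p _ => hP0 p)
  have : ∃ a : τ × τ → k, MvPolynomial.eval a (Q * ∏ p, P p) ≠ 0 := by
    by_contra hcon
    push Not at hcon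
    apply hprod
    apply MvPolynomial.funext
    intro a
    rw [hcon a, map_zero]
  obtain ⟨a, ha⟩ := this
  rw [map_mul, map_prod] at ha
  have ha1 := left_ne_zero_of_mul ha
  have ha2 := right_ne_zero_of_mul ha
  rw [Finset.prod_ne_zero_iff] at ha2
  refine ⟨T4_mat g a, hQ a ha1, ?_, ?_⟩
  · intro v u hvu
    rw [T4_mat_apply, if_neg hvu]
  · intro v v' hne hg Ω _ _
    exact hP (v, v') hne hg a (ha2 (v, v') (Finset.mem_univ _)) Ω

end Pool.Agent.LibHP
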