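import Pool.Agent.LibHP5.T5

set_option autoImplicit false

namespace Pool.Agent.LibHP

/-- Inverting a linear change of coordinates (rows). -/
theorem T6_inv_row {k τ R : Type} [Field k] [Fintype τ] [DecidableEq τ] [CommRing R] [Algebra k R]
    (A B : Matrix τ τ k) (hAB : A * B = 1) (a : τ → R) (v : τ) :
    ∑ u, algebraMap k R (B u v) * ∑ w, algebraMap k R (A w u) * a w = a v := by
  have h1 : ∀ w, ∑ u, algebraMap k R (A w u) * algebraMap k R (B u v) =
      if w = v then 1 else 0 := by
    intro w
    have h := congrFun (congrFun hAB w) v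
    rw [Matrix.mul_apply, Matrix.one_apply] at h
    have h2 := congrArg (algebraMap k R) h
    rw [map_sum] at h2
    simp only [map_mul] at h2
    rw [h2]
    split_ifs
    · exact map_one _
    · exact map_zero _
  calc ∑ u, algebraMap k R (B u v) * ∑ w, algebraMap k R (A w u) * a w
      = ∑ u, ∑ w, algebraMap k R (A w u) * algebraMap k R (B u v) * a w := by
        apply Finset.sum_congr rfl
        intro u _
        rw [Finset.mul_sum]
        apply Finset.sum_congr rfl
        intro w _
        ring
    _ = ∑ w, (∑ u, algebraMap k R (A w u) * algebraMap k R (B u v)) * a w := by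
        rw [Finset.sum_comm]
        apply Finset.sum_congr rfl
        intro w _
        rw [Finset.sum_mul]
    _ = a v := by
        rw [Finset.sum_eq_single v]
        · rw [h1, if_pos rfl, one_mul]
        · intro w _ hw
          rw [h1, if_neg hw, zero_mul]
        · simp

/-- Inverting a linear change of coordinates (columns). -/
theorem T6_inv_col {k τ R : Type} [Field k] [Fintype τ] [DecidableEq τ] [CommRing R] [Algebra k R]
    (A B : Matrix τ τ k) (hBA : B * A = 1) (D : τ → R) (v : τ) :
    ∑ w, algebraMap k R (B v w) * ∑ u, algebraMap k R (A w u) * D u = D v := by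
  have h := T6_inv_row (R := R) (Matrix.transpose A) (Matrix.transpose B)
    (by rw [← Matrix.transpose_mul, hBA, Matrix.transpose_one]) D v
  simpa only [Matrix.transpose_apply] using h

/-- A nonzero point of a group stays nonzero. -/
theorem T6_ne {k τ ι R : Type} [Field k] [Fintype τ] [DecidableEq τ] [CommRing R] [Algebra k R]
    {g : τ → ι} (A B : Matrix τ τ k) (hAB : A * B = 1)
    (hB : ∀ v u, g v ≠ g u → B v u = 0) (a : τ → R) (i : ι) (h : ∃ v, g v = i ∧ a v ≠ 0) :
    ∃ u, g u = i ∧ ∑ w, algebraMap k R (A w u) * a w ≠ 0 := by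
  by_contra hcon
  push Not at hcon
  obtain ⟨v, hv, hav⟩ := h
  apply hav
  rw [← T6_inv_row A B hAB a v]
  apply Finset.sum_eq_zero
  intro u _
  by_cases hu : g u = g v
  · rw [hcon u (hu.trans hv), mul_zero]
  · rw [hB u v hu, map_zero, zero_mul]

theorem IsSmoothMulti.linChange {k τ ι : Type} [Field k] [Fintype τ] [DecidableEq τ]
    [DecidableEq ι] {g : τ → ι} {F : MvPolynomial τ k} (hsm : IsSmoothMulti g F)
    (A : Matrix τ τ k) (hdet : A.det ≠ 0) (hA : ∀ v u, g v ≠ g u → A v u = 0) :
    IsSmoothMulti g (linChange A F) := by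
  obtain ⟨B, hAB, hBA, hB⟩ := inv_block g A hdet hA
  intro a ha h0
  rw [aeval_linChange] at h0
  obtain ⟨v, hv⟩ := hsm _ (fun i => T6_ne A B hAB hB a i (ha i)) h0
  by_contra hcon
  push Not at hcon
  apply hv
  rw [← T6_inv_col A B hBA (fun u => MvPolynomial.aeval
    (fun u => ∑ v, algebraMap k (AlgebraicClosure k) (A v u) * a v)
      (MvPolynomial.pderiv u F)) v]
  apply Finset.sum_eq_zero
  intro w _
  have h := hcon w
  rw [aeval_pderiv_linChange] at h
  rw [h, mul_zero]

theorem goodCoord_linChange {k τ ι : Type} [Field k] [Fintype τ] [DecidableEq τ]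
    [DecidableEq ι] {g : τ → ι} {F : MvPolynomial τ k}
    (A : Matrix τ τ k) (hdet : A.det ≠ 0) (hA : ∀ v u, g v ≠ g u → A v u = 0)
    (h : ∀ v v', v ≠ v' → g v = g v' → ∀ (Ω : Type) [Field Ω] [Algebra k Ω],
        LineSmooth g F (g v) Ω (fun u => algebraMap k Ω (A v u))
          (fun u => algebraMap k Ω (A v' u))) :
    GoodCoord g (linChange A F) := by
  obtain ⟨B, hAB, hBA, hB⟩ := inv_block g A hdet hA
  intro v v' hne hg Λ _ _ s t c hst hc h0 h1 h2 h3
  set P : τ → Λ := linePt g (g v) (Pi.single v 1) (Pi.single v' 1) s t c with hP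
  set c' : τ → Λ := fun u => ∑ w, algebraMap k Λ (A w u) * c w with hc'
  have hP' : (fun u => ∑ w, algebraMap k Λ (A w u) * P w) =
      linePt g (g v) (fun u => algebraMap k Λ (A v u)) (fun u => algebraMap k Λ (A v' u))
        s t c' := by
    funext u
    by_cases hu : g u = g v
    · have e1 : linePt g (g v) (fun u => algebraMap k Λ (A v u))
          (fun u => algebraMap k Λ (A v' u)) s t c' u =
          s * algebraMap k Λ (A v u) + t * algebraMap k Λ (A v' u) := by
        unfold linePt
        rw [if_pos hu]
      rw [e1]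
      have e2 : ∀ w, algebraMap k Λ (A w u) * P w =
          s * (algebraMap k Λ (A w u) * (Pi.single v 1 : τ → Λ) w) +
            t * (algebraMap k Λ (A w u) * (Pi.single v' 1 : τ → Λ) w) := by
        intro w
        by_cases hw : g w = g v
        · rw [hP]
          unfold linePt
          rw [if_pos hw]
          ring
        · have hwu : g w ≠ g u := fun h => hw (h.trans hu)
          rw [hA w u hwu, map_zero]
          ring
      rw [Finset.sum_congr rfl (fun w _ => e2 w), Finset.sum_add_distrib, ← Finset.mul_sum,
        ← Finset.mul_sum]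
      simp [Pi.single_apply]
    · have e1 : linePt g (g v) (fun u => algebraMap k Λ (A v u))
          (fun u => algebraMap k Λ (A v' u)) s t c' u = c' u := by
        unfold linePt
        rw [if_neg hu]
      rw [e1, hc']
      apply Finset.sum_congr rfl
      intro w _
      by_cases hw : g w = g u
      · rw [hP]
        unfold linePt
        rw [if_neg (fun h => hu (hw.symm.trans h))]
      · rw [hA w u hw, map_zero, zero_mul, zero_mul]
  rw [aeval_linChange, hP'] at h0
  have hder : ∀ w, MvPolynomial.aeval P (MvPolynomial.pderiv w (linChange A F)) =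
      ∑ u, algebraMap k Λ (A w u) *
        MvPolynomial.aeval (linePt g (g v) (fun u => algebraMap k Λ (A v u))
          (fun u => algebraMap k Λ (A v' u)) s t c') (MvPolynomial.pderiv u F) := by
    intro w
    rw [aeval_pderiv_linChange, hP']
  set D : τ → Λ := fun u => MvPolynomial.aeval (linePt g (g v) (fun u => algebraMap k Λ (A v u))
          (fun u => algebraMap k Λ (A v' u)) s t c') (MvPolynomial.pderiv u F) with hD
  have hder' : ∀ w, MvPolynomial.aeval P (MvPolynomial.pderiv w (linChange A F)) =
      ∑ u, algebraMap k Λ (A w u) * D u := hder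
  have hrow : ∀ w, g w = g v → MvPolynomial.aeval P (MvPolynomial.pderiv w (linChange A F)) = 0 →
      ∑ u ∈ Finset.univ.filter (fun u => g u = g v), algebraMap k Λ (A w u) * D u = 0 := by
    intro w hw hw0
    rw [hder' w] at hw0
    rw [← hw0, Finset.sum_filter]
    apply Finset.sum_congr rfl
    intro u _
    split_ifs with hu
    · rfl
    · rw [hA w u (fun h => hu (h.symm.trans hw)), map_zero, zero_mul]
  have hv1 : MvPolynomial.aeval P (MvPolynomial.pderiv v (linChange A F)) = 0 := by
    rw [Finset.sum_eq_single v] at h2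
    · rw [Pi.single_eq_same, one_mul] at h2
      exact h2
    · intro w _ hw
      rw [Pi.single_eq_of_ne hw, zero_mul]
    · intro hmem
      exact absurd (by simp) hmem
  have hv2 : MvPolynomial.aeval P (MvPolynomial.pderiv v' (linChange A F)) = 0 := by
    rw [Finset.sum_eq_single v'] at h3
    · rw [Pi.single_eq_same, one_mul] at h3
      exact h3
    · intro w _ hw
      rw [Pi.single_eq_of_ne hw, zero_mul]
    · intro hmem
      exact absurd (by simp [hg]) hmem
  refine h v v' hne hg Λ s t c' hst ?_ h0 ?_ (hrow v rfl hv1) (hrow v' hg.symm hv2)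
  · intro i hi
    exact T6_ne A B hAB hB c i (hc i hi)
  · intro u hu
    have e := T6_inv_col A B hBA D u
    have e2 : D u = 0 := by
      rw [← e]
      apply Finset.sum_eq_zero
      intro w _
      by_cases hw : g u = g w
      · have h5 := h1 w (fun h => hu (hw.trans h))
        rw [hder' w] at h5
        rw [h5, mul_zero]
      · rw [hB u w hw, map_zero, zero_mul]
    exact e2

theorem T6_linChange_mul {k τ : Type} [Field k] [Fintype τ] (A : Matrix τ τ k)
    (F G : MvPolynomial τ k) : linChange A (F * G) = linChange A F * linChange A G := by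
  unfold linChange
  rw [map_mul]

/-- The coordinates of the generic point in the new system. -/
theorem IsMultiCoord.linChange {k K τ ι : Type} [Field k] [Field K] [Algebra k K] [Fintype τ]
    [DecidableEq τ] [DecidableEq ι] {g : τ → ι} {F : MvPolynomial τ k} {z : τ → K}
    (hz : IsMultiCoord g F z) (A B : Matrix τ τ k) (hAB : A * B = 1) (hBA : B * A = 1)
    (hA : ∀ v u, g v ≠ g u → A v u = 0) (hB : ∀ v u, g v ≠ g u → B v u = 0) :
    IsMultiCoord g (linChange A F) (fun v => ∑ u, algebraMap k K (B u v) * z u) := by
  obtain ⟨h1, h2, h3⟩ := hz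
  refine ⟨fun i => T6_ne B A hBA hA z i (h1 i), ?_, ?_⟩
  · intro d G hG
    have e1 : MvPolynomial.aeval (fun v => ∑ u, algebraMap k K (B u v) * z u) G =
        MvPolynomial.aeval z (Pool.Agent.LibHP.linChange B G) := (aeval_linChange B G z).symm
    rw [e1, h2 d _ (hG.linChange B hB)]
    constructor
    · rintro ⟨H, hH⟩
      refine ⟨Pool.Agent.LibHP.linChange A H, ?_⟩
      rw [← T6_linChange_mul, ← hH, linChange_linChange, hAB, linChange_one]
    · rintro ⟨H, hH⟩
      refine ⟨Pool.Agent.LibHP.linChange B H, ?_⟩
      rw [hH, T6_linChange_mul, linChange_linChange, hBA, linChange_one]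
  · rw [eq_top_iff, ← h3, IntermediateField.adjoin_le_iff]
    rintro c ⟨v, w, hvw, hw, rfl⟩
    obtain ⟨w0, hw0, hz0⟩ := T6_ne B A hBA hA z (g w) ⟨w, rfl, hw⟩
    set z' : τ → K := fun v => ∑ u, algebraMap k K (B u v) * z u with hz'
    set M := IntermediateField.adjoin k {c : K | ∃ v w, g v = g w ∧ z' w ≠ 0 ∧ c = z' v / z' w}
      with hM
    have key : ∀ v, g v = g w → z v / z' w0 ∈ M := by
      intro v hv
      have e : z v = ∑ u, algebraMap k K (A u v) * z' u := (T6_inv_row B A hBA z v).symm
      rw [e, Finset.sum_div]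
      apply sum_mem
      intro u _
      by_cases hu : g u = g v
      · rw [mul_div_assoc]
        apply mul_mem (M.algebraMap_mem _)
        apply IntermediateField.subset_adjoin
        exact ⟨u, w0, hu.trans (hv.trans hw0.symm), hz0, rfl⟩
      · rw [hA u v hu, map_zero, zero_mul, zero_div]
        exact zero_mem _
    have e : z v / z w = (z v / z' w0) / (z w / z' w0) := by
      have hz0' : z' w0 ≠ 0 := hz0
      field_simp
    show z v / z w ∈ M
    rw [e]
    exact div_mem (key v hvw) (key w rfl)

end Pool.Agent.LibHP
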