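import Pool.Agent.LibHP5.S0

set_option autoImplicit false

namespace Pool.Agent.LibHP

/-- The values of a multihomogeneous form at the normalized coordinates. -/
theorem T7_aeval {k K τ ι : Type} [Field k] [Field K] [Algebra k K] [Fintype τ]
    [Fintype ι] [DecidableEq ι] {g : τ → ι} {d : ι → ℕ} {G : MvPolynomial τ k}
    (hG : IsMultiHom g d G) (z : τ → K) (c : ι → K) :
    MvPolynomial.aeval (fun v => z v / c (g v)) G =
      MvPolynomial.aeval z G / ∏ i, c i ^ d i := by
  rw [MvPolynomial.aeval_def, MvPolynomial.eval₂_eq', MvPolynomial.aeval_def,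
    MvPolynomial.eval₂_eq', Finset.sum_div]
  apply Finset.sum_congr rfl
  intro s hs
  rw [mul_div_assoc]
  congr 1
  have h1 : ∏ i, c i ^ d i = ∏ v, c (g v) ^ s v := by
    rw [← Finset.prod_fiberwise Finset.univ g (fun v => c (g v) ^ s v)]
    apply Finset.prod_congr rfl
    intro i _
    rw [← hG s hs i, ← Finset.prod_pow_eq_pow_sum]
    apply Finset.prod_congr rfl
    intro v hv
    rw [(Finset.mem_filter.mp hv).2]
  rw [h1, ← Finset.prod_div_distrib]
  apply Finset.prod_congr rfl
  intro v _
  rw [div_pow]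

theorem T7_isMultiHom_X {k τ ι : Type} [Field k] [Fintype τ] [DecidableEq τ]
    [DecidableEq ι] (g : τ → ι) (v : τ) :
    IsMultiHom g (Pi.single (g v) 1) (MvPolynomial.X v : MvPolynomial τ k) := by
  intro s hs i
  have hs' : s = Finsupp.single v 1 := by
    rw [MvPolynomial.mem_support_iff, MvPolynomial.coeff_X'] at hs
    by_contra hne
    exact hs (if_neg (fun h => hne h.symm))
  subst hs'
  by_cases hi : i = g v
  · subst hi
    rw [Pi.single_eq_same, Finset.sum_eq_single v]
    · simp
    · intro w _ hw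
      exact Finsupp.single_eq_of_ne hw
    · intro h
      exact absurd (by simp) h
  · rw [Pi.single_eq_of_ne hi]
    apply Finset.sum_eq_zero
    intro w hw
    apply Finsupp.single_eq_of_ne
    rintro rfl
    exact hi (Finset.mem_filter.mp hw).2.symm

/-- Normalization of the coordinates. -/
theorem IsMultiCoord.isMultiPt {k K τ ι : Type} [Field k] [Field K] [Algebra k K] [Fintype τ]
    [DecidableEq τ] [Fintype ι] [DecidableEq ι] {g : τ → ι} {d : ι → ℕ} {F : MvPolynomial τ k}
    (hF : IsMultiHom g d F) (hd : ∀ i, 2 ≤ d i) {z : τ → K} (hz : IsMultiCoord g F z)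
    (t : ι → τ) (ht : ∀ i, g (t i) = i) :
    IsMultiPt g F t (fun v => z v / z (t (g v))) := by
  obtain ⟨h1, h2, h3⟩ := hz
  have hne : ∀ i, z (t i) ≠ 0 := by
    intro i h0
    have hX := T7_isMultiHom_X (k := k) g (t i)
    have hdvd := (h2 _ _ hX).mp (by rw [MvPolynomial.aeval_X]; exact h0)
    have hle := hF.le_of_dvd hX (MvPolynomial.X_ne_zero _) hdvd i
    rw [ht i, Pi.single_eq_same] at hle
    have := hd i
    omega
  refine ⟨?_, ?_, ?_⟩
  · intro i
    show z (t i) / z (t (g (t i))) = 1
    rw [ht i]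
    exact div_self (hne i)
  · intro d' G hG
    have e := T7_aeval hG z (fun i => z (t i))
    have e' : MvPolynomial.aeval (fun v => z v / z (t (g v))) G =
      MvPolynomial.aeval z G / ∏ i, z (t i) ^ d' i := e
    rw [e', div_eq_zero_iff, ← h2 d' G hG]
    constructor
    · rintro (h | h)
      · exact h
      · exact absurd h (Finset.prod_ne_zero_iff.mpr fun i _ => pow_ne_zero _ (hne i))
    · intro h
      exact Or.inl h
  · rw [eq_top_iff, ← h3, IntermediateField.adjoin_le_iff]
    rintro c ⟨v, w, hvw, hw, rfl⟩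
    have e : z v / z w = (z v / z (t (g v))) / (z w / z (t (g w))) := by
      rw [hvw]
      have := hne (g w)
      field_simp
    show z v / z w ∈ IntermediateField.adjoin k (Set.range fun v => z v / z (t (g v)))
    rw [e]
    exact div_mem (IntermediateField.subset_adjoin _ _ ⟨v, rfl⟩)
      (IntermediateField.subset_adjoin _ _ ⟨w, rfl⟩)

end Pool.Agent.LibHP
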