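import Pool.Agent.LibHP5.ModelDef
import Pool.Agent.LibHP5.H4
import Pool.Agent.LibHP5.S6
import Pool.Agent.LibHP5.T4
import Pool.Agent.LibHP5.T6
import Pool.Agent.LibHP5.T7
import Pool.Agent.LibHP3.U7
import Pool.Agent.LibHP3.M1
import Pool.Agent.LibHP2.Z3

set_option autoImplicit false
open AlgebraicGeometry CategoryTheory

namespace Pool.Agent.LibHP

/-- Varieties whose function field has slices. -/
theorem main_slices (k : Type) [Field k] [NumberField k] (σ : Type) [Fintype σ] [DecidableEq σ]
    (I : Finset σ) (X : Scheme) [IsIntegral X] (f : X ⟶ Spec (CommRingCat.of k))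
    (hs : Smooth f) (hsep : IsSeparated f) (hqc : QuasiCompact f)
    (hX : letI : Algebra k X.functionField := (toStalk f (genericPoint X)).toAlgebra
      ∃ x : σ → X.functionField, HasSlices k X.functionField σ x I)
    (hdense : Dense {x : X | ∃ s : Spec (CommRingCat.of k) ⟶ X, s ≫ f = 𝟙 _ ∧
      x ∈ Set.range s.base}) : HilbertProp f := by
  classical
  let algK : Algebra k X.functionField := (toStalk f (genericPoint X)).toAlgebra
  obtain ⟨x, hx⟩ := hX
  obtain ⟨U, r, F', h4, h5, h6⟩ := exists_independent_embedding_slices k X.functionField σ x I hx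
  have : Fintype U := Fintype.ofFinite U
  obtain ⟨n0, F0, hF0⟩ := exists_unirational_of_independent k f hdense U
    ⟨fun u : U => x u, r, F', h4, h5, h6⟩
  let F1 : X.functionField →ₐ[k] RF k n0 := { toRingHom := F0, commutes' := hF0 }
  obtain ⟨L, _, hA, n, j, hfd, hcl, hjk, hlift, hmin⟩ :=
    exists_liftable_min k X.functionField n0 F1
  have hsurj : Function.Surjective (algebraMap X.functionField L) :=
    surjective_of_slices k X.functionField σ x I hx L n j hcl hjk hlift hmin
  refine hilbertProp_of_embedding k f n (j.comp (algebraMap X.functionField L)) hjk ?_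
  rintro e ⟨P, hP, hPe⟩
  obtain ⟨l, rfl⟩ := hcl e ⟨P.map (algebraMap X.functionField L),
    (Polynomial.map_ne_zero_iff (algebraMap X.functionField L).injective).mpr hP, by
    rw [Polynomial.eval₂_map]; exact hPe⟩
  obtain ⟨a, rfl⟩ := hsurj l
  exact ⟨a, rfl⟩

/-- Smooth hypersurfaces in products of projective spaces. -/
theorem main_multi (k : Type) [Field k] [NumberField k] (τ ι : Type) [Fintype τ] [DecidableEq τ]
    [Fintype ι] [DecidableEq ι] (g : τ → ι) (hn : ∀ i, 3 ≤ Fintype.card {v // g v = i})
    (d : ι → ℕ) (hd : ∀ i, d i = 2 ∨ d i = 3) (I J : ι) (hIJ : I ≠ J) (hI : d I = 2)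
    (F : MvPolynomial τ k) (hF : IsMultiHom g d F) (hsm : IsSmoothMulti g F)
    (X : Scheme) [IsIntegral X] (f : X ⟶ Spec (CommRingCat.of k))
    (hs : Smooth f) (hsep : IsSeparated f) (hqc : QuasiCompact f) (hX : IsMultiModelOf f g F)
    (hdense : Dense {x : X | ∃ s : Spec (CommRingCat.of k) ⟶ X, s ≫ f = 𝟙 _ ∧
      x ∈ Set.range s.base}) : HilbertProp f := by
  classical
  let algK : Algebra k X.functionField := (toStalk f (genericPoint X)).toAlgebra
  obtain ⟨z, h1, h2, h3⟩ := hX
  have hz : IsMultiCoord g F z := by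
    refine ⟨h1, h2, ?_⟩
    rw [eq_top_iff]
    intro c _
    have h4 : c ∈ Subfield.closure (Set.range (toStalk f (genericPoint X)) ∪
      {c | ∃ v w, g v = g w ∧ z w ≠ 0 ∧ c = z v / z w}) := by
      rw [h3]
      trivial
    exact h4
  obtain ⟨A, hdet, hA, hline⟩ := exists_good_matrix k τ ι g F hsm
  obtain ⟨B, hAB, hBA, hB⟩ := inv_block g A hdet hA
  have hgc := goodCoord_linChange (F := F) A hdet hA hline
  have hF' := hF.linChange A hA
  have hsm' := hsm.linChange A hdet hA
  have hz' := hz.linChange A B hAB hBA hA hB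
  have ht : ∀ i, ∃ v, g v = i := by
    intro i
    have h5 : 0 < Fintype.card {v // g v = i} := by
      have := hn i
      omega
    obtain ⟨v⟩ := Fintype.card_pos_iff.1 h5
    exact ⟨v.1, v.2⟩
  choose t ht using ht
  have hpt := hz'.isMultiPt hF' (fun i => by rcases hd i with h | h <;> omega) t ht
  have hsl := hasSlices_of_multi k X.functionField τ ι g t ht d hd hn _ hF' hsm' hgc _ hpt I J
    hIJ hI
  exact main_slices k {v : τ // v ∉ Set.range t} _ X f hs hsep hqc ⟨_, hsl⟩ hdense

end Pool.Agent.LibHP
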