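import Pool.Agent.LibHP.SDefs
import Pool.Agent.LibHP5.Defs

set_option autoImplicit false
open AlgebraicGeometry CategoryTheory

namespace Pool.Agent.LibHP

/-- `X` is birational to the hypersurface `F = 0`: there is a system `z` of homogeneous coordinates,
with values in the function field of `X`, of a generic point of this hypersurface, and the function
field is generated over `k` by the ratios of coordinates in the same group. -/
def IsMultiModelOf {k : Type} [Field k] {X : Scheme} [IsIntegral X]
    (f : X ⟶ Spec (CommRingCat.of k)) {τ ι : Type} [Fintype τ] [DecidableEq ι] (g : τ → ι)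
    (F : MvPolynomial τ k) : Prop :=
  ∃ z : τ → X.functionField,
    (∀ i, ∃ v, g v = i ∧ z v ≠ 0) ∧
    (∀ (d : ι → ℕ) (G : MvPolynomial τ k), IsMultiHom g d G →
      (MvPolynomial.eval₂ (toStalk f (genericPoint X)) z G = 0 ↔ F ∣ G)) ∧
    Subfield.closure (Set.range (toStalk f (genericPoint X)) ∪
      {c | ∃ v w, g v = g w ∧ z w ≠ 0 ∧ c = z v / z w}) = ⊤

end Pool.Agent.LibHP
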