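import Pool.Agent.LibHP5.Defs

set_option autoImplicit false

namespace Pool.Agent.LibHP

theorem S0_prod_eq {τ ι A : Type} [Fintype τ] [DecidableEq τ] [Fintype ι] [CommRing A]
    (t : ι → τ) (z : τ → A) (hz : ∀ i, z (t i) = 1) (s : τ →₀ ℕ) (c : ι → ℕ) :
    ((s + ∑ i, Finsupp.single (t i) (c i)).prod fun v k => z v ^ k) = s.prod fun v k => z v ^ k := by
  rw [Finsupp.prod_add_index' (fun _ => pow_zero _) (fun _ _ _ => pow_add _ _ _)]
  have h : ∀ S : Finset ι, ((∑ i ∈ S, Finsupp.single (t i) (c i)).prod fun v k => z v ^ k) = 1 := by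
    classical
    intro S
    induction S using Finset.induction_on with
    | empty => simp
    | insert a S ha ih =>
      rw [Finset.sum_insert ha, Finsupp.prod_add_index' (fun _ => pow_zero _)
        (fun _ _ _ => pow_add _ _ _), ih, mul_one,
        Finsupp.prod_single_index (h := fun v k => z v ^ k) (pow_zero _), hz, one_pow]
  rw [h, mul_one]

/-- Multihomogenization with respect to the distinguished coordinates. -/
theorem exists_multihomogenize (k τ ι : Type) [Field k] [Fintype τ] [DecidableEq τ] [Fintype ι]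
    [DecidableEq ι] (g : τ → ι) (t : ι → τ) (ht : ∀ i, g (t i) = i) (P : MvPolynomial τ k) :
    ∃ (N : ι → ℕ) (Q : MvPolynomial τ k), IsMultiHom g N Q ∧
      (∀ (A : Type) [CommRing A] [Algebra k A] (z : τ → A), (∀ i, z (t i) = 1) →
        MvPolynomial.aeval z Q = MvPolynomial.aeval z P) ∧
      ∀ i, (∀ v ∈ P.vars, g v ≠ i) → N i = 0 := by
  classical
  let dg : ι → (τ →₀ ℕ) → ℕ := fun i s => ∑ v ∈ Finset.univ.filter (fun v => g v = i), s v
  let N : ι → ℕ := fun i => P.support.sup (dg i)
  let e : (τ →₀ ℕ) → (τ →₀ ℕ) := fun s => s + ∑ i, Finsupp.single (t i) (N i - dg i s)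
  refine ⟨N, ∑ s ∈ P.support, MvPolynomial.monomial (e s) (P.coeff s), ?_, ?_, ?_⟩
  · intro s' hs' i
    have h1 := MvPolynomial.support_sum hs'
    obtain ⟨s, hs, hs2⟩ := Finset.mem_biUnion.mp h1
    have h2 : s' = e s := by
      have := MvPolynomial.support_monomial_subset hs2
      exact Finset.mem_singleton.mp this
    rw [h2]
    have h3 : dg i s ≤ N i := Finset.le_sup (f := dg i) hs
    have h4 : ∑ v ∈ Finset.univ.filter (fun v => g v = i),
        (∑ j, Finsupp.single (t j) (N j - dg j s) : τ →₀ ℕ) v = N i - dg i s := by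
      simp only [Finsupp.coe_finsetSum, Finset.sum_apply]
      rw [Finset.sum_comm]
      rw [Finset.sum_eq_single i]
      · rw [Finset.sum_eq_single (t i)]
        · simp
        · intro b _ hb
          rw [Finsupp.single_apply, if_neg (Ne.symm hb)]
        · intro h
          exact (h (Finset.mem_filter.mpr ⟨Finset.mem_univ _, ht i⟩)).elim
      · intro j _ hj
        apply Finset.sum_eq_zero
        intro v hv
        rw [Finsupp.single_apply, if_neg]
        rintro rfl
        exact hj ((ht j).symm.trans (Finset.mem_filter.mp hv).2)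
      · intro h
        exact absurd (Finset.mem_univ _) h
    change ∑ v ∈ Finset.univ.filter (fun v => g v = i),
      (s + ∑ j, Finsupp.single (t j) (N j - dg j s) : τ →₀ ℕ) v = N i
    simp only [Finsupp.add_apply]
    rw [Finset.sum_add_distrib, h4]
    change dg i s + (N i - dg i s) = N i
    omega
  · intro A _ _ z hz
    rw [map_sum]
    conv_rhs => rw [P.as_sum, map_sum]
    apply Finset.sum_congr rfl
    intro s _
    rw [MvPolynomial.aeval_monomial, MvPolynomial.aeval_monomial, S0_prod_eq t z hz]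
  · intro i hi
    apply Nat.eq_zero_of_le_zero
    apply Finset.sup_le
    intro s hs
    apply le_of_eq
    apply Finset.sum_eq_zero
    intro v hv
    by_contra h
    exact hi v ((MvPolynomial.mem_vars_iff_mem_support v).mpr ⟨s, hs, Finsupp.mem_support_iff.mpr h⟩)
      (Finset.mem_filter.mp hv).2

/-- Euler's formula for one group of variables. -/
theorem IsMultiHom.euler {k τ ι : Type} [Field k] [Fintype τ] [DecidableEq ι] {g : τ → ι}
    {d : ι → ℕ} {F : MvPolynomial τ k} (hF : IsMultiHom g d F) (i : ι) :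
    ∑ v ∈ Finset.univ.filter (fun v => g v = i), MvPolynomial.X v * MvPolynomial.pderiv v F =
      (d i : MvPolynomial τ k) * F := by
  have h : ∀ v : τ, MvPolynomial.X v * MvPolynomial.pderiv v F =
      ∑ s ∈ F.support, (s v : ℕ) • MvPolynomial.monomial s (F.coeff s) := by
    intro v
    conv_lhs => rw [F.as_sum, map_sum, Finset.mul_sum]
    apply Finset.sum_congr rfl
    intro s _
    rw [MvPolynomial.X_mul_pderiv_monomial]
  simp only [h]
  rw [Finset.sum_comm]
  conv_rhs => rw [F.as_sum, Finset.mul_sum]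
  apply Finset.sum_congr rfl
  intro s hs
  rw [← Finset.sum_smul, hF s hs i, nsmul_eq_mul]

theorem S0_scale {k τ ι : Type} [Field k] [Fintype τ] [DecidableEq ι] {g : τ → ι}
    {d : ι → ℕ} {F : MvPolynomial τ k} (hF : IsMultiHom g d F) (i : ι) :
    MvPolynomial.aeval (fun v => if g v = i then Polynomial.C (MvPolynomial.X v) * Polynomial.X
      else Polynomial.C (MvPolynomial.X (R := k) v)) F =
      Polynomial.C F * (Polynomial.X : Polynomial (MvPolynomial τ k)) ^ d i := by
  classical
  conv_lhs => rw [F.as_sum, map_sum]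
  conv_rhs => rw [F.as_sum, map_sum, Finset.sum_mul]
  apply Finset.sum_congr rfl
  intro s hs
  rw [MvPolynomial.aeval_monomial]
  have h1 : (s.prod fun v k_1 => (if g v = i then Polynomial.C (MvPolynomial.X v) * Polynomial.X
      else Polynomial.C (MvPolynomial.X (R := k) v)) ^ k_1) =
      Polynomial.C (s.prod fun v n => (MvPolynomial.X (R := k) v) ^ n) *
        (Polynomial.X : Polynomial (MvPolynomial τ k)) ^ d i := by
    rw [Finsupp.prod_fintype _ _ (fun _ => pow_zero _),
      Finsupp.prod_fintype _ _ (fun _ => pow_zero _), ← hF s hs i, ← Finset.prod_pow_eq_pow_sum,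
      Finset.prod_filter, map_prod, ← Finset.prod_mul_distrib]
    apply Finset.prod_congr rfl
    intro v _
    by_cases hv : g v = i
    · rw [if_pos hv, if_pos hv, mul_pow, map_pow]
    · rw [if_neg hv, if_neg hv, mul_one, map_pow]
  rw [h1, ← mul_assoc, MvPolynomial.monomial_eq]
  congr 1
  rw [map_mul]
  rfl

/-- The group degree of a divisor. -/
theorem IsMultiHom.le_of_dvd {k τ ι : Type} [Field k] [Fintype τ] [DecidableEq ι] {g : τ → ι}
    {d d' : ι → ℕ} {F G : MvPolynomial τ k} (hF : IsMultiHom g d F) (hG : IsMultiHom g d' G)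
    (hG0 : G ≠ 0) (h : F ∣ G) (i : ι) : d i ≤ d' i := by
  obtain ⟨H, rfl⟩ := h
  have hF0 : F ≠ 0 := left_ne_zero_of_mul hG0
  have h1 := S0_scale hG i
  rw [map_mul, S0_scale hF i] at h1
  set P := MvPolynomial.aeval (fun v => if g v = i then
    Polynomial.C (MvPolynomial.X v) * Polynomial.X
      else Polynomial.C (MvPolynomial.X (R := k) v)) H with hP
  have h2 := congrArg Polynomial.natDegree h1
  have hC : (Polynomial.C F * (Polynomial.X : Polynomial (MvPolynomial τ k)) ^ d i) ≠ 0 :=
    mul_ne_zero (by simpa using hF0) (pow_ne_zero _ Polynomial.X_ne_zero)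
  have hR : Polynomial.C (F * H) * (Polynomial.X : Polynomial (MvPolynomial τ k)) ^ d' i ≠ 0 :=
    mul_ne_zero (by simpa using hG0) (pow_ne_zero _ Polynomial.X_ne_zero)
  have hP0 : P ≠ 0 := by
    intro h0
    rw [h0, mul_zero] at h1
    exact hR h1.symm
  rw [Polynomial.natDegree_mul hC hP0, Polynomial.natDegree_C_mul_X_pow _ _ hF0,
    Polynomial.natDegree_C_mul_X_pow _ _ hG0] at h2
  omega

end Pool.Agent.LibHP
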