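import Pool.Agent.LibHP5.S0
import Pool.Agent.LibHP5.S1

set_option autoImplicit false

namespace Pool.Agent.LibHP

/-- The values of `slicePt`. -/
theorem S2_slicePt_e {τ ι A : Type} [CommRing A] (g : τ → ι) (J : ι) {n : ℕ}
    (e : Fin (2 + 1) → τ) (he : Function.Injective e) (b : Fin (n + 1) → τ) (c : τ → A)
    (α : Fin (2 + 1) → A) (β : Fin (n + 1) → A) (i : Fin (2 + 1)) :
    slicePt g J e b c α β (e i) = α i := by
  have h : ∃ i', e i' = e i := ⟨i, rfl⟩
  rw [slicePt, dif_pos h, he h.choose_spec]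

theorem S2_slicePt_b {τ ι A : Type} [CommRing A] (g : τ → ι) (J : ι) {n : ℕ}
    (e : Fin (2 + 1) → τ) (b : Fin (n + 1) → τ) (hbi : Function.Injective b) (c : τ → A)
    (α : Fin (2 + 1) → A) (β : Fin (n + 1) → A) (j : Fin (n + 1)) (hj : b j ∉ Set.range e) :
    slicePt g J e b c α β (b j) = β j := by
  have h : ¬ ∃ i', e i' = b j := hj
  have h' : ∃ i', b i' = b j := ⟨j, rfl⟩
  rw [slicePt, dif_neg h, dif_pos h', hbi h'.choose_spec]

theorem S2_slicePt_other {τ ι A : Type} [CommRing A] (g : τ → ι) (J : ι) {n : ℕ}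
    (e : Fin (2 + 1) → τ) (b : Fin (n + 1) → τ) (c : τ → A)
    (α : Fin (2 + 1) → A) (β : Fin (n + 1) → A) (hα : α 0 = 1) (w : τ) (hw : w ∉ Set.range e)
    (hw' : w ∉ Set.range b) : slicePt g J e b c α β w = c w := by
  have h : ¬ ∃ i', e i' = w := hw
  have h' : ¬ ∃ i', b i' = w := hw'
  rw [slicePt, dif_neg h, dif_neg h', hα, mul_one, ite_self]

/-- Elements of `κ` come from polynomials, up to a denominator. -/
theorem S2_denom {k K τ σ : Type} [Field k] [Field K] [Algebra k K] (κ : IntermediateField k K)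
    (x : τ → K) (W : Set τ) (hκ : κ = IntermediateField.adjoin k (x '' W))
    (z : τ → MvPolynomial σ κ) (hz : ∀ w ∈ W, ∃ c : κ, (c : K) = x w ∧ z w = MvPolynomial.C c)
    (a : K) (ha : a ∈ κ) :
    ∃ c0 c1 : κ, c0 ≠ 0 ∧ (c1 : K) = c0 * a ∧ ∃ P Q : MvPolynomial τ k,
      MvPolynomial.aeval z Q = MvPolynomial.C c0 ∧ MvPolynomial.aeval z P = MvPolynomial.C c1 := by
  rw [hκ] at ha
  induction ha using IntermediateField.adjoin_induction with
  | mem a ha =>
    obtain ⟨w, hw, rfl⟩ := ha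
    obtain ⟨c, hc, hc'⟩ := hz w hw
    refine ⟨1, c, one_ne_zero, by simp [hc], MvPolynomial.X w, 1, by simp, ?_⟩
    rw [MvPolynomial.aeval_X, hc']
  | algebraMap r =>
    refine ⟨1, algebraMap k κ r, one_ne_zero, by simp, MvPolynomial.C r, 1, by simp, ?_⟩
    rw [MvPolynomial.aeval_C]
    rfl
  | add a a' _ _ ha ha' =>
    obtain ⟨c0, c1, h0, h1, P, Q, hQ, hP⟩ := ha
    obtain ⟨c0', c1', h0', h1', P', Q', hQ', hP'⟩ := ha'
    refine ⟨c0 * c0', c1 * c0' + c0 * c1', mul_ne_zero h0 h0', ?_, P * Q' + Q * P', Q * Q', ?_, ?_⟩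
    · push_cast
      rw [h1, h1']
      ring
    · rw [map_mul, hQ, hQ', map_mul]
    · rw [map_add, map_mul, map_mul, hP, hQ', hQ, hP', map_add, map_mul, map_mul]
  | inv a _ ha =>
    obtain ⟨c0, c1, h0, h1, P, Q, hQ, hP⟩ := ha
    by_cases ha0 : a = 0
    · refine ⟨1, 0, one_ne_zero, by simp [ha0], 0, 1, by simp, by simp⟩
    · refine ⟨c1, c0, ?_, ?_, Q, P, hP, hQ⟩
      · intro h
        rw [h] at h1
        have h2 : (c0 : K) * a = 0 := by
          rw [← h1]
          rfl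
        rcases mul_eq_zero.1 h2 with h3 | h3
        · exact h0 (by exact_mod_cast h3)
        · exact ha0 h3
      · rw [h1, mul_assoc, mul_inv_cancel₀ ha0, mul_one]
  | mul a a' _ _ ha ha' =>
    obtain ⟨c0, c1, h0, h1, P, Q, hQ, hP⟩ := ha
    obtain ⟨c0', c1', h0', h1', P', Q', hQ', hP'⟩ := ha'
    refine ⟨c0 * c0', c1 * c1', mul_ne_zero h0 h0', ?_, P * P', Q * Q', ?_, ?_⟩
    · push_cast
      rw [h1, h1']
      ring
    · rw [map_mul, hQ, hQ', map_mul]
    · rw [map_mul, hP, hP', map_mul]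

/-- The same for polynomials over `κ`. -/
theorem S2_denom_poly {k K τ σ : Type} [Field k] [Field K] [Algebra k K]
    (κ : IntermediateField k K)
    (x : τ → K) (W : Set τ) (hκ : κ = IntermediateField.adjoin k (x '' W))
    (z : τ → MvPolynomial σ κ) (hz : ∀ w ∈ W, ∃ c : κ, (c : K) = x w ∧ z w = MvPolynomial.C c)
    (hX : ∀ s : σ, ∃ v, z v = MvPolynomial.X s) (G : MvPolynomial σ κ) :
    ∃ c0 : κ, c0 ≠ 0 ∧ ∃ P Q : MvPolynomial τ k,
      MvPolynomial.aeval z Q = MvPolynomial.C c0 ∧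
      MvPolynomial.aeval z P = MvPolynomial.C c0 * G := by
  induction G using MvPolynomial.induction_on with
  | C a =>
    obtain ⟨c0, c1, h0, h1, P, Q, hQ, hP⟩ := S2_denom κ x W hκ z hz a a.2
    refine ⟨c0, h0, P, Q, hQ, ?_⟩
    rw [hP, ← map_mul]
    congr 1
    exact Subtype.ext h1
  | add G G' hG hG' =>
    obtain ⟨c0, h0, P, Q, hQ, hP⟩ := hG
    obtain ⟨c0', h0', P', Q', hQ', hP'⟩ := hG'
    refine ⟨c0 * c0', mul_ne_zero h0 h0', P * Q' + Q * P', Q * Q', ?_, ?_⟩
    · rw [map_mul, hQ, hQ', map_mul]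
    · rw [map_add, map_mul, map_mul, hP, hQ', hQ, hP', map_mul]
      ring
  | mul_X G s hG =>
    obtain ⟨c0, h0, P, Q, hQ, hP⟩ := hG
    obtain ⟨v, hv⟩ := hX s
    refine ⟨c0, h0, P * MvPolynomial.X v, Q, hQ, ?_⟩
    rw [map_mul, MvPolynomial.aeval_X, hP, hv, mul_assoc]

/-- The coordinates form a generic point of the slice. -/
theorem isGenericPt_slice (k K τ ι : Type) [Field k] [Field K] [Algebra k K] [Fintype τ]
    [DecidableEq τ] [Fintype ι] [DecidableEq ι] (g : τ → ι) (t : ι → τ) (ht : ∀ i, g (t i) = i)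
    (d : ι → ℕ) (F : MvPolynomial τ k) (hF : IsMultiHom g d F) (x : τ → K)
    (hx : IsMultiPt g F t x)
    (I J : ι) (hIJ : I ≠ J) (n : ℕ) (e : Fin (2 + 1) → τ) (b : Fin (n + 1) → τ)
    (he : Function.Injective e) (heJ : ∀ i, g (e i) = J) (he0 : e 0 = t J)
    (hbi : Function.Injective b) (hb : ∀ v, v ∈ Set.range b ↔ g v = I) (hb0 : b 0 = t I)
    (κ : IntermediateField k K)
    (hκ : κ = IntermediateField.adjoin k (x '' {w | w ∉ Set.range e ∧ g w ≠ I}))
    (c : τ → κ) (hc : ∀ w, w ∉ Set.range e → g w ≠ I → (c w : K) = x w) :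
    IsGenericPt (sliceForm g J e b c F) (fun i => x (e i.succ)) (fun j => x (b j.succ)) := by
  classical
  obtain ⟨hx1, hx2, hx3⟩ := hx
  set R := MvPolynomial (Fin 2 ⊕ Fin n) κ with hR
  set α : Fin (2 + 1) → R := Fin.cons 1 fun i => MvPolynomial.X (Sum.inl i) with hα
  set β : Fin (n + 1) → R := Fin.cons 1 fun j => MvPolynomial.X (Sum.inr j) with hβ
  set z : τ → R := slicePt g J e b (fun w => algebraMap κ R (c w)) α β with hz
  have hdehom : dehom (sliceForm g J e b c F) = MvPolynomial.aeval z F :=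
    aeval_sliceForm g J e b c F α β
  have hbe : ∀ j, b j ∉ Set.range e := by
    rintro j ⟨i, hi⟩
    have h1 := (hb (b j)).1 ⟨j, rfl⟩
    rw [← hi, heJ] at h1
    exact hIJ h1.symm
  have hze : ∀ i, z (e i) = α i := fun i => S2_slicePt_e g J e he b _ α β i
  have hzb : ∀ j, z (b j) = β j := fun j => S2_slicePt_b g J e b hbi _ α β j (hbe j)
  have hzo : ∀ w, w ∉ Set.range e → g w ≠ I → z w = MvPolynomial.C (c w) := by
    intro w hw hw'
    exact S2_slicePt_other g J e b _ α β rfl w hw (fun h => hw' ((hb w).1 h))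
  set y : Fin 2 ⊕ Fin n → K :=
    Sum.elim (fun i => x (e i.succ)) (fun j => x (b j.succ)) with hy
  have hcase : ∀ w, (∃ i, e i = w) ∨ (∃ j, b j = w) ∨ (w ∉ Set.range e ∧ g w ≠ I) := by
    intro w
    by_cases h1 : ∃ i, e i = w
    · exact Or.inl h1
    · by_cases h2 : ∃ j, b j = w
      · exact Or.inr (Or.inl h2)
      · exact Or.inr (Or.inr ⟨h1, fun h => h2 ((hb w).2 h)⟩)
  -- the values of `z` at the point
  have hval : ∀ w, MvPolynomial.aeval y (z w) = x w := by
    intro w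
    rcases hcase w with ⟨i, rfl⟩ | ⟨j, rfl⟩ | ⟨h1, h2⟩
    · rw [hze]
      refine Fin.cases ?_ (fun i => ?_) i
      · rw [hα, Fin.cons_zero, map_one, he0, hx1]
      · rw [hα, Fin.cons_succ, MvPolynomial.aeval_X]
        rfl
    · rw [hzb]
      refine Fin.cases ?_ (fun j => ?_) j
      · rw [hβ, Fin.cons_zero, map_one, hb0, hx1]
      · rw [hβ, Fin.cons_succ, MvPolynomial.aeval_X]
        rfl
    · rw [hzo w h1 h2, MvPolynomial.aeval_C, ← hc w h1 h2]
      rfl
  have hzt : ∀ i, z (t i) = 1 := by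
    intro i
    rcases hcase (t i) with ⟨i', hi'⟩ | ⟨j, hj⟩ | ⟨h1, h2⟩
    · have h3 : i = J := by rw [← ht i, ← hi', heJ]
      rw [h3, ← he0, hze, hα, Fin.cons_zero]
    · have h3 : i = I := by
        rw [← ht i, ← hj]
        exact (hb _).1 ⟨j, rfl⟩
      rw [h3, ← hb0, hzb, hβ, Fin.cons_zero]
    · rw [hzo _ h1 h2]
      have h3 : c (t i) = 1 := by
        apply Subtype.ext
        rw [hc _ h1 h2, hx1]
        rfl
      rw [h3, map_one]
  have hcomp : ∀ P : MvPolynomial τ k, MvPolynomial.aeval y (MvPolynomial.aeval z P) =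
      MvPolynomial.aeval x P := by
    intro P
    have h1 : ((MvPolynomial.aeval y : R →ₐ[κ] K).restrictScalars k).comp
        (MvPolynomial.aeval z : MvPolynomial τ k →ₐ[k] R) = MvPolynomial.aeval x := by
      apply MvPolynomial.algHom_ext
      intro w
      change MvPolynomial.aeval y (MvPolynomial.aeval z (MvPolynomial.X w)) = _
      rw [MvPolynomial.aeval_X, MvPolynomial.aeval_X, hval]
    exact congrArg (fun f : MvPolynomial τ k →ₐ[k] K => f P) h1
  refine ⟨fun G => ?_, fun a => ?_⟩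
  · rw [hdehom]
    constructor
    · intro hG
      obtain ⟨c0, h0, P, Q, -, hP⟩ := S2_denom_poly κ x _ hκ z
        (fun w hw => ⟨c w, hc w hw.1 hw.2, hzo w hw.1 hw.2⟩) (by
          rintro (i | j)
          · exact ⟨e i.succ, by rw [hze, hα, Fin.cons_succ]⟩
          · exact ⟨b j.succ, by rw [hzb, hβ, Fin.cons_succ]⟩) G
      obtain ⟨N, Q', hQ', hQP, -⟩ := exists_multihomogenize k τ ι g t ht P
      have h1 : MvPolynomial.aeval x Q' = 0 := by
        rw [hQP K x hx1, ← hcomp, hP, map_mul]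
        have h2 : MvPolynomial.aeval y G = 0 := hG
        rw [h2, mul_zero]
      have h2 : MvPolynomial.aeval z F ∣ MvPolynomial.aeval z Q' :=
        map_dvd _ ((hx2 N Q' hQ').1 h1)
      rw [hQP R z hzt, hP] at h2
      have h3 : IsUnit (MvPolynomial.C c0 : R) := (IsUnit.mk0 c0 h0).map MvPolynomial.C
      exact (h3.dvd_mul_left).1 h2
    · rintro ⟨H, rfl⟩
      have h1 : MvPolynomial.aeval y (MvPolynomial.aeval z F) = 0 := by
        rw [hcomp]
        exact (hx2 d F hF).2 dvd_rfl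
      change MvPolynomial.aeval y (MvPolynomial.aeval z F * H) = 0
      rw [map_mul, h1, zero_mul]
  · change ∃ G H : R, MvPolynomial.aeval y H ≠ 0 ∧
      a * MvPolynomial.aeval y H = MvPolynomial.aeval y G
    have ha : a ∈ IntermediateField.adjoin k (Set.range x) := by
      rw [hx3]
      exact IntermediateField.mem_top
    induction ha using IntermediateField.adjoin_induction with
    | mem a ha =>
      obtain ⟨w, rfl⟩ := ha
      exact ⟨z w, 1, by simp, by rw [map_one, mul_one, hval]⟩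
    | algebraMap r =>
      refine ⟨algebraMap k R r, 1, by simp, ?_⟩
      rw [map_one, mul_one]
      have h1 := hcomp (MvPolynomial.C r)
      rw [MvPolynomial.aeval_C, MvPolynomial.aeval_C] at h1
      exact h1.symm
    | add a a' _ _ ha ha' =>
      obtain ⟨G, H, hH, hG⟩ := ha
      obtain ⟨G', H', hH', hG'⟩ := ha'
      refine ⟨G * H' + G' * H, H * H', ?_, ?_⟩
      · rw [map_mul]
        exact mul_ne_zero hH hH'
      · rw [map_mul, map_add, map_mul, map_mul, ← hG, ← hG']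
        ring
    | inv a _ ha =>
      obtain ⟨G, H, hH, hG⟩ := ha
      by_cases ha0 : a = 0
      · exact ⟨0, 1, by simp, by simp [ha0]⟩
      · refine ⟨H, G, ?_, ?_⟩
        · rw [← hG]
          exact mul_ne_zero ha0 hH
        · rw [← hG, ← mul_assoc, inv_mul_cancel₀ ha0, one_mul]
    | mul a a' _ _ ha ha' =>
      obtain ⟨G, H, hH, hG⟩ := ha
      obtain ⟨G', H', hH', hG'⟩ := ha'
      refine ⟨G * G', H * H', ?_, ?_⟩
      · rw [map_mul]
        exact mul_ne_zero hH hH'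
      · rw [map_mul, map_mul, ← hG, ← hG']
        ring

end Pool.Agent.LibHP
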