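import Pool.Agent.LibHP5.S3
import Pool.Agent.LibHP5.S4

set_option autoImplicit false

namespace Pool.Agent.LibHP

theorem T1_key {k τ ι : Type} [Field k] [Fintype τ] [DecidableEq ι] (g : τ → ι)
    (F : MvPolynomial τ k) (J : ι) (Λ : Type) [Field Λ] [Algebra k Λ] (p q : τ → Λ) (s t : Λ)
    (c : τ → Λ) (h0 : MvPolynomial.aeval (linePt g J p q s t c) F = 0)
    (h1 : ∀ v, g v ≠ J → MvPolynomial.aeval (linePt g J p q s t c) (MvPolynomial.pderiv v F) = 0)
    (h2 : ∑ v ∈ Finset.univ.filter (fun v => g v = J),
      p v * MvPolynomial.aeval (linePt g J p q s t c) (MvPolynomial.pderiv v F) = 0)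
    (h3 : ∑ v ∈ Finset.univ.filter (fun v => g v = J),
      q v * MvPolynomial.aeval (linePt g J p q s t c) (MvPolynomial.pderiv v F) = 0)
    (D : Derivation ℤ Λ Λ) (hD : ∀ a : k, D (algebraMap k Λ a) = 0) :
    ∑ v ∈ Finset.univ.filter (fun v => g v = J),
      MvPolynomial.aeval (linePt g J p q s t c) (MvPolynomial.pderiv v F) *
        (s * D (p v) + t * D (q v)) = 0 := by
  have h4 := derivation_aeval k Λ τ D hD (linePt g J p q s t c) F
  rw [h0, map_zero] at h4
  have h5 : ∀ v, MvPolynomial.aeval (linePt g J p q s t c) (MvPolynomial.pderiv v F) *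
      D (linePt g J p q s t c v) = if g v = J then
        MvPolynomial.aeval (linePt g J p q s t c) (MvPolynomial.pderiv v F) *
        (s * D (p v) + t * D (q v)) +
        D s * (p v * MvPolynomial.aeval (linePt g J p q s t c) (MvPolynomial.pderiv v F)) +
        D t * (q v * MvPolynomial.aeval (linePt g J p q s t c) (MvPolynomial.pderiv v F)) else 0 := by
    intro v
    by_cases hv : g v = J
    · rw [if_pos hv]
      have h6 : linePt g J p q s t c v = s * p v + t * q v := if_pos hv
      rw [h6, map_add, Derivation.leibniz, Derivation.leibniz]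
      simp only [smul_eq_mul]
      ring
    · rw [if_neg hv, h1 v hv, zero_mul]
  rw [Finset.sum_congr rfl fun v _ => h5 v, ← Finset.sum_filter, Finset.sum_add_distrib,
    Finset.sum_add_distrib, ← Finset.mul_sum, ← Finset.mul_sum, h2, h3, mul_zero, mul_zero,
    add_zero, add_zero] at h4
  exact h4.symm

/-- The restriction of a smooth hypersurface to a generic line is smooth. -/
theorem lineSmooth_generic (k τ ι : Type) [Field k] [CharZero k] [Fintype τ] [DecidableEq τ]
    [Fintype ι] [DecidableEq ι] (g : τ → ι) (F : MvPolynomial τ k) (hsm : IsSmoothMulti g F)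
    (J : ι) (Λ : Type) [Field Λ] [Algebra k Λ] (p q : τ → Λ)
    (hJ : ∃ v v', v ≠ v' ∧ g v = J ∧ g v' = J)
    (hind : AlgebraicIndependent k
      (Sum.elim (fun v : {v // g v = J} => p v) (fun v : {v // g v = J} => q v))) :
    LineSmooth g F J Λ p q := by
  intro s t c hst hc h0 h1 h2 h3
  -- the derivatives in the directions of the group `J`
  have hs : ∀ v, g v = J → s *
      MvPolynomial.aeval (linePt g J p q s t c) (MvPolynomial.pderiv v F) = 0 := by
    intro v hv
    obtain ⟨D, hD, hD1, hD2⟩ := exists_derivation_indep k Λ _ _ hind (Sum.inl ⟨v, hv⟩)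
    have h4 := T1_key g F J Λ p q s t c h0 h1 h2 h3 D hD
    rw [Finset.sum_eq_single v] at h4
    · have e1 : D (p v) = 1 := hD1
      have e2 : D (q v) = 0 := hD2 (Sum.inr ⟨v, hv⟩) (by simp)
      rw [e1, e2, mul_one, mul_zero, add_zero, mul_comm] at h4
      exact h4
    · intro w hw hwv
      have hwJ := (Finset.mem_filter.1 hw).2
      have e1 : D (p w) = 0 := hD2 (Sum.inl ⟨w, hwJ⟩) (by
        intro h
        exact hwv (congrArg Subtype.val (Sum.inl_injective h)))
      have e2 : D (q w) = 0 := hD2 (Sum.inr ⟨w, hwJ⟩) (by simp)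
      rw [e1, e2, mul_zero, mul_zero, add_zero, mul_zero]
    · intro h
      exact absurd (by rw [Finset.mem_filter]; exact ⟨Finset.mem_univ v, hv⟩) h
  have ht : ∀ v, g v = J → t *
      MvPolynomial.aeval (linePt g J p q s t c) (MvPolynomial.pderiv v F) = 0 := by
    intro v hv
    obtain ⟨D, hD, hD1, hD2⟩ := exists_derivation_indep k Λ _ _ hind (Sum.inr ⟨v, hv⟩)
    have h4 := T1_key g F J Λ p q s t c h0 h1 h2 h3 D hD
    rw [Finset.sum_eq_single v] at h4
    · have e1 : D (q v) = 1 := hD1
      have e2 : D (p v) = 0 := hD2 (Sum.inl ⟨v, hv⟩) (by simp)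
      rw [e1, e2, mul_one, mul_zero, zero_add, mul_comm] at h4
      exact h4
    · intro w hw hwv
      have hwJ := (Finset.mem_filter.1 hw).2
      have e1 : D (q w) = 0 := hD2 (Sum.inr ⟨w, hwJ⟩) (by
        intro h
        exact hwv (congrArg Subtype.val (Sum.inr_injective h)))
      have e2 : D (p w) = 0 := hD2 (Sum.inl ⟨w, hwJ⟩) (by simp)
      rw [e1, e2, mul_zero, mul_zero, add_zero, mul_zero]
    · intro h
      exact absurd (by rw [Finset.mem_filter]; exact ⟨Finset.mem_univ v, hv⟩) h
  have hall : ∀ v, MvPolynomial.aeval (linePt g J p q s t c) (MvPolynomial.pderiv v F) = 0 := by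
    intro v
    by_cases hv : g v = J
    · rcases hst with h | h
      · exact (mul_eq_zero.1 (hs v hv)).resolve_left h
      · exact (mul_eq_zero.1 (ht v hv)).resolve_left h
    · exact h1 v hv
  -- the point has a nonzero coordinate in each group
  have hne : ∀ i, ∃ v, g v = i ∧ linePt g J p q s t c v ≠ 0 := by
    intro i
    by_cases hi : i = J
    · subst hi
      by_contra hcon
      push Not at hcon
      obtain ⟨v, v', hvv, hv, hv'⟩ := hJ
      have e1 : s * p v + t * q v = 0 := by
        have := hcon v hv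
        rwa [linePt, if_pos hv] at this
      have e2 : s * p v' + t * q v' = 0 := by
        have := hcon v' hv'
        rwa [linePt, if_pos hv'] at this
      have e3 : p v * q v' - p v' * q v = 0 := by
        rcases hst with h | h
        · have : s * (p v * q v' - p v' * q v) = 0 := by linear_combination q v' * e1 - q v * e2
          exact (mul_eq_zero.1 this).resolve_left h
        · have : t * (p v * q v' - p v' * q v) = 0 := by linear_combination p v * e2 - p v' * e1
          exact (mul_eq_zero.1 this).resolve_left h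
      obtain ⟨D, hD, hD1, hD2⟩ := exists_derivation_indep k Λ _ _ hind (Sum.inl ⟨v, hv⟩)
      have f1 : D (p v) = 1 := hD1
      have f2 : D (q v) = 0 := hD2 (Sum.inr ⟨v, hv⟩) (by simp)
      have f3 : D (q v') = 0 := hD2 (Sum.inr ⟨v', hv'⟩) (by simp)
      have f4 : D (p v') = 0 := hD2 (Sum.inl ⟨v', hv'⟩) (by
        intro h
        exact hvv (congrArg Subtype.val (Sum.inl_injective h)).symm)
      have e4 := congrArg D e3
      rw [map_sub, Derivation.leibniz, Derivation.leibniz, f1, f2, f3, f4, map_zero] at e4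
      simp only [smul_eq_mul, mul_zero, zero_add, mul_one, sub_zero, add_zero] at e4
      have e5 : Sum.elim (fun v : {v // g v = i} => p v) (fun v : {v // g v = i} => q v)
          (Sum.inr ⟨v', hv'⟩) ≠ 0 := hind.ne_zero _
      exact e5 e4
    · obtain ⟨v, hv, hcv⟩ := hc i hi
      refine ⟨v, hv, ?_⟩
      rw [linePt, if_neg (by rw [hv]; exact hi)]
      exact hcv
  obtain ⟨v, hv⟩ := hsm.ext Λ (linePt g J p q s t c) hne h0
  exact hv (hall v)

end Pool.Agent.LibHP
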