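import Pool.Agent.LibHP2.G7

set_option autoImplicit false

namespace Pool.Agent.LibHP

open MvPolynomial

section T2
variable {k : Type} [Field k] {P U : Type}

/-- Polynomials in `P, U` as polynomials in `U` over `k[P]`. -/
noncomputable def T2_W (k : Type) [Field k] (P U : Type) :
    MvPolynomial (P ⊕ U) k ≃ₐ[k] MvPolynomial U (MvPolynomial P k) :=
  (MvPolynomial.renameEquiv k (Equiv.sumComm P U)).trans (MvPolynomial.sumAlgEquiv k U P)

theorem T2_W_inl (i : P) : T2_W k P U (X (Sum.inl i)) = C (X i) := by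
  simp [T2_W]

theorem T2_W_inr (j : U) : T2_W k P U (X (Sum.inr j)) = X j := by
  simp [T2_W]

variable {κ : Type} [Field κ] [Algebra k κ]

/-- The value at `P = ξ`, as a polynomial in `U` over `κ`. -/
noncomputable def T2_spec (U : Type) (ξ : P → κ) : MvPolynomial (P ⊕ U) k →ₐ[k] MvPolynomial U κ :=
  MvPolynomial.aeval (Sum.elim (fun i => MvPolynomial.C (ξ i)) MvPolynomial.X)

theorem T2_spec_eq (ξ : P → κ) (G : MvPolynomial (P ⊕ U) k) :
    T2_spec U ξ G = MvPolynomial.map (aeval ξ : MvPolynomial P k →ₐ[k] κ).toRingHom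
      (T2_W k P U G) := by
  induction G using MvPolynomial.induction_on with
  | C a =>
    have h1 : (C a : MvPolynomial (P ⊕ U) k) = algebraMap k _ a := rfl
    rw [h1, AlgEquiv.commutes, AlgHom.commutes]
    have h2 : (algebraMap k (MvPolynomial U (MvPolynomial P k)) a) = C (C a) := rfl
    rw [h2, map_C]
    simp
  | add p q hp hq => simp only [map_add, hp, hq]
  | mul_X p i hp =>
    rw [map_mul, hp, map_mul, map_mul]
    congr 1
    rcases i with i | j
    · rw [T2_W_inl]; simp [T2_spec]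
    · rw [T2_W_inr]; simp [T2_spec]

theorem T2_spec_inj (ξ : P → κ) (hξ : AlgebraicIndependent k ξ) :
    Function.Injective (T2_spec (k := k) U ξ) := by
  intro a b hab
  rw [T2_spec_eq, T2_spec_eq] at hab
  exact (T2_W k P U).injective (MvPolynomial.map_injective _
    (algebraicIndependent_iff_injective_aeval.1 hξ) hab)

theorem T2_spec_rename (ξ : P → κ) (p : MvPolynomial P k) :
    T2_spec U ξ (rename Sum.inl p : MvPolynomial (P ⊕ U) k) = C (aeval ξ p) := by
  induction p using MvPolynomial.induction_on with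
  | C a => simp [T2_spec, MvPolynomial.algebraMap_eq]
  | add p q hp hq => simp only [map_add, hp, hq]
  | mul_X p i hp =>
    rw [map_mul, map_mul, hp, map_mul, map_mul, rename_X]
    simp [T2_spec]

theorem T2_denom (ξ : P → κ)
    (hξgen : ∀ a : κ, ∃ p q : MvPolynomial P k, aeval ξ q ≠ 0 ∧
      a * aeval ξ q = aeval ξ p) (u : MvPolynomial U κ) :
    ∃ (D : MvPolynomial P k) (V : MvPolynomial (P ⊕ U) k), aeval ξ D ≠ 0 ∧
      T2_spec U ξ V = C (aeval ξ D) * u := by
  induction u using MvPolynomial.induction_on' with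
  | monomial d a =>
    obtain ⟨p, q, hq, hpq⟩ := hξgen a
    refine ⟨q, rename Sum.inl p * rename Sum.inr (monomial d 1), hq, ?_⟩
    rw [map_mul, T2_spec_rename, C_mul_monomial]
    have h1 : T2_spec U ξ (rename Sum.inr (monomial d (1 : k)) : MvPolynomial (P ⊕ U) k) =
        (monomial d 1 : MvPolynomial U κ) := by
      rw [T2_spec, aeval_rename]
      simp only [Sum.elim_comp_inr]
      rw [aeval_monomial]
      simp [MvPolynomial.monomial_eq]
    rw [h1, C_mul_monomial, mul_one, mul_comm, ← hpq, mul_comm]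
  | add u v hu hv =>
    obtain ⟨D1, U1, h1, h2⟩ := hu
    obtain ⟨D2, U2, h3, h4⟩ := hv
    refine ⟨D1 * D2, rename Sum.inl D2 * U1 + rename Sum.inl D1 * U2, ?_, ?_⟩
    · rw [map_mul]; exact mul_ne_zero h1 h3
    · rw [map_add, map_mul, map_mul, T2_spec_rename, T2_spec_rename, h2, h4, map_mul, C_mul]
      ring

end T2

/-- A nonzero algebra of finite type has a point over every algebraically closed field. -/
theorem T2_hom (κ Λ A : Type) [Field κ] [Field Λ] [Algebra κ Λ] [IsAlgClosed Λ] [CommRing A]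
    [Nontrivial A] [Algebra κ A] [Algebra.FiniteType κ A] : Nonempty (A →ₐ[κ] Λ) := by
  obtain ⟨φ⟩ := G7_hom κ A
  exact ⟨(IsAlgClosed.lift : AlgebraicClosure κ →ₐ[κ] Λ).comp φ⟩

/-- Specialization: if a system of polynomial equations has no solution for generic values of the
parameters, then it has none for all values of the parameters outside of a hypersurface. -/
theorem spec_no_zero (k Λ : Type) [Field k] [Field Λ] [Algebra k Λ] [IsAlgClosed Λ]
    (P U : Type) [Fintype P] [Fintype U] (S : Finset (MvPolynomial (P ⊕ U) k)) (p : P → Λ)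
    (hp : AlgebraicIndependent k p)
    (hno : ∀ u : U → Λ, ∃ f ∈ S, MvPolynomial.aeval (Sum.elim p u) f ≠ 0) :
    ∃ h : MvPolynomial P k, h ≠ 0 ∧ ∀ p0 : P → k, MvPolynomial.eval p0 h ≠ 0 →
      ∀ (Ω : Type) [Field Ω] [Algebra k Ω] (u : U → Ω), ∃ f ∈ S,
        MvPolynomial.aeval (Sum.elim (fun l => algebraMap k Ω (p0 l)) u) f ≠ 0 := by
  classical
  let κ := IntermediateField.adjoin k (Set.range p)
  have hmem : ∀ i, p i ∈ κ := fun i => IntermediateField.subset_adjoin k _ ⟨i, rfl⟩
  let ξ : P → κ := fun i => ⟨p i, hmem i⟩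
  have hξv : ∀ r : MvPolynomial P k, ((aeval ξ r : κ) : Λ) = aeval p r := by
    intro r
    exact MvPolynomial.comp_aeval_apply (φ := κ.val) (f := ξ) (p := r)
  have hξ : AlgebraicIndependent k ξ := by
    rw [algebraicIndependent_iff]
    intro r hr
    apply (algebraicIndependent_iff.1 hp)
    rw [← hξv, hr]
    rfl
  have hξgen : ∀ a : κ, ∃ r q : MvPolynomial P k, aeval ξ q ≠ 0 ∧
      a * aeval ξ q = aeval ξ r := by
    intro a
    obtain ⟨r, q, h⟩ := (IntermediateField.mem_adjoin_range_iff k p (a : Λ)).1 a.2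
    by_cases hq : aeval p q = 0
    · refine ⟨0, 1, by simp, ?_⟩
      have ha : a = 0 := by
        apply Subtype.ext
        rw [h, hq, div_zero]
        rfl
      rw [ha]
      simp
    · refine ⟨r, q, ?_, ?_⟩
      · intro h0
        apply hq
        rw [← hξv, h0]
        rfl
      · apply Subtype.ext
        change (a : Λ) * ((aeval ξ q : κ) : Λ) = ((aeval ξ r : κ) : Λ)
        rw [hξv, hξv, h, div_mul_cancel₀ _ hq]
  -- the ideal generated over the field `κ` is the unit ideal
  let I : Ideal (MvPolynomial U κ) := Ideal.span ((T2_spec U ξ) '' (S : Set (MvPolynomial (P ⊕ U) k)))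
  have hI : I = ⊤ := by
    by_contra hI
    have hnt : Nontrivial (MvPolynomial U κ ⧸ I) := Ideal.Quotient.nontrivial_iff.2 hI
    have hft : Algebra.FiniteType κ (MvPolynomial U κ ⧸ I) :=
      Algebra.FiniteType.of_surjective (Ideal.Quotient.mkₐ κ I) (Ideal.Quotient.mkₐ_surjective κ I)
    obtain ⟨φ⟩ := T2_hom κ Λ (MvPolynomial U κ ⧸ I)
    let u : U → Λ := fun j => φ (Ideal.Quotient.mk I (X j))
    obtain ⟨f, hf, hne⟩ := hno u
    apply hne
    have h1 : aeval u (T2_spec U ξ f) = aeval (Sum.elim p u) f := by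
      have h2 : ((aeval u : MvPolynomial U κ →ₐ[κ] Λ).restrictScalars k).comp (T2_spec U ξ) =
          aeval (Sum.elim p u) := by
        apply MvPolynomial.algHom_ext
        rintro (i | j)
        · simp only [AlgHom.comp_apply, T2_spec, aeval_X, Sum.elim_inl, AlgHom.restrictScalars_apply,
            aeval_C]
          rfl
        · simp only [AlgHom.comp_apply, T2_spec, aeval_X, Sum.elim_inr, AlgHom.restrictScalars_apply]
      exact DFunLike.congr_fun h2 f
    rw [← h1]
    have h3 : aeval u (T2_spec U ξ f) = φ (Ideal.Quotient.mk I (T2_spec U ξ f)) := by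
      have h4 : (aeval u : MvPolynomial U κ →ₐ[κ] Λ) =
          φ.comp (Ideal.Quotient.mkₐ κ I) := by
        apply MvPolynomial.algHom_ext
        intro j
        simp [u]
      rw [h4]
      rfl
    have h5 : Ideal.Quotient.mk I (T2_spec U ξ f) = 0 :=
      Ideal.Quotient.eq_zero_iff_mem.2 (Ideal.subset_span ⟨f, hf, rfl⟩)
    rw [h3, h5, map_zero]
  -- clear denominators
  have hJ : ∀ w ∈ I, ∃ (D : MvPolynomial P k) (A : MvPolynomial (P ⊕ U) k), aeval ξ D ≠ 0 ∧
      A ∈ Ideal.span (S : Set (MvPolynomial (P ⊕ U) k)) ∧ T2_spec U ξ A = C (aeval ξ D) * w := by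
    intro w hw
    induction hw using Submodule.span_induction with
    | mem w hw =>
      obtain ⟨f, hf, rfl⟩ := hw
      exact ⟨1, f, by simp, Ideal.subset_span hf, by simp⟩
    | zero => exact ⟨1, 0, by simp, Ideal.zero_mem _, by simp⟩
    | add w1 w2 _ _ h1 h2 =>
      obtain ⟨D1, A1, a1, b1, c1⟩ := h1
      obtain ⟨D2, A2, a2, b2, c2⟩ := h2
      refine ⟨D1 * D2, rename Sum.inl D2 * A1 + rename Sum.inl D1 * A2, ?_, ?_, ?_⟩
      · rw [map_mul]
        exact mul_ne_zero a1 a2
      · exact Ideal.add_mem _ (Ideal.mul_mem_left _ _ b1) (Ideal.mul_mem_left _ _ b2)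
      · rw [map_add, map_mul, map_mul, T2_spec_rename, T2_spec_rename, c1, c2, map_mul, C_mul]
        ring
    | smul a w _ h1 =>
      obtain ⟨D1, A1, a1, b1, c1⟩ := h1
      obtain ⟨D2, A2, a2, c2⟩ := T2_denom ξ hξgen a
      refine ⟨D2 * D1, A2 * A1, ?_, Ideal.mul_mem_left _ _ b1, ?_⟩
      · rw [map_mul]
        exact mul_ne_zero a2 a1
      · rw [map_mul, c1, c2, smul_eq_mul, map_mul, C_mul]
        ring
  obtain ⟨D, A, hD, hA, hDA⟩ := hJ 1 (by rw [hI]; trivial)
  have hAD : A = rename Sum.inl D := by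
    apply T2_spec_inj ξ hξ
    rw [hDA, T2_spec_rename, mul_one]
  refine ⟨D, ?_, ?_⟩
  · rintro rfl
    exact hD (map_zero _)
  · intro p0 hp0 Ω _ _ u
    by_contra hcon
    push Not at hcon
    have h1 : ∀ w ∈ Ideal.span (S : Set (MvPolynomial (P ⊕ U) k)),
        aeval (Sum.elim (fun l => algebraMap k Ω (p0 l)) u) w = 0 := by
      intro w hw
      have h2 : Ideal.span (S : Set (MvPolynomial (P ⊕ U) k)) ≤
          RingHom.ker (aeval (Sum.elim (fun l => algebraMap k Ω (p0 l)) u) :
            MvPolynomial (P ⊕ U) k →ₐ[k] Ω) := by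
        rw [Ideal.span_le]
        intro f hf
        exact hcon f hf
      exact h2 hw
    have h3 := h1 A hA
    rw [hAD, aeval_rename, Sum.elim_comp_inl] at h3
    apply hp0
    apply (algebraMap k Ω).injective
    rw [map_zero, ← h3]
    have h4 := MvPolynomial.aeval_algebraMap_apply Ω p0 D
    rw [← MvPolynomial.coe_aeval_eq_eval]
    exact h4.symm

end Pool.Agent.LibHP
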