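import Pool.Agent.LibHP5.T1
import Pool.Agent.LibHP5.T2

set_option autoImplicit false

namespace Pool.Agent.LibHP

open MvPolynomial

section T3
variable {k τ ι : Type} [Field k] [Fintype τ] [DecidableEq ι]

/-- The parameters. -/
abbrev T3_P (g : τ → ι) (J : ι) : Type := {v : τ // g v = J} ⊕ {v : τ // g v = J}

/-- The unknowns `s, t, μ, ν, c, λ`. -/
abbrev T3_U (τ : Type) : Type := Fin 4 ⊕ (τ ⊕ τ)

/-- The point of the line. -/
noncomputable def T3_L (k : Type) [Field k] (g : τ → ι) (J : ι) (v : τ) :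
    MvPolynomial (T3_P g J ⊕ T3_U τ) k :=
  if h : g v = J then X (Sum.inr (Sum.inl 0)) * X (Sum.inl (Sum.inl ⟨v, h⟩)) +
    X (Sum.inr (Sum.inl 1)) * X (Sum.inl (Sum.inr ⟨v, h⟩)) else X (Sum.inr (Sum.inr (Sum.inl v)))

noncomputable def T3_E1 (k : Type) [Field k] (g : τ → ι) (J : ι) :
    MvPolynomial (T3_P g J ⊕ T3_U τ) k :=
  X (Sum.inr (Sum.inl 2)) * X (Sum.inr (Sum.inl 0)) +
    X (Sum.inr (Sum.inl 3)) * X (Sum.inr (Sum.inl 1)) - 1

noncomputable def T3_E2 (k : Type) [Field k] (g : τ → ι) (J : ι) (i : ι) :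
    MvPolynomial (T3_P g J ⊕ T3_U τ) k :=
  ∑ v ∈ Finset.univ.filter (fun v => g v = i),
    X (Sum.inr (Sum.inr (Sum.inr v))) * X (Sum.inr (Sum.inr (Sum.inl v))) - 1

noncomputable def T3_E5 (g : τ → ι) (J : ι) (F : MvPolynomial τ k) :
    MvPolynomial (T3_P g J ⊕ T3_U τ) k :=
  ∑ v : {v : τ // g v = J}, X (Sum.inl (Sum.inl v)) * aeval (T3_L k g J) (pderiv (v : τ) F)

noncomputable def T3_E6 (g : τ → ι) (J : ι) (F : MvPolynomial τ k) :
    MvPolynomial (T3_P g J ⊕ T3_U τ) k :=
  ∑ v : {v : τ // g v = J}, X (Sum.inl (Sum.inr v)) * aeval (T3_L k g J) (pderiv (v : τ) F)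

open Classical in
noncomputable def T3_S [Fintype ι] (g : τ → ι) (J : ι) (F : MvPolynomial τ k) :
    Finset (MvPolynomial (T3_P g J ⊕ T3_U τ) k) :=
  ({T3_E1 k g J, aeval (T3_L k g J) F, T3_E5 g J F, T3_E6 g J F} ∪
    (Finset.univ.filter (fun i => i ≠ J)).image (T3_E2 k g J)) ∪
    (Finset.univ.filter (fun v => g v ≠ J)).image (fun v => aeval (T3_L k g J) (pderiv v F))

/-- The point of the parameter space. -/
def T3_z {Ω : Type} (g : τ → ι) (J : ι) (p q : τ → Ω) (s t mu nu : Ω) (c lam : τ → Ω) :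
    T3_P g J ⊕ T3_U τ → Ω :=
  Sum.elim (Sum.elim (fun v => p v) (fun v => q v)) (Sum.elim ![s, t, mu, nu] (Sum.elim c lam))

theorem T3_aeval_L {Ω : Type} [Field Ω] [Algebra k Ω] (g : τ → ι) (J : ι) (p q : τ → Ω)
    (s t mu nu : Ω) (c lam : τ → Ω) (G : MvPolynomial τ k) :
    aeval (T3_z g J p q s t mu nu c lam) (aeval (T3_L k g J) G) =
      aeval (linePt g J p q s t c) G := by
  rw [← AlgHom.comp_apply, MvPolynomial.comp_aeval]
  congr 2
  funext v
  by_cases h : g v = J
  · rw [T3_L, dif_pos h, linePt, if_pos h]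
    simp [T3_z]
  · rw [T3_L, dif_neg h, linePt, if_neg h]
    simp [T3_z]

theorem T3_iff [Fintype ι] {Ω : Type} [Field Ω] [Algebra k Ω] (g : τ → ι) (J : ι)
    (F : MvPolynomial τ k) (p q : τ → Ω) (s t mu nu : Ω) (c lam : τ → Ω) :
    (∀ f ∈ T3_S g J F, aeval (T3_z g J p q s t mu nu c lam) f = 0) ↔
      (mu * s + nu * t = 1 ∧
      (∀ i, i ≠ J → ∑ v ∈ Finset.univ.filter (fun v => g v = i), lam v * c v = 1) ∧
      aeval (linePt g J p q s t c) F = 0 ∧
      (∀ v, g v ≠ J → aeval (linePt g J p q s t c) (pderiv v F) = 0) ∧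
      ∑ v ∈ Finset.univ.filter (fun v => g v = J),
        p v * aeval (linePt g J p q s t c) (pderiv v F) = 0 ∧
      ∑ v ∈ Finset.univ.filter (fun v => g v = J),
        q v * aeval (linePt g J p q s t c) (pderiv v F) = 0) := by
  classical
  have e1 : aeval (T3_z g J p q s t mu nu c lam) (T3_E1 k g J) = mu * s + nu * t - 1 := by
    simp [T3_E1, T3_z]
  have e2 : ∀ i, aeval (T3_z g J p q s t mu nu c lam) (T3_E2 k g J i) =
      ∑ v ∈ Finset.univ.filter (fun v => g v = i), lam v * c v - 1 := by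
    intro i
    simp [T3_E2, T3_z]
  have hsub : ∀ f : τ → Ω, ∑ v : {v : τ // g v = J}, f v =
      ∑ v ∈ Finset.univ.filter (fun v => g v = J), f v := by
    intro f
    exact (Finset.sum_subtype (Finset.univ.filter (fun v => g v = J)) (p := fun v => g v = J)
      (by simp) f).symm
  have e5 : aeval (T3_z g J p q s t mu nu c lam) (T3_E5 g J F) =
      ∑ v ∈ Finset.univ.filter (fun v => g v = J),
        p v * aeval (linePt g J p q s t c) (pderiv v F) := by
    rw [← hsub, T3_E5, map_sum]
    refine Finset.sum_congr rfl fun v _ => ?_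
    rw [map_mul, T3_aeval_L, aeval_X]
    rfl
  have e6 : aeval (T3_z g J p q s t mu nu c lam) (T3_E6 g J F) =
      ∑ v ∈ Finset.univ.filter (fun v => g v = J),
        q v * aeval (linePt g J p q s t c) (pderiv v F) := by
    rw [← hsub, T3_E6, map_sum]
    refine Finset.sum_congr rfl fun v _ => ?_
    rw [map_mul, T3_aeval_L, aeval_X]
    rfl
  constructor
  · intro h
    refine ⟨?_, ?_, ?_, ?_, ?_, ?_⟩
    · have := h (T3_E1 k g J) (by simp [T3_S])
      rw [e1] at this
      exact sub_eq_zero.1 this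
    · intro i hi
      have := h (T3_E2 k g J i) (by
        refine Finset.mem_union_left _ (Finset.mem_union_right _ (Finset.mem_image_of_mem _ ?_))
        simpa using hi)
      rw [e2] at this
      exact sub_eq_zero.1 this
    · have := h (aeval (T3_L k g J) F) (by simp [T3_S])
      rwa [T3_aeval_L] at this
    · intro v hv
      have := h (aeval (T3_L k g J) (pderiv v F)) (by
        refine Finset.mem_union_right _ (Finset.mem_image.2 ⟨v, ?_, rfl⟩)
        simpa using hv)
      rwa [T3_aeval_L] at this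
    · have := h (T3_E5 g J F) (by simp [T3_S])
      rwa [e5] at this
    · have := h (T3_E6 g J F) (by simp [T3_S])
      rwa [e6] at this
  · rintro ⟨h1, h2, h3, h4, h5, h6⟩ f hf
    rw [T3_S, Finset.mem_union, Finset.mem_union] at hf
    rcases hf with (hf | hf) | hf
    · simp only [Finset.mem_insert, Finset.mem_singleton] at hf
      rcases hf with rfl | rfl | rfl | rfl
      · rw [e1, h1, sub_self]
      · rw [T3_aeval_L, h3]
      · rw [e5, h5]
      · rw [e6, h6]
    · obtain ⟨i, hi, rfl⟩ := Finset.mem_image.1 hf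
      rw [e2, h2 i (by simpa using hi), sub_self]
    · obtain ⟨v, hv, rfl⟩ := Finset.mem_image.1 hf
      rw [T3_aeval_L, h4 v (by simpa using hv)]

end T3

/-- The lines whose restriction is not smooth are contained in a hypersurface. -/
theorem exists_line_poly (k τ ι : Type) [Field k] [CharZero k] [Fintype τ] [DecidableEq τ]
    [Fintype ι] [DecidableEq ι] (g : τ → ι) (F : MvPolynomial τ k) (hsm : IsSmoothMulti g F)
    (J : ι) (hJ : ∃ v v', v ≠ v' ∧ g v = J ∧ g v' = J) :
    ∃ h : MvPolynomial ({v // g v = J} ⊕ {v // g v = J}) k, h ≠ 0 ∧ ∀ p q : τ → k,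
      MvPolynomial.eval (Sum.elim (fun v : {v // g v = J} => p v)
        (fun v : {v // g v = J} => q v)) h ≠ 0 →
      ∀ (Ω : Type) [Field Ω] [Algebra k Ω], LineSmooth g F J Ω
        (fun v => algebraMap k Ω (p v)) (fun v => algebraMap k Ω (q v)) := by
  classical
  -- the generic line
  let R := FractionRing (MvPolynomial (T3_P g J) k)
  let Λ := AlgebraicClosure R
  let z : T3_P g J → Λ := fun a => algebraMap R Λ (algebraMap (MvPolynomial (T3_P g J) k) R (X a))
  have hz : ∀ r : MvPolynomial (T3_P g J) k,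
      aeval z r = algebraMap R Λ (algebraMap (MvPolynomial (T3_P g J) k) R r) := by
    intro r
    induction r using MvPolynomial.induction_on with
    | C a =>
      rw [aeval_C, ← MvPolynomial.algebraMap_eq, ← IsScalarTower.algebraMap_apply k _ R,
        ← IsScalarTower.algebraMap_apply k R Λ]
    | add p q hp hq => simp only [map_add, hp, hq]
    | mul_X p i hp => rw [map_mul, hp, aeval_X, map_mul, map_mul]
  have hzi : AlgebraicIndependent k z := by
    rw [algebraicIndependent_iff]
    intro r hr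
    rw [hz] at hr
    have h1 := (map_eq_zero_iff _ (algebraMap R Λ).injective).1 hr
    exact (map_eq_zero_iff _ (IsFractionRing.injective (MvPolynomial (T3_P g J) k) R)).1 h1
  let p : τ → Λ := fun v => if h : g v = J then z (Sum.inl ⟨v, h⟩) else 0
  let q : τ → Λ := fun v => if h : g v = J then z (Sum.inr ⟨v, h⟩) else 0
  have hpq : Sum.elim (fun v : {v // g v = J} => p v) (fun v : {v // g v = J} => q v) = z := by
    funext a
    rcases a with ⟨v, hv⟩ | ⟨v, hv⟩
    · simp only [Sum.elim_inl, p, dif_pos hv]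
    · simp only [Sum.elim_inr, q, dif_pos hv]
  have hgen := lineSmooth_generic k τ ι g F hsm J Λ p q hJ (by rw [hpq]; exact hzi)
  obtain ⟨h, h0, hh⟩ := spec_no_zero k Λ (T3_P g J) (T3_U τ) (T3_S g J F) z hzi (by
    intro u
    by_contra hcon
    push Not at hcon
    have hu : Sum.elim z u = T3_z g J p q (u (Sum.inl 0)) (u (Sum.inl 1)) (u (Sum.inl 2))
        (u (Sum.inl 3)) (fun v => u (Sum.inr (Sum.inl v))) (fun v => u (Sum.inr (Sum.inr v))) := by
      rw [T3_z, hpq]
      congr 1
      funext a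
      rcases a with a | a | a
      · fin_cases a <;> rfl
      · rfl
      · rfl
    rw [hu, T3_iff] at hcon
    obtain ⟨h1, h2, h3, h4, h5, h6⟩ := hcon
    refine hgen _ _ _ ?_ ?_ h3 h4 h5 h6
    · by_contra hst
      rw [not_or, not_not, not_not] at hst
      rw [hst.1, hst.2, mul_zero, mul_zero, add_zero] at h1
      exact zero_ne_one h1
    · intro i hi
      by_contra hc
      push Not at hc
      have h7 := h2 i hi
      rw [Finset.sum_eq_zero] at h7
      · exact zero_ne_one h7
      · intro v hv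
        rw [hc v (Finset.mem_filter.1 hv).2, mul_zero])
  refine ⟨h, h0, ?_⟩
  intro p0 q0 hne Ω _ _ s t c hst hc h1 h2 h3 h4
  -- the auxiliary unknowns
  obtain ⟨mu, nu, hmu⟩ : ∃ mu nu : Ω, mu * s + nu * t = 1 := by
    rcases hst with h | h
    · exact ⟨s⁻¹, 0, by rw [inv_mul_cancel₀ h, zero_mul, add_zero]⟩
    · exact ⟨0, t⁻¹, by rw [inv_mul_cancel₀ h, zero_mul, zero_add]⟩
  choose w hw1 hw2 using hc
  let lam : τ → Ω := fun v => if h : g v = J then 0 else (if v = w (g v) h then (c v)⁻¹ else 0)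
  have hlam : ∀ i, i ≠ J → ∑ v ∈ Finset.univ.filter (fun v => g v = i), lam v * c v = 1 := by
    intro i hi
    rw [Finset.sum_eq_single (w i hi)]
    · have e1 : ¬ g (w i hi) = J := by
        rw [hw1]
        exact hi
      have e2 : w i hi = w (g (w i hi)) e1 := by
        congr 1
        exact (hw1 i hi).symm
      have e3 : lam (w i hi) = (c (w i hi))⁻¹ := by
        simp only [lam]
        rw [dif_neg e1, if_pos e2]
      rw [e3, inv_mul_cancel₀ (hw2 i hi)]
    · intro v hv hvw
      have hvi := (Finset.mem_filter.1 hv).2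
      subst hvi
      have e3 : lam v = 0 := by
        simp only [lam]
        rw [dif_neg hi, if_neg hvw]
      rw [e3, zero_mul]
    · intro hn
      exact absurd (by rw [Finset.mem_filter]; exact ⟨Finset.mem_univ _, hw1 i hi⟩) hn
  obtain ⟨f, hf, hfne⟩ := hh _ hne Ω (Sum.elim ![s, t, mu, nu] (Sum.elim c lam))
  apply hfne
  have hu : (Sum.elim (fun l => algebraMap k Ω ((Sum.elim (fun v : {v // g v = J} => p0 v)
      (fun v : {v // g v = J} => q0 v)) l)) (Sum.elim ![s, t, mu, nu] (Sum.elim c lam)) :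
      T3_P g J ⊕ T3_U τ → Ω) = T3_z g J (fun v => algebraMap k Ω (p0 v))
        (fun v => algebraMap k Ω (q0 v)) s t mu nu c lam := by
    rw [T3_z]
    congr 1
    funext a
    rcases a with a | a <;> rfl
  rw [hu]
  exact (T3_iff g J F _ _ s t mu nu c lam).2 ⟨hmu, hlam, h1, h2, h3, h4⟩ f hf

end Pool.Agent.LibHP
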