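import Pool.Agent.LibHP5.Defs

set_option autoImplicit false

namespace Pool.Agent.LibHP

open MvPolynomial

/-- The values of the form in new coordinates. -/
theorem aeval_linChange {k τ R : Type} [Field k] [Fintype τ] [CommRing R] [Algebra k R]
    (A : Matrix τ τ k) (F : MvPolynomial τ k) (z : τ → R) :
    MvPolynomial.aeval z (linChange A F) =
      MvPolynomial.aeval (fun u => ∑ v, algebraMap k R (A v u) * z v) F := by
  unfold linChange
  rw [← AlgHom.comp_apply, comp_aeval]
  congr 2
  funext u
  simp

theorem T5_chain {k : Type} [Field k] {σ τ : Type} [Fintype σ] [DecidableEq τ]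
    (g : σ → MvPolynomial τ k) (i : τ) (G : MvPolynomial σ k) :
    pderiv i (aeval g G) = ∑ u, aeval g (pderiv u G) * pderiv i (g u) := by
  classical
  induction G using MvPolynomial.induction_on with
  | C a => simp
  | add p q hp hq =>
    simp only [map_add, hp, hq, add_mul, Finset.sum_add_distrib]
  | mul_X p w hp =>
    simp only [map_mul, aeval_X, Derivation.leibniz, smul_eq_mul, map_add, hp, add_mul,
      Finset.sum_add_distrib]
    congr 1
    · rw [Finset.sum_eq_single w]
      · simp
      · intro u _ hu
        rw [pderiv_X_of_ne hu.symm]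
        simp
      · simp
    · rw [Finset.mul_sum]
      apply Finset.sum_congr rfl
      intro u _
      ring

theorem aeval_pderiv_linChange {k τ R : Type} [Field k] [Fintype τ] [DecidableEq τ] [CommRing R]
    [Algebra k R] (A : Matrix τ τ k) (F : MvPolynomial τ k) (z : τ → R) (w : τ) :
    MvPolynomial.aeval z (MvPolynomial.pderiv w (linChange A F)) =
      ∑ u, algebraMap k R (A w u) *
        MvPolynomial.aeval (fun u => ∑ v, algebraMap k R (A v u) * z v)
          (MvPolynomial.pderiv u F) := by
  have h1 : pderiv w (linChange A F) =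
      ∑ u, linChange A (pderiv u F) * C (A w u) := by
    unfold linChange
    rw [T5_chain]
    apply Finset.sum_congr rfl
    intro u _
    congr 1
    rw [map_sum, Finset.sum_eq_single w]
    · simp
    · intro v _ hv
      rw [Derivation.leibniz, pderiv_X_of_ne hv, pderiv_C]
      simp
    · simp
  rw [h1, map_sum]
  apply Finset.sum_congr rfl
  intro u _
  rw [map_mul, aeval_linChange, aeval_C, mul_comm]

/-- Two changes of coordinates. -/
theorem linChange_linChange {k τ : Type} [Field k] [Fintype τ] (A B : Matrix τ τ k)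
    (F : MvPolynomial τ k) : linChange A (linChange B F) = linChange (A * B) F := by
  have h := aeval_linChange B F (fun u => ∑ v, C (A v u) * X v : τ → MvPolynomial τ k)
  have h' : linChange A (linChange B F) =
      aeval (fun u => ∑ v, C (A v u) * X v : τ → MvPolynomial τ k) (linChange B F) := rfl
  rw [h', h]
  unfold linChange
  congr 2
  funext u
  simp only [Matrix.mul_apply, map_sum, map_mul, Finset.sum_mul, Finset.mul_sum]
  rw [Finset.sum_comm]
  apply Finset.sum_congr rfl
  intro v _
  apply Finset.sum_congr rfl
  intro w _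
  rw [algebraMap_eq]
  ring

theorem linChange_one {k τ : Type} [Field k] [Fintype τ] [DecidableEq τ]
    (F : MvPolynomial τ k) : linChange 1 F = F := by
  unfold linChange
  have h : (fun u => ∑ v, C ((1 : Matrix τ τ k) v u) * X v : τ → MvPolynomial τ k) = X := by
    funext u
    rw [Finset.sum_eq_single u]
    · simp
    · intro v _ hv
      rw [Matrix.one_apply_ne hv]
      simp
    · simp
  rw [h, aeval_X_left, AlgHom.id_apply]

theorem T5_iff {k τ ι : Type} [Field k] [Fintype τ] [DecidableEq ι] (g : τ → ι)
    (d : ι → ℕ) (F : MvPolynomial τ k) : IsMultiHom g d F ↔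
      ∀ i, F.IsWeightedHomogeneous (fun v => if g v = i then 1 else 0 : τ → ℕ) (d i) := by
  have hw : ∀ (s : τ →₀ ℕ) (i : ι), Finsupp.weight (fun v => if g v = i then 1 else 0 : τ → ℕ) s =
      ∑ v ∈ Finset.univ.filter (fun v => g v = i), s v := by
    intro s i
    rw [Finsupp.weight_apply, Finsupp.sum_fintype _ _ (by simp), Finset.sum_filter]
    apply Finset.sum_congr rfl
    intro v _
    by_cases h : g v = i <;> simp [h]
  constructor
  · intro h i s hs
    rw [hw]
    exact h s (mem_support_iff.mpr hs) i
  · intro h s hs i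
    rw [← hw]
    exact h i (mem_support_iff.mp hs)

/-- Substitution of weighted homogeneous polynomials. -/
theorem T5_subst {k σ τ : Type} [Field k] [Fintype σ] (w : σ → ℕ) (w' : τ → ℕ)
    (f : σ → MvPolynomial τ k) (hf : ∀ u, (f u).IsWeightedHomogeneous w' (w u))
    (F : MvPolynomial σ k) (n : ℕ) (hF : F.IsWeightedHomogeneous w n) :
    (aeval f F).IsWeightedHomogeneous w' n := by
  classical
  rw [F.as_sum, map_sum]
  apply IsWeightedHomogeneous.sum
  intro s hs
  rw [aeval_monomial]
  have h1 : (algebraMap k (MvPolynomial τ k) (coeff s F)).IsWeightedHomogeneous w' 0 :=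
    isWeightedHomogeneous_C _ _
  have h2 : (s.prod fun i n => f i ^ n).IsWeightedHomogeneous w' n := by
    rw [Finsupp.prod]
    have h3 := IsWeightedHomogeneous.prod s.support (fun i => f i ^ s i) (fun i => s i • w i)
      (w := w') (fun i _ => (hf i).pow (s i))
    have h4 : ∑ i ∈ s.support, s i • w i = n := by
      have := hF (mem_support_iff.mp hs)
      rw [Finsupp.weight_apply] at this
      exact this
    rw [h4] at h3
    exact h3
  have := h1.mul h2
  rwa [zero_add] at this

/-- A change of coordinates inside of the groups. -/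
theorem IsMultiHom.linChange {k τ ι : Type} [Field k] [Fintype τ] [DecidableEq ι] {g : τ → ι}
    {d : ι → ℕ} {F : MvPolynomial τ k} (hF : IsMultiHom g d F) (A : Matrix τ τ k)
    (hA : ∀ v u, g v ≠ g u → A v u = 0) : IsMultiHom g d (linChange A F) := by
  rw [T5_iff] at hF ⊢
  intro i
  unfold Pool.Agent.LibHP.linChange
  refine T5_subst _ _ _ ?_ F (d i) (hF i)
  intro u
  apply IsWeightedHomogeneous.sum
  intro v _
  by_cases hvu : g v = g u
  · have h1 : (C (A v u) : MvPolynomial τ k).IsWeightedHomogeneous
        (fun v => if g v = i then 1 else 0 : τ → ℕ) 0 := isWeightedHomogeneous_C _ _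
    have h2 := h1.mul (isWeightedHomogeneous_X k (fun v => if g v = i then 1 else 0 : τ → ℕ) v)
    rw [zero_add] at h2
    simp only [hvu] at h2
    exact h2
  · rw [hA v u hvu, C_0, zero_mul]
    exact isWeightedHomogeneous_zero _ _ _

/-- The inverse of a matrix respecting the groups. -/
theorem inv_block {k τ ι : Type} [Field k] [Fintype τ] [DecidableEq τ] [DecidableEq ι] (g : τ → ι)
    (A : Matrix τ τ k) (hdet : A.det ≠ 0) (hA : ∀ v u, g v ≠ g u → A v u = 0) :
    ∃ B : Matrix τ τ k, A * B = 1 ∧ B * A = 1 ∧ (∀ v u, g v ≠ g u → B v u = 0) := by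
  have hu : IsUnit A.det := isUnit_iff_ne_zero.mpr hdet
  have h1 : A * A⁻¹ = 1 := Matrix.mul_nonsing_inv A hu
  have h2 : A⁻¹ * A = 1 := Matrix.nonsing_inv_mul A hu
  let B' : Matrix τ τ k := Matrix.of fun v u => if g v = g u then A⁻¹ v u else 0
  have h3 : A * B' = 1 := by
    ext v u
    rw [← h1, Matrix.mul_apply, Matrix.mul_apply]
    by_cases hvu : g v = g u
    · apply Finset.sum_congr rfl
      intro x _
      by_cases hx : g v = g x
      · have : B' x u = A⁻¹ x u := by
          simp only [B', Matrix.of_apply]
          rw [if_pos (hx.symm.trans hvu)]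
        rw [this]
      · rw [hA v x hx, zero_mul, zero_mul]
    · have h4 : ∑ x, A v x * A⁻¹ x u = 0 := by
        rw [← Matrix.mul_apply, h1, Matrix.one_apply_ne]
        rintro rfl
        exact hvu rfl
      rw [h4]
      apply Finset.sum_eq_zero
      intro x _
      by_cases hx : g v = g x
      · have : B' x u = 0 := by
          simp only [B', Matrix.of_apply]
          rw [if_neg]
          intro h
          exact hvu (hx.trans h)
        rw [this, mul_zero]
      · rw [hA v x hx, zero_mul]
  have h4 : B' = A⁻¹ := by
    calc B' = (A⁻¹ * A) * B' := by rw [h2, one_mul]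
      _ = A⁻¹ * (A * B') := by rw [mul_assoc]
      _ = A⁻¹ := by rw [h3, mul_one]
  refine ⟨A⁻¹, h1, h2, ?_⟩
  intro v u hvu
  rw [← h4]
  simp only [B', Matrix.of_apply]
  rw [if_neg hvu]

end Pool.Agent.LibHP
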